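import Mathlib

/-! The nonzero rationals are the rationals `x` for which there are `u`, `v` with
`v - 1` a sum of four squares, and `v`, `u`, `u + 2 v`, `u - 2 v + x` squares. -/

namespace Pool.Agent.H573R2.NonzeroPE

theorem fermat42_rat {a b c : ℚ} (ha : a ≠ 0) (hb : b ≠ 0) : a ^ 4 + b ^ 4 ≠ c ^ 2 := by
  intro h
  have hD : (a.den * b.den : ℤ) ≠ 0 := by
    have := a.den_nz; have := b.den_nz; positivity
  set D : ℤ := a.den * b.den with hDdef
  set A : ℤ := a.num * b.den with hA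
  set B : ℤ := b.num * a.den with hB
  have hA0 : A ≠ 0 := by
    have := b.den_nz
    have : a.num ≠ 0 := Rat.num_ne_zero.2 ha
    positivity
  have hB0 : B ≠ 0 := by
    have := a.den_nz
    have : b.num ≠ 0 := Rat.num_ne_zero.2 hb
    positivity
  have ea : (a : ℚ) * D = A := by
    have h1 : (a.den : ℚ) ≠ 0 := by exact_mod_cast a.den_nz
    have h2 : a * a.den = a.num := Rat.mul_den_eq_num a
    simp only [hDdef, hA]
    push_cast
    rw [← mul_assoc, h2]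
  have eb : (b : ℚ) * D = B := by
    have h2 : b * b.den = b.num := Rat.mul_den_eq_num b
    simp only [hDdef, hB]
    push_cast
    rw [mul_comm (a.den : ℚ) (b.den : ℚ), ← mul_assoc, h2]
  have e : ((A ^ 4 + B ^ 4 : ℤ) : ℚ) = (c * D ^ 2) ^ 2 := by
    push_cast
    rw [← ea, ← eb, mul_pow, mul_pow, ← add_mul, h]
    ring
  have hsq : IsSquare ((A ^ 4 + B ^ 4 : ℤ) : ℚ) := ⟨c * D ^ 2, by rw [e, pow_two]⟩
  rw [Rat.isSquare_intCast_iff] at hsq
  obtain ⟨r, hr⟩ := hsq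
  exact not_fermat_42 hA0 hB0 (hr.trans (pow_two r).symm)

/-- There are no squares `v ≠ 0`, `u - 2 v`, `u`, `u + 2 v`. -/
theorem no_squares {u v : ℚ} (hv : v ≠ 0) (h1 : IsSquare v) (h2 : IsSquare u)
    (h3 : IsSquare (u + 2 * v)) (h4 : IsSquare (u - 2 * v)) : False := by
  obtain ⟨q, rfl⟩ := h1
  obtain ⟨p, rfl⟩ := h2
  obtain ⟨r, hr⟩ := h3
  obtain ⟨s, hs⟩ := h4
  have hq : q ≠ 0 := by
    rintro rfl
    simp at hv
  have e1 : ((r + s) / 2) * ((r - s) / 2) = q ^ 2 := by linear_combination (-hr + hs) / 4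
  have hm : (r + s) / 2 ≠ 0 := by
    intro h
    rw [h, zero_mul] at e1
    exact hq (pow_eq_zero_iff (two_ne_zero) |>.1 e1.symm)
  have e2 : ((r + s) / 2) ^ 2 + ((r - s) / 2) ^ 2 = p ^ 2 := by linear_combination (-hr - hs) / 2
  refine fermat42_rat (c := (r + s) / 2 * p) hm hq ?_
  have : q ^ 4 = ((r + s) / 2) ^ 2 * ((r - s) / 2) ^ 2 := by
    calc q ^ 4 = (q ^ 2) ^ 2 := by ring
      _ = _ := by rw [← e1]; ring
  rw [this, mul_pow, ← e2]
  ring

theorem four_squares {x : ℚ} (hx : 0 ≤ x) : ∃ a b c d : ℚ, x = a ^ 2 + b ^ 2 + c ^ 2 + d ^ 2 := by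
  obtain ⟨a, b, c, d, h⟩ := Nat.sum_four_squares (x.num.toNat * x.den)
  have hd : (x.den : ℚ) ≠ 0 := by exact_mod_cast x.den_nz
  have hn : ((x.num.toNat : ℤ) : ℚ) = x.num := by
    rw [Int.toNat_of_nonneg (Rat.num_nonneg.2 hx)]
  refine ⟨a / x.den, b / x.den, c / x.den, d / x.den, ?_⟩
  have h' : (a : ℚ) ^ 2 + b ^ 2 + c ^ 2 + d ^ 2 = x.num * x.den := by
    rw [← hn]
    exact_mod_cast h
  have h2 : x * x.den = x.num := Rat.mul_den_eq_num x
  field_simp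
  rw [h', ← h2]
  ring

/-- For `x ≠ 0` there are `u` and `v ≥ 1` such that `v`, `u`, `u + 2 v`, `u - 2 v + x` are
squares. -/
theorem exists_squares {x : ℚ} (hx : x ≠ 0) : ∃ u v : ℚ, 1 ≤ v ∧ IsSquare v ∧ IsSquare u ∧
    IsSquare (u + 2 * v) ∧ IsSquare (u - 2 * v + x) := by
  obtain ⟨c, hc0, hc1, hc2⟩ : ∃ c : ℚ, 0 < c ∧ c ≤ 1 ∧ c ^ 2 * |x| ≤ 1 := by
    refine ⟨1 / (1 + |x|), by positivity, ?_, ?_⟩
    · rw [div_le_one (by positivity)]
      have := abs_nonneg x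
      linarith
    · rw [div_pow, one_pow, div_mul_eq_mul_div, one_mul, div_le_one (by positivity)]
      nlinarith [abs_nonneg x]
  set y : ℚ := x * c ^ 2 / 2 with hy
  have hyx : x = 2 * y / c ^ 2 := by
    rw [hy]; field_simp
  have hy0 : y ≠ 0 := by
    rw [hy]
    positivity
  have hyabs : |y| ≤ 1 / 2 := by
    rw [hy, abs_div, abs_mul, abs_of_nonneg (sq_nonneg c)]
    rw [abs_of_pos (by norm_num : (0 : ℚ) < 2)]
    linarith
  obtain ⟨hy1, hy2⟩ := abs_le.1 hyabs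
  have hden : 25 ≤ y ^ 2 - 14 * y + 32 := by nlinarith [sq_nonneg y]
  have hden0 : y ^ 2 - 14 * y + 32 ≠ 0 := by linarith
  set n : ℚ := 4 * y / (y ^ 2 - 14 * y + 32) with hn
  have hn0 : n ≠ 0 := by
    rw [hn]
    exact div_ne_zero (by positivity) hden0
  have hnmul : n * (y ^ 2 - 14 * y + 32) = 4 * y := by
    rw [hn, div_mul_cancel₀ _ hden0]
  have hn1 : n ≤ 1 := by
    rw [hn, div_le_one (by linarith)]
    linarith
  have hn2 : -1 / 2 ≤ n := by
    rw [hn, le_div_iff₀ (by linarith)]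
    nlinarith
  have h1n : 0 < 1 + n := by linarith
  set be : ℚ := c * n * (1 + n) with hbe
  have hbe0 : be ≠ 0 := by
    rw [hbe]
    positivity
  refine ⟨((1 - 2 * n ^ 2) / be) ^ 2, (2 * n / be) ^ 2, ?_, IsSquare.sq _, IsSquare.sq _,
    ⟨(1 + 2 * n ^ 2) / be, by field_simp; ring⟩, ⟨(1 + (y - 6) * n ^ 2) / be, ?_⟩⟩
  · have : 2 * n / be = 2 / (c * (1 + n)) := by
      rw [hbe]; field_simp
    rw [this, div_pow, le_div_iff₀ (by positivity), one_mul]
    have h3 : c * (1 + n) ≤ 2 := by nlinarith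
    have h4 : 0 ≤ c * (1 + n) := by positivity
    nlinarith
  · have hkey : 1 - 12 * n ^ 2 + 4 * n ^ 4 =
        (1 + (y - 6) * n ^ 2) ^ 2 - 2 * y * n ^ 2 * (1 + n) ^ 2 := by
      linear_combination (-n ^ 3) * hnmul
    have hx2 : x * be ^ 2 = 2 * y * n ^ 2 * (1 + n) ^ 2 := by
      rw [hyx, hbe]; field_simp
    field_simp
    linear_combination hkey + hx2

theorem ne_zero_iff (x : ℚ) : x ≠ 0 ↔ ∃ u v a b c d : ℚ, v = 1 + a + b + c + d ∧
    IsSquare a ∧ IsSquare b ∧ IsSquare c ∧ IsSquare d ∧ IsSquare v ∧ IsSquare u ∧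
    IsSquare (u + 2 * v) ∧ IsSquare (u - 2 * v + x) := by
  constructor
  · intro hx
    obtain ⟨u, v, h1, h2, h3, h4, h5⟩ := exists_squares hx
    obtain ⟨a, b, c, d, h⟩ := four_squares (sub_nonneg.2 h1)
    exact ⟨u, v, a ^ 2, b ^ 2, c ^ 2, d ^ 2, by linarith, IsSquare.sq _, IsSquare.sq _,
      IsSquare.sq _, IsSquare.sq _, h2, h3, h4, h5⟩
  · rintro ⟨u, v, a, b, c, d, hv, ha, hb, hc, hd, h2, h3, h4, h5⟩ rfl
    rw [add_zero] at h5
    have := ha.nonneg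
    have := hb.nonneg
    have := hc.nonneg
    have := hd.nonneg
    exact no_squares (by linarith : v ≠ 0) h2 h3 h4 h5

end Pool.Agent.H573R2.NonzeroPE
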