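import Pool.Agent.H573R2.QToSys

/-!
# From systems over the rational numbers to one quartic equation
-/

set_option autoImplicit false

namespace Pool.Agent.NPC.H573Q

open Pool.Agent.H573R2.QS Pool.Agent.NPC.ER Pool.Agent.NPC.H612

/-- The degree of a polynomial expression (an upper bound for the degree of the polynomial). -/
def tdeg : Tm → ℕ
  | Tm.var _ => 1
  | Tm.zero => 0
  | Tm.one => 0
  | Tm.add s t => max (tdeg s) (tdeg t)
  | Tm.neg t => tdeg t
  | Tm.mul s t => tdeg s + tdeg t

/-- The difference of the two sides of a constraint. -/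
def conTm : ER.Con → Tm
  | ER.Con.one i => Tm.add (Tm.var i) (Tm.neg Tm.one)
  | ER.Con.add i j k => Tm.add (Tm.add (Tm.var i) (Tm.var j)) (Tm.neg (Tm.var k))
  | ER.Con.mul i j k => Tm.add (Tm.mul (Tm.var i) (Tm.var j)) (Tm.neg (Tm.var k))

theorem conTm_iff (v : ℕ → ℚ) (c : ER.Con) : evalQ v (conTm c) = 0 ↔ CHolds v c := by
  cases c <;> simp only [conTm, evalQ, CHolds] <;> constructor <;> intro h <;> linarith

/-- The sum of the squares. -/
def quart (S : List ER.Con) : Tm := sumT (S.map (fun c => Tm.mul (conTm c) (conTm c)))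

theorem evalQ_sumT (x : ℕ → ℚ) (l : List Tm) : evalQ x (sumT l) = (l.map (evalQ x)).sum := by
  induction l with
  | nil => simp [sumT, evalQ]
  | cons a l ih =>
      change evalQ x a + evalQ x (sumT l) = _
      rw [ih]
      simp

theorem evalQ_prodT (x : ℕ → ℚ) (l : List Tm) : evalQ x (prodT l) = (l.map (evalQ x)).prod := by
  induction l with
  | nil => simp [prodT, evalQ]
  | cons a l ih =>
      change evalQ x a * evalQ x (prodT l) = _
      rw [ih]
      simp

theorem quart_nonneg (v : ℕ → ℚ) (S : List ER.Con) : 0 ≤ evalQ v (quart S) := by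
  unfold quart
  rw [evalQ_sumT]
  apply List.sum_nonneg
  intro r hr
  simp only [List.map_map, List.mem_map, Function.comp] at hr
  obtain ⟨c, _, rfl⟩ := hr
  exact mul_self_nonneg _

theorem quart_iff (v : ℕ → ℚ) (S : List ER.Con) : evalQ v (quart S) = 0 ↔ QSysHolds v S := by
  induction S with
  | nil => simp [quart, sumT, evalQ, QSysHolds]
  | cons c S ih =>
    have h1 : evalQ v (quart (c :: S)) = evalQ v (conTm c) * evalQ v (conTm c) +
        evalQ v (quart S) := rfl
    rw [h1, H573R2.QS.sysHolds_cons, ← ih, ← conTm_iff]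
    have h2 := quart_nonneg v S
    constructor
    · intro h
      have h3 := mul_self_nonneg (evalQ v (conTm c))
      have h4 : evalQ v (conTm c) * evalQ v (conTm c) = 0 := by linarith
      exact ⟨mul_self_eq_zero.1 h4, by linarith⟩
    · rintro ⟨h3, h4⟩
      rw [h3, h4]; ring

theorem tdeg_conTm (c : ER.Con) : tdeg (conTm c) ≤ 2 := by
  cases c <;> simp [conTm, tdeg]

theorem tdeg_quart (S : List ER.Con) : tdeg (quart S) ≤ 4 := by
  induction S with
  | nil => simp [quart, sumT, tdeg]
  | cons c S ih =>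
    have h1 : tdeg (quart (c :: S)) = max (tdeg (conTm c) + tdeg (conTm c)) (tdeg (quart S)) := rfl
    have h2 := tdeg_conTm c
    rw [h1]
    exact max_le (by omega) ih

section

variable {α : Type} [TEnc α]

theorem poly_qeq {s t : α → Tm} (hs : Poly s) (ht : Poly t) : Poly (fun a => QF.eq (s a) (t a)) :=
  poly_feq hs ht

theorem poly_toFm {φ : α → QF} (h : Poly φ) : Poly (fun a => (φ a).toFm) := h

theorem poly_qf_of_toFm {φ : α → QF} (h : Poly (fun a => (φ a).toFm)) : Poly φ := h

/-- Case distinction on a constraint, through its code. -/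
theorem conTm_eq (c : ER.Con) : conTm c =
    if c.code.1 = 0 then Tm.add (Tm.var c.code.2.1) (Tm.neg Tm.one)
    else if c.code.1 = 1 then
      Tm.add (Tm.add (Tm.var c.code.2.1) (Tm.var c.code.2.2.1)) (Tm.neg (Tm.var c.code.2.2.2))
    else Tm.add (Tm.mul (Tm.var c.code.2.1) (Tm.var c.code.2.2.1))
      (Tm.neg (Tm.var c.code.2.2.2)) := by
  cases c <;> rfl

theorem poly_conTm {c : α → ER.Con} (hc : Poly c) : Poly (fun a => conTm (c a)) := by
  have h0 : Poly (fun a => (c a).code) := hc
  have h1 : Poly (fun a => (c a).code.1) := Poly.fst h0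
  have h2 : Poly (fun a => (c a).code.2.1) := Poly.fst (Poly.snd h0)
  have h3 : Poly (fun a => (c a).code.2.2.1) := Poly.fst (Poly.snd (Poly.snd h0))
  have h4 : Poly (fun a => (c a).code.2.2.2) := Poly.snd (Poly.snd (Poly.snd h0))
  refine (Poly.ite (Poly.decide_eq h1 (Poly.const 0)) ?_ (Poly.ite
    (Poly.decide_eq h1 (Poly.const 1)) ?_ ?_)).congr fun a => (conTm_eq (c a)).symm
  · exact poly_tadd (poly_tvar h2) (Poly.const _)
  · exact poly_tadd (poly_tadd (poly_tvar h2) (poly_tvar h3)) (poly_tneg (poly_tvar h4))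
  · exact poly_tadd (poly_tmul (poly_tvar h2) (poly_tvar h3)) (poly_tneg (poly_tvar h4))

theorem poly_quart {S : α → List ER.Con} (hS : Poly S) : Poly (fun a => quart (S a)) := by
  refine poly_sumT (Poly.map (F := fun _ c => Tm.mul (conTm c) (conTm c)) hS ?_)
  have := poly_conTm (α := α × ER.Con) (c := fun p => p.2) (Poly.snd Poly.id)
  exact poly_tmul this this

end

end Pool.Agent.NPC.H573Q
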