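import Mathlib

/-! Closure lemmas for first-order definability in a ring, and definability of the auxiliary
predicates used to define equality of degrees in `K[X]`. -/

namespace Pool.Agent.H573R2.EqDeg

open FirstOrder FirstOrder.Language FirstOrder.Ring

universe u

variable {M : Type u} [CommRing M] [CompatibleRing M]

/-- A property of assignments `ℕ → M` given by a formula without parameters. -/
def DD (P : (ℕ → M) → Prop) : Prop :=
  ∃ φ : Language.ring.Formula ℕ, ∀ v, φ.Realize v ↔ P v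

/-- A function of assignments `ℕ → M` given by a term. -/
def TT (t : (ℕ → M) → M) : Prop :=
  ∃ τ : Language.ring.Term ℕ, ∀ v, τ.realize v = t v

theorem TT.var (i : ℕ) : TT (fun v : ℕ → M => v i) := ⟨Term.var i, fun _ => rfl⟩

theorem TT.zero : TT (fun _ : ℕ → M => (0 : M)) := ⟨0, fun _ => by simp⟩

theorem TT.one : TT (fun _ : ℕ → M => (1 : M)) := ⟨1, fun _ => by simp⟩

theorem TT.add {s t : (ℕ → M) → M} (hs : TT s) (ht : TT t) : TT (fun v => s v + t v) := by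
  obtain ⟨σ, hσ⟩ := hs
  obtain ⟨τ, hτ⟩ := ht
  exact ⟨σ + τ, fun v => by simp [hσ, hτ]⟩

theorem TT.mul {s t : (ℕ → M) → M} (hs : TT s) (ht : TT t) : TT (fun v => s v * t v) := by
  obtain ⟨σ, hσ⟩ := hs
  obtain ⟨τ, hτ⟩ := ht
  exact ⟨σ * τ, fun v => by simp [hσ, hτ]⟩

theorem TT.sub {s t : (ℕ → M) → M} (hs : TT s) (ht : TT t) : TT (fun v => s v - t v) := by
  obtain ⟨σ, hσ⟩ := hs
  obtain ⟨τ, hτ⟩ := ht
  exact ⟨σ + -τ, fun v => by simp [hσ, hτ, sub_eq_add_neg]⟩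

/-- Weakening: shift all the variables by one. -/
theorem TT.shift {t : (ℕ → M) → M} (ht : TT t) : TT (fun w : ℕ → M => t (fun i => w (i + 1))) := by
  obtain ⟨τ, hτ⟩ := ht
  exact ⟨τ.relabel (fun i => i + 1), fun v => by rw [Term.realize_relabel, hτ]; rfl⟩

theorem DD.eq {s t : (ℕ → M) → M} (hs : TT s) (ht : TT t) : DD (fun v => s v = t v) := by
  obtain ⟨σ, hσ⟩ := hs
  obtain ⟨τ, hτ⟩ := ht
  exact ⟨σ.equal τ, fun v => by simp [hσ, hτ]⟩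

theorem DD.not {P : (ℕ → M) → Prop} (hP : DD P) : DD (fun v => ¬ P v) := by
  obtain ⟨φ, hφ⟩ := hP
  exact ⟨φ.not, fun v => by rw [Formula.realize_not, hφ]⟩

theorem DD.and {P Q : (ℕ → M) → Prop} (hP : DD P) (hQ : DD Q) : DD (fun v => P v ∧ Q v) := by
  obtain ⟨φ, hφ⟩ := hP
  obtain ⟨ψ, hψ⟩ := hQ
  exact ⟨φ ⊓ ψ, fun v => by rw [Formula.realize_inf, hφ, hψ]⟩

theorem DD.or {P Q : (ℕ → M) → Prop} (hP : DD P) (hQ : DD Q) : DD (fun v => P v ∨ Q v) := by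
  obtain ⟨φ, hφ⟩ := hP
  obtain ⟨ψ, hψ⟩ := hQ
  exact ⟨φ ⊔ ψ, fun v => by rw [Formula.realize_sup, hφ, hψ]⟩

theorem DD.imp {P Q : (ℕ → M) → Prop} (hP : DD P) (hQ : DD Q) : DD (fun v => P v → Q v) := by
  obtain ⟨φ, hφ⟩ := hP
  obtain ⟨ψ, hψ⟩ := hQ
  exact ⟨φ.imp ψ, fun v => by rw [Formula.realize_imp, hφ, hψ]⟩

theorem DD.iff {P Q : (ℕ → M) → Prop} (hP : DD P) (hQ : DD Q) : DD (fun v => (P v ↔ Q v)) := by
  obtain ⟨φ, hφ⟩ := hP
  obtain ⟨ψ, hψ⟩ := hQ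
  exact ⟨φ.iff ψ, fun v => by rw [Formula.realize_iff, hφ, hψ]⟩

/-- The relabelling used for quantifiers: variable `0` is the bound one. -/
def lab : ℕ → ℕ ⊕ Unit
  | 0 => Sum.inr ()
  | (i + 1) => Sum.inl i

theorem DD.ex {Q : M → (ℕ → M) → Prop}
    (h : DD (fun w : ℕ → M => Q (w 0) (fun i => w (i + 1)))) : DD (fun v => ∃ x, Q x v) := by
  obtain ⟨φ, hφ⟩ := h
  refine ⟨(φ.relabel lab).iExs Unit, fun v => ?_⟩
  rw [Formula.realize_iExs]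
  constructor
  · rintro ⟨i, hi⟩
    refine ⟨i (), ?_⟩
    rw [Formula.realize_relabel, hφ] at hi
    exact hi
  · rintro ⟨x, hx⟩
    refine ⟨fun _ => x, ?_⟩
    rw [Formula.realize_relabel, hφ]
    exact hx

theorem DD.all {Q : M → (ℕ → M) → Prop}
    (h : DD (fun w : ℕ → M => Q (w 0) (fun i => w (i + 1)))) : DD (fun v => ∀ x, Q x v) := by
  have h1 : DD (fun w : ℕ → M => ¬ Q (w 0) (fun i => w (i + 1))) := h.not
  have h2 : DD (fun v => ∃ x, ¬ Q x v) := DD.ex (Q := fun x v => ¬ Q x v) h1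
  obtain ⟨φ, hφ⟩ := h2
  refine ⟨φ.not, fun v => ?_⟩
  rw [Formula.realize_not, hφ]
  push Not
  rfl

theorem DD.dvd {s t : (ℕ → M) → M} (hs : TT s) (ht : TT t) : DD (fun v => s v ∣ t v) := by
  have : DD (fun v => ∃ x, t v = s v * x) :=
    DD.ex (Q := fun x v => t v = s v * x) (DD.eq ht.shift (hs.shift.mul (TT.var 0)))
  exact this

/-- `x` is `0` or divides `1` (in `K[X]`: `x` is a constant). -/
def IsC (x : M) : Prop := x = 0 ∨ x ∣ 1

theorem DD.isC {t : (ℕ → M) → M} (ht : TT t) : DD (fun v => IsC (t v)) :=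
  (DD.eq ht TT.zero).or (DD.dvd ht TT.one)

/-- `q` is irreducible, written in the language of rings. -/
def Irr (q : M) : Prop := q ≠ 0 ∧ ¬ (q ∣ 1) ∧ ∀ a b, q = a * b → (a ∣ 1 ∨ b ∣ 1)

theorem DD.irr {t : (ℕ → M) → M} (ht : TT t) : DD (fun v => Irr (t v)) := by
  refine (DD.eq ht TT.zero).not.and ((DD.dvd ht TT.one).not.and ?_)
  refine DD.all (Q := fun a v => ∀ b, t v = a * b → (a ∣ 1 ∨ b ∣ 1)) ?_
  refine DD.all (Q := fun b w => t (fun i => w (i + 1)) = w 0 * b → (w 0 ∣ 1 ∨ b ∣ 1)) ?_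
  exact (DD.eq ht.shift.shift ((TT.var 1).mul (TT.var 0))).imp
    ((DD.dvd (TT.var 1) TT.one).or (DD.dvd (TT.var 0) TT.one))

/-- `h` is squarefree, written in the language of rings. -/
def Sqf (h : M) : Prop := ∀ x, x * x ∣ h → x ∣ 1

theorem DD.sqf {t : (ℕ → M) → M} (ht : TT t) : DD (fun v => Sqf (t v)) := by
  refine DD.all (Q := fun x v => x * x ∣ t v → x ∣ 1) ?_
  exact (DD.dvd ((TT.var 0).mul (TT.var 0)) ht.shift).imp (DD.dvd (TT.var 0) TT.one)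

/-- `b` is a value of `F` at a root of `h`. -/
def Hit (h F b : M) : Prop := ∃ q, Irr q ∧ q ∣ h ∧ q ∣ F - b

theorem DD.hit {h F b : (ℕ → M) → M} (hh : TT h) (hF : TT F) (hb : TT b) :
    DD (fun v => Hit (h v) (F v) (b v)) := by
  refine DD.ex (Q := fun q v => Irr q ∧ q ∣ h v ∧ q ∣ F v - b v) ?_
  exact (DD.irr (TT.var 0)).and ((DD.dvd (TT.var 0) hh.shift).and
    (DD.dvd (TT.var 0) (hF.shift.sub hb.shift)))

/-- `F` takes different values at different roots of `h`. -/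
def Inj (h F : M) : Prop :=
  ∀ q r b, Irr q → Irr r → IsC b → q ∣ h → r ∣ h → q ∣ F - b → r ∣ F - b → q ∣ r

theorem DD.inj {h F : (ℕ → M) → M} (hh : TT h) (hF : TT F) :
    DD (fun v => Inj (h v) (F v)) := by
  refine DD.all (Q := fun q v => ∀ r b, Irr q → Irr r → IsC b → q ∣ h v → r ∣ h v →
    q ∣ F v - b → r ∣ F v - b → q ∣ r) ?_
  refine DD.all (Q := fun r w => ∀ b, Irr (w 0) → Irr r → IsC b →
    w 0 ∣ h (fun i => w (i + 1)) → r ∣ h (fun i => w (i + 1)) →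
    w 0 ∣ F (fun i => w (i + 1)) - b → r ∣ F (fun i => w (i + 1)) - b → w 0 ∣ r) ?_
  refine DD.all (Q := fun b w => Irr (w 1) → Irr (w 0) → IsC b →
    w 1 ∣ h (fun i => w (i + 2)) → w 0 ∣ h (fun i => w (i + 2)) →
    w 1 ∣ F (fun i => w (i + 2)) - b → w 0 ∣ F (fun i => w (i + 2)) - b → w 1 ∣ w 0) ?_
  have h3 : TT (fun w : ℕ → M => h (fun i => w (i + 3))) := hh.shift.shift.shift
  have F3 : TT (fun w : ℕ → M => F (fun i => w (i + 3))) := hF.shift.shift.shift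
  exact (DD.irr (TT.var 2)).imp ((DD.irr (TT.var 1)).imp ((DD.isC (TT.var 0)).imp
    ((DD.dvd (TT.var 2) h3).imp ((DD.dvd (TT.var 1) h3).imp
    ((DD.dvd (TT.var 2) (F3.sub (TT.var 0))).imp
    ((DD.dvd (TT.var 1) (F3.sub (TT.var 0))).imp (DD.dvd (TT.var 2) (TT.var 1))))))))

/-- The formula which defines equality of degrees. -/
def Rel (f g : M) : Prop :=
  (f = 0 ↔ g = 0) ∧ ∃ c d F G, IsC c ∧ IsC d ∧ Sqf (f + c) ∧ Sqf (g + d) ∧
    Inj (f + c) F ∧ Inj (g + d) G ∧ ∀ b, IsC b → (Hit (f + c) F b ↔ Hit (g + d) G b)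

theorem DD.rel : DD (fun v : ℕ → M => Rel (v 0) (v 1)) := by
  refine ((DD.eq (TT.var 0) TT.zero).iff (DD.eq (TT.var 1) TT.zero)).and ?_
  refine DD.ex (Q := fun c v => ∃ d F G, IsC c ∧ IsC d ∧ Sqf (v 0 + c) ∧ Sqf (v 1 + d) ∧
    Inj (v 0 + c) F ∧ Inj (v 1 + d) G ∧
    ∀ b, IsC b → (Hit (v 0 + c) F b ↔ Hit (v 1 + d) G b)) ?_
  refine DD.ex (Q := fun d v => ∃ F G, IsC (v 0) ∧ IsC d ∧ Sqf (v 1 + v 0) ∧ Sqf (v 2 + d) ∧
    Inj (v 1 + v 0) F ∧ Inj (v 2 + d) G ∧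
    ∀ b, IsC b → (Hit (v 1 + v 0) F b ↔ Hit (v 2 + d) G b)) ?_
  refine DD.ex (Q := fun F v => ∃ G, IsC (v 1) ∧ IsC (v 0) ∧ Sqf (v 2 + v 1) ∧ Sqf (v 3 + v 0) ∧
    Inj (v 2 + v 1) F ∧ Inj (v 3 + v 0) G ∧
    ∀ b, IsC b → (Hit (v 2 + v 1) F b ↔ Hit (v 3 + v 0) G b)) ?_
  refine DD.ex (Q := fun G v => IsC (v 2) ∧ IsC (v 1) ∧ Sqf (v 3 + v 2) ∧ Sqf (v 4 + v 1) ∧
    Inj (v 3 + v 2) (v 0) ∧ Inj (v 4 + v 1) G ∧
    ∀ b, IsC b → (Hit (v 3 + v 2) (v 0) b ↔ Hit (v 4 + v 1) G b)) ?_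
  have t1 : TT (fun v : ℕ → M => v 4 + v 3) := (TT.var 4).add (TT.var 3)
  have t2 : TT (fun v : ℕ → M => v 5 + v 2) := (TT.var 5).add (TT.var 2)
  refine (DD.isC (TT.var 3)).and ((DD.isC (TT.var 2)).and ((DD.sqf t1).and ((DD.sqf t2).and
    ((DD.inj t1 (TT.var 1)).and ((DD.inj t2 (TT.var 0)).and ?_)))))
  refine DD.all (Q := fun b v => IsC b → (Hit (v 4 + v 3) (v 1) b ↔ Hit (v 5 + v 2) (v 0) b)) ?_
  exact (DD.isC (TT.var 0)).imp ((DD.hit t1.shift (TT.var 2) (TT.var 0)).iff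
    (DD.hit t2.shift (TT.var 1) (TT.var 0)))

/-- The set defined by `Rel` is definable without parameters. -/
theorem definable_rel : (∅ : Set M).Definable Language.ring {v : Fin 2 → M | Rel (v 0) (v 1)} := by
  rw [Set.empty_definable_iff]
  obtain ⟨φ, hφ⟩ := DD.rel (M := M)
  refine ⟨φ.relabel (fun i => if i = 0 then (0 : Fin 2) else 1), ?_⟩
  ext v
  have := hφ (v ∘ (fun i => if i = 0 then (0 : Fin 2) else 1))
  simp only [Function.comp] at this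
  change Rel (v 0) (v 1) ↔ Formula.Realize _ v
  rw [Formula.realize_relabel]
  exact this.symm

end Pool.Agent.H573R2.EqDeg
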