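import Pool.Agent.H573R2.EqDegDef

/-! In `K[X]`, `K` algebraically closed of characteristic zero, the relation `Rel` is equality of
degrees. -/

namespace Pool.Agent.H573R2.EqDeg

open Polynomial

universe u

set_option linter.unusedSectionVars false

variable {K : Type u} [Field K]

theorem isC_iff (x : K[X]) : IsC x ↔ ∃ c : K, x = C c := by
  unfold IsC
  rw [← isUnit_iff_dvd_one]
  constructor
  · rintro (rfl | h)
    · exact ⟨0, by simp⟩
    · obtain ⟨c, _, hc⟩ := Polynomial.isUnit_iff.1 h
      exact ⟨c, hc.symm⟩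
  · rintro ⟨c, rfl⟩
    by_cases hc : c = 0
    · left; simp [hc]
    · right; exact Polynomial.isUnit_C.2 (Ne.isUnit hc)

theorem irr_iff (q : K[X]) : Irr q ↔ Irreducible q := by
  unfold Irr
  rw [irreducible_iff]
  simp only [← isUnit_iff_dvd_one]
  constructor
  · rintro ⟨_, h2, h3⟩
    exact ⟨h2, fun a b hab => h3 a b hab⟩
  · rintro ⟨h2, h3⟩
    refine ⟨?_, h2, fun a b hab => h3 hab⟩
    rintro rfl
    rcases h3 (a := 0) (b := 0) (by simp) with h | h <;> exact h2 h

theorem sqf_iff (h : K[X]) : Sqf h ↔ Squarefree h := by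
  unfold Sqf Squarefree
  simp only [← isUnit_iff_dvd_one]

variable [IsAlgClosed K]

theorem irr_dvd_iff {q : K[X]} (hq : Irr q) : ∃ a : K, ∀ h : K[X], q ∣ h ↔ h.eval a = 0 := by
  rw [irr_iff] at hq
  have h1 := IsAlgClosed.degree_eq_one_of_irreducible K hq
  obtain ⟨a, ha⟩ := Polynomial.exists_root_of_degree_eq_one h1
  refine ⟨a, fun h => ?_⟩
  have hX : (X - C a) ∣ q := Polynomial.dvd_iff_isRoot.2 ha
  have hass : Associated (X - C a) q :=
    (Polynomial.irreducible_X_sub_C a).associated_of_dvd hq hX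
  rw [← hass.dvd_iff_dvd_left, Polynomial.dvd_iff_isRoot]
  rfl

theorem irr_X_sub_C (a : K) : Irr (X - C a : K[X]) :=
  (irr_iff _).2 (Polynomial.irreducible_X_sub_C a)

theorem hit_iff (h F : K[X]) (b : K) : Hit h F (C b) ↔ ∃ a, h.eval a = 0 ∧ F.eval a = b := by
  constructor
  · rintro ⟨q, hq, h1, h2⟩
    obtain ⟨a, ha⟩ := irr_dvd_iff hq
    refine ⟨a, (ha h).1 h1, ?_⟩
    have := (ha _).1 h2
    simpa [sub_eq_zero] using this
  · rintro ⟨a, h1, h2⟩
    refine ⟨X - C a, irr_X_sub_C a, ?_, ?_⟩
    · exact Polynomial.dvd_iff_isRoot.2 h1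
    · exact Polynomial.dvd_iff_isRoot.2 (by simp [h2])

theorem inj_iff (h F : K[X]) : Inj h F ↔
    ∀ a a', h.eval a = 0 → h.eval a' = 0 → F.eval a = F.eval a' → a = a' := by
  constructor
  · intro H a a' ha ha' hF
    have := H (X - C a) (X - C a') (C (F.eval a)) (irr_X_sub_C a) (irr_X_sub_C a')
      ((isC_iff _).2 ⟨_, rfl⟩) (Polynomial.dvd_iff_isRoot.2 ha) (Polynomial.dvd_iff_isRoot.2 ha')
      (Polynomial.dvd_iff_isRoot.2 (by simp)) (Polynomial.dvd_iff_isRoot.2 (by simp [hF]))
    have h2 := Polynomial.dvd_iff_isRoot.1 this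
    simpa [sub_eq_zero] using h2
  · intro H q r b hq hr hb h1 h2 h3 h4
    obtain ⟨b, rfl⟩ := (isC_iff b).1 hb
    obtain ⟨a, ha⟩ := irr_dvd_iff hq
    obtain ⟨a', ha'⟩ := irr_dvd_iff hr
    have e1 := (ha _).1 h1
    have e2 := (ha' _).1 h2
    have e3 := (ha _).1 h3
    have e4 := (ha' _).1 h4
    simp only [eval_sub, eval_C, sub_eq_zero] at e3 e4
    have := H a a' e1 e2 (e3.trans e4.symm)
    subst this
    rw [ha]
    exact (ha' r).1 dvd_rfl

/-- A squarefree polynomial has as many roots as its degree. -/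
theorem card_roots_of_squarefree [DecidableEq K] {h : K[X]} (hh : Squarefree h) :
    h.roots.toFinset.card = h.natDegree := by
  have hsplit : h.Splits := IsAlgClosed.splits h
  have hnd : h.roots.Nodup := by
    rw [Multiset.nodup_iff_count_le_one]
    intro a
    rw [count_roots]
    by_contra hlt
    push Not at hlt
    have h0 : h ≠ 0 := hh.ne_zero
    have h2 : (X - C a) ^ 2 ∣ h := (le_rootMultiplicity_iff h0).1 hlt
    have h3 : IsUnit (X - C a) := hh _ (by simpa [pow_two] using h2)
    exact (Polynomial.irreducible_X_sub_C a).not_isUnit h3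
  rw [Multiset.toFinset_card_of_nodup hnd]
  exact hsplit.natDegree_eq_card_roots.symm

variable [CharZero K]

/-- Some translate of a polynomial by a constant is squarefree. -/
theorem exists_squarefree_add_C (f : K[X]) : ∃ c : K, Squarefree (f + C c) := by
  classical
  by_cases hf : f.natDegree = 0
  · obtain ⟨a, rfl⟩ := Polynomial.natDegree_eq_zero.1 hf
    refine ⟨1 - a, ?_⟩
    rw [← C_add]
    simp
  · have hf' : derivative f ≠ 0 := by
      intro h0
      exact hf (Polynomial.derivative_eq_zero.1 h0)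
    obtain ⟨c, hc⟩ := Infinite.exists_notMem_finset
      ((derivative f).roots.toFinset.image (fun a => - f.eval a))
    refine ⟨c, ?_⟩
    have hsep : (f + C c).Separable := by
      unfold Polynomial.Separable
      rw [derivative_add, derivative_C, add_zero]
      refine isCoprime_of_irreducible_dvd ?_ ?_
      · rintro ⟨_, h0⟩
        exact hf' h0
      · intro q hq h1 h2
        obtain ⟨a, ha⟩ := irr_dvd_iff ((irr_iff q).2 hq)
        have e1 := (ha _).1 h1
        have e2 := (ha _).1 h2
        apply hc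
        rw [Finset.mem_image]
        refine ⟨a, ?_, ?_⟩
        · rw [Multiset.mem_toFinset, mem_roots hf']
          exact e2
        · simp only [eval_add, eval_C] at e1
          exact neg_eq_of_add_eq_zero_right e1
    exact hsep.squarefree

theorem natDegree_add_C' (f : K[X]) (c : K) : (f + C c).natDegree = f.natDegree :=
  Polynomial.natDegree_add_C

/-- The set of roots of `h`. -/
noncomputable def Z (h : K[X]) : Finset K := by
  classical exact h.roots.toFinset

theorem mem_Z {h : K[X]} (hh : h ≠ 0) (a : K) : a ∈ Z h ↔ h.eval a = 0 := by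
  classical
  unfold Z
  rw [Multiset.mem_toFinset, mem_roots hh]
  rfl

theorem card_Z {h : K[X]} (hh : Squarefree h) : (Z h).card = h.natDegree := by
  classical
  unfold Z
  convert card_roots_of_squarefree hh

theorem rel_iff (f g : K[X]) : Rel f g ↔ f.degree = g.degree := by
  classical
  constructor
  · rintro ⟨h0, c, d, F, G, hc, hd, hsf, hsg, hF, hG, hb⟩
    obtain ⟨c, rfl⟩ := (isC_iff c).1 hc
    obtain ⟨d, rfl⟩ := (isC_iff d).1 hd
    rw [sqf_iff] at hsf hsg
    rw [inj_iff] at hF hG
    by_cases hf0 : f = 0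
    · have := h0.1 hf0
      rw [hf0, this]
    have hg0 : g ≠ 0 := fun h => hf0 (h0.2 h)
    have himg : (Z (f + C c)).image (fun a => F.eval a) = (Z (g + C d)).image (fun a => G.eval a) := by
      ext b
      have := hb (C b) ((isC_iff _).2 ⟨b, rfl⟩)
      rw [hit_iff, hit_iff] at this
      simp only [Finset.mem_image, mem_Z hsf.ne_zero, mem_Z hsg.ne_zero]
      exact this
    have c1 : ((Z (f + C c)).image (fun a => F.eval a)).card = (Z (f + C c)).card := by
      apply Finset.card_image_of_injOn
      intro a ha a' ha' h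
      have ha1 := (mem_Z hsf.ne_zero a).1 ha
      have ha2 := (mem_Z hsf.ne_zero a').1 ha'
      exact hF a a' ha1 ha2 h
    have c2 : ((Z (g + C d)).image (fun a => G.eval a)).card = (Z (g + C d)).card := by
      apply Finset.card_image_of_injOn
      intro a ha a' ha' h
      have ha1 := (mem_Z hsg.ne_zero a).1 ha
      have ha2 := (mem_Z hsg.ne_zero a').1 ha'
      exact hG a a' ha1 ha2 h
    rw [himg] at c1
    have : (Z (f + C c)).card = (Z (g + C d)).card := c1.symm.trans c2
    rw [card_Z hsf, card_Z hsg, natDegree_add_C', natDegree_add_C'] at this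
    rw [degree_eq_natDegree hf0, degree_eq_natDegree hg0, this]
  · intro hdeg
    obtain ⟨c, hc⟩ := exists_squarefree_add_C f
    obtain ⟨d, hd⟩ := exists_squarefree_add_C g
    have hnd : f.natDegree = g.natDegree := natDegree_eq_of_degree_eq hdeg
    have hcard : (Z (g + C d)).card = (Z (f + C c)).card := by
      rw [card_Z hc, card_Z hd, natDegree_add_C', natDegree_add_C', hnd]
    let e := Finset.equivOfCardEq hcard
    -- the interpolating polynomial sends the roots of `g + d` to those of `f + c`
    let r : K → K := fun x => if hx : x ∈ Z (g + C d) then (e ⟨x, hx⟩ : K) else 0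
    have hr : ∀ x (hx : x ∈ Z (g + C d)), r x = (e ⟨x, hx⟩ : K) := by
      intro x hx
      simp only [r, dif_pos hx]
    let G : K[X] := Lagrange.interpolate (Z (g + C d)) id r
    have hG : ∀ x ∈ Z (g + C d), G.eval x = r x := by
      intro x hx
      exact Lagrange.eval_interpolate_at_node (v := id) r (Set.injOn_id _) hx
    refine ⟨?_, C c, C d, X, G, (isC_iff _).2 ⟨c, rfl⟩, (isC_iff _).2 ⟨d, rfl⟩,
      (sqf_iff _).2 hc, (sqf_iff _).2 hd, ?_, ?_, ?_⟩
    · rw [← degree_eq_bot, ← degree_eq_bot, hdeg]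
    · rw [inj_iff]
      intro a a' _ _ h
      simpa using h
    · rw [inj_iff]
      intro a a' ha ha' h
      have h1 := (mem_Z hd.ne_zero a).2 ha
      have h2 := (mem_Z hd.ne_zero a').2 ha'
      rw [hG a h1, hG a' h2, hr a h1, hr a' h2] at h
      have := e.injective (Subtype.ext h)
      exact congrArg Subtype.val this
    · intro b hb
      obtain ⟨b, rfl⟩ := (isC_iff b).1 hb
      rw [hit_iff, hit_iff]
      constructor
      · rintro ⟨a, ha, hab⟩
        simp only [eval_X] at hab
        subst hab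
        have h1 := (mem_Z hc.ne_zero a).2 ha
        refine ⟨(e.symm ⟨a, h1⟩ : K), ?_, ?_⟩
        · exact (mem_Z hd.ne_zero _).1 (e.symm ⟨a, h1⟩).2
        · rw [hG _ (e.symm ⟨a, h1⟩).2, hr _ (e.symm ⟨a, h1⟩).2]
          simp
      · rintro ⟨a, ha, hab⟩
        have h1 := (mem_Z hd.ne_zero a).2 ha
        rw [hG a h1, hr a h1] at hab
        refine ⟨b, ?_, by simp⟩
        rw [← hab]
        exact (mem_Z hc.ne_zero _).1 (e ⟨a, h1⟩).2

end Pool.Agent.H573R2.EqDeg
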