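import Pool.Agent.H573R2.Sys3

/-!
# The parity of the number of satisfying assignments

An existential system over the rational numbers which is solvable if and only if the number of the
satisfying assignments of a CNF is odd.
-/

set_option autoImplicit false
set_option linter.unusedSectionVars false

namespace Pool.Agent.H573R2.Par

open Finset Pool.Agent.H573R2.Places Pool.Agent.H573R2.Sys3

/-- The second certificate. -/
def Cert' (g c : ℚ) : Prop := ∃ d x y : ℚ, 1 + g * (c ^ 2 + d ^ 2) = x ^ 2 + y ^ 2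

section Gen

variable {V : Type} {R : Type} [CommRing R]

/-- The value of a literal. -/
def lr (v : V → R) (l : Bool × V) : R := if l.1 then v l.2 else 1 - v l.2

/-- The arithmetic value of a CNF. -/
def psi (v : V → R) (cl : List (List (Bool × V))) : R :=
  (cl.map (fun C => 1 - (C.map (fun l => 1 - lr v l)).prod)).prod

/-- The truth value of a CNF. -/
def tv (t : V → Bool) (cl : List (List (Bool × V))) : Bool :=
  cl.all (fun C => C.any (fun l => t l.2 == l.1))

theorem tv_iff (t : V → Bool) (cl : List (List (Bool × V))) :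
    tv t cl = true ↔ ∀ C ∈ cl, ∃ l ∈ C, t l.2 = l.1 := by
  simp [tv]

theorem lr_map {S : Type} [CommRing S] (f : R →+* S) (v : V → R) (l : Bool × V) :
    f (lr v l) = lr (fun a => f (v a)) l := by
  unfold lr
  split_ifs <;> simp

theorem psi_map {S : Type} [CommRing S] (f : R →+* S) (v : V → R)
    (cl : List (List (Bool × V))) : f (psi v cl) = psi (fun a => f (v a)) cl := by
  unfold psi
  rw [map_list_prod, List.map_map]
  congr 1
  apply List.map_congr_left
  intro C _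
  simp only [Function.comp]
  rw [map_sub, map_one, map_list_prod, List.map_map]
  congr 2
  apply List.map_congr_left
  intro l _
  simp only [Function.comp]
  rw [map_sub, map_one, lr_map]

theorem lr_bv (t : V → Bool) (l : Bool × V) : lr (fun a => bv R (t a)) l = bv R (t l.2 == l.1) := by
  unfold lr bv
  rcases l with ⟨s, a⟩
  cases s <;> cases h : t a <;> simp [h]

theorem clause_bv (t : V → Bool) (C : List (Bool × V)) :
    (C.map (fun l => 1 - lr (fun a => bv R (t a)) l)).prod =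
      1 - bv R (C.any (fun l => t l.2 == l.1)) := by
  induction C with
  | nil => simp [bv]
  | cons l C ih =>
    rw [List.map_cons, List.prod_cons, ih, lr_bv, List.any_cons]
    unfold bv
    cases (t l.2 == l.1) <;> cases (C.any (fun l => t l.2 == l.1)) <;> simp

theorem psi_bv (t : V → Bool) (cl : List (List (Bool × V))) :
    psi (fun a => bv R (t a)) cl = bv R (tv t cl) := by
  unfold psi tv
  induction cl with
  | nil => simp [bv]
  | cons C cl ih =>
    rw [List.map_cons, List.prod_cons, ih, clause_bv, List.all_cons]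
    unfold bv
    cases (C.any (fun l => t l.2 == l.1)) <;>
      cases (cl.all (fun C => C.any (fun l => t l.2 == l.1))) <;> simp

end Gen

section Local

variable {q : ℕ} [Fact q.Prime]

/-- Congruence to a truth value at a place. -/
def App (r : ℚ_[q]) (c : Bool) : Prop := ‖r - bv ℚ_[q] c‖ < 1

theorem norm_bv_le (c : Bool) : ‖bv ℚ_[q] c‖ ≤ 1 := by
  unfold bv; cases c <;> simp

theorem App.one_sub {r : ℚ_[q]} {c : Bool} (h : App r c) : App (1 - r) (!c) := by
  unfold App at h ⊢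
  have : (1 - r) - bv ℚ_[q] (!c) = -(r - bv ℚ_[q] c) := by
    unfold bv; cases c <;> simp
  rw [this, norm_neg]; exact h

theorem App.norm_le {r : ℚ_[q]} {c : Bool} (h : App r c) : ‖r‖ ≤ 1 := by
  have : r = (r - bv ℚ_[q] c) + bv ℚ_[q] c := by ring
  rw [this]
  exact (Padic.nonarchimedean _ _).trans (max_le h.le (norm_bv_le c))

theorem App.mul {r s : ℚ_[q]} {c d : Bool} (h : App r c) (h' : App s d) : App (r * s) (c && d) := by
  have hs := h'.norm_le
  unfold App at h h' ⊢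
  have : r * s - bv ℚ_[q] (c && d) = (r - bv ℚ_[q] c) * s + bv ℚ_[q] c * (s - bv ℚ_[q] d) := by
    unfold bv; cases c <;> cases d <;> simp <;> ring
  rw [this]
  refine (Padic.nonarchimedean _ _).trans_lt (max_lt ?_ ?_)
  · rw [norm_mul]
    calc ‖r - bv ℚ_[q] c‖ * ‖s‖ ≤ ‖r - bv ℚ_[q] c‖ * 1 :=
          mul_le_mul_of_nonneg_left hs (norm_nonneg _)
      _ < 1 := by rw [mul_one]; exact h
  · rw [norm_mul]
    calc ‖bv ℚ_[q] c‖ * ‖s - bv ℚ_[q] d‖ ≤ 1 * ‖s - bv ℚ_[q] d‖ :=
          mul_le_mul_of_nonneg_right (norm_bv_le c) (norm_nonneg _)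
      _ < 1 := by rw [one_mul]; exact h'

theorem App.lr {V : Type} {v : V → ℚ_[q]} {t : V → Bool} (h : ∀ a, App (v a) (t a))
    (l : Bool × V) : App (lr v l) (t l.2 == l.1) := by
  unfold Par.lr
  rcases hl : l.1 with _ | _
  · have := (h l.2).one_sub
    cases ht : t l.2
    · rw [ht] at this; simpa using this
    · rw [ht] at this; simpa using this
  · have := h l.2
    cases ht : t l.2
    · rw [ht] at this; simpa using this
    · rw [ht] at this; simpa using this

theorem App.clause {V : Type} {v : V → ℚ_[q]} {t : V → Bool} (h : ∀ a, App (v a) (t a))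
    (C : List (Bool × V)) :
    App ((C.map (fun l => 1 - Par.lr v l)).prod) (!(C.any (fun l => t l.2 == l.1))) := by
  induction C with
  | nil => simp [App, bv]
  | cons l C ih =>
    rw [List.map_cons, List.prod_cons, List.any_cons, Bool.not_or]
    exact (App.lr h l).one_sub.mul ih

theorem App.psi {V : Type} {v : V → ℚ_[q]} {t : V → Bool} (h : ∀ a, App (v a) (t a))
    (cl : List (List (Bool × V))) : App (Par.psi v cl) (tv t cl) := by
  unfold Par.psi tv
  induction cl with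
  | nil => simp [App, bv]
  | cons C cl ih =>
    rw [List.map_cons, List.prod_cons, List.all_cons]
    have := (App.clause h C).one_sub
    rw [Bool.not_not] at this
    exact this.mul ih

theorem App.not_both {r : ℚ_[q]} (h : App r true) (h' : App r false) : False := by
  unfold App bv at h h'
  simp only [if_true, Bool.false_eq_true, if_false, sub_zero] at h h'
  have h1 : ‖(1 : ℚ_[q])‖ < 1 := by
    have : (1 : ℚ_[q]) = r + -(r - 1) := by ring
    rw [this]
    refine (Padic.nonarchimedean _ _).trans_lt (max_lt h' ?_)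
    rw [norm_neg]; exact h
  rw [norm_one] at h1
  exact lt_irrefl _ h1

end Local

section Places

variable {ζ ι : Type} [Fintype ι] [DecidableEq ι] {m : ι → ℕ} {b : ℕ}

/-- The values of the bits at a place. -/
theorem E_local (h : Adm m b) {X : ℚ} {w B E : ι → ℚ} (hX : X = (b : ℚ) ^ (∏ i, m i))
    (hw : ∀ i, w i ^ m i = X) (hB : ∀ i, B i * (w i + 1) = X + 1)
    (hE : ∀ i, Cert (X + 1) (2 * (m i * E i - B i))) {q : ℕ} [Fact q.Prime] (hq4 : q % 4 = 3)
    (hd : q ∣ G m b univ) (hodd : Odd ((G m b univ).factorization q)) (a : ι) :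
    App ((E a : ℚ) : ℚ_[q]) (decide (a ∉ supp m b q)) := by
  have hqp : q.Prime := Fact.out
  have hXG : X + 1 = ((G m b univ : ℕ) : ℚ) := by
    rw [hX]; unfold G; push_cast; ring
  rw [hXG] at hE
  have hG0 : G m b univ ≠ 0 := Nat.succ_ne_zero _
  have hsupp : q ∣ G m b (univ.erase a) ↔ a ∉ supp m b q := by simp [supp]
  have hwa := root_unique h hX a (hw a)
  have hBa := hB a
  have hEa := cert_two hq4 hG0 hodd (hE a)
  unfold App
  by_cases hA : q ∣ G m b (univ.erase a)
  · have hdec : decide (a ∉ supp m b q) = true := by simpa using hsupp.1 hA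
    rw [hdec]
    have hBq : ‖((m a - B a : ℚ) : ℚ_[q])‖ < 1 := by
      set W : ℤ := ((b ^ (∏ j ∈ univ.erase a, m j) : ℕ) : ℤ) with hW
      have hwW : w a = (W : ℚ) := by rw [hwa, hW]; push_cast; rfl
      have hW1 : (W + 1 : ℤ) = ((G m b (univ.erase a) : ℕ) : ℤ) := by
        rw [hW]; unfold G; push_cast; rfl
      have hW0 : (W : ℚ) + 1 ≠ 0 := by
        have h5 : (W + 1 : ℤ) ≠ 0 := by
          rw [hW1]
          have h51 : G m b (univ.erase a) ≠ 0 := Nat.succ_ne_zero _
          exact_mod_cast h51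
        exact_mod_cast h5
      have hBs : B a = ((∑ k ∈ range (m a), (-W) ^ k : ℤ) : ℚ) := by
        have h6 := mul_geom_sum (-W) (m a)
        have h7 : (-(W : ℚ) - 1) * ((∑ k ∈ range (m a), (-W) ^ k : ℤ) : ℚ) =
            (-(W : ℚ)) ^ m a - 1 := by exact_mod_cast h6
        rw [(h.odd a).neg_pow, ← hwW, hw a, hwW] at h7
        rw [hwW] at hBa
        have h8 : B a * ((W : ℚ) + 1) =
            ((∑ k ∈ range (m a), (-W) ^ k : ℤ) : ℚ) * ((W : ℚ) + 1) := by
          rw [hBa]; linear_combination h7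
        exact mul_right_cancel₀ hW0 h8
      have h9 : (W + 1) ∣ ((m a : ℤ) - ∑ k ∈ range (m a), (-W) ^ k) := by
        have h10 : ((m a : ℤ) - ∑ k ∈ range (m a), (-W) ^ k) =
            ∑ k ∈ range (m a), (1 - (-W) ^ k) := by
          rw [Finset.sum_sub_distrib]; simp
        rw [h10]
        apply Finset.dvd_sum
        intro k _
        have := sub_dvd_pow_sub_pow 1 (-W) k
        rw [one_pow] at this
        have h11 : (1 : ℤ) - -W = W + 1 := by ring
        rwa [h11] at this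
      have h12 : (q : ℤ) ∣ ((m a : ℤ) - ∑ k ∈ range (m a), (-W) ^ k) := by
        refine dvd_trans ?_ h9
        rw [hW1]; exact_mod_cast hA
      have h13 := norm_lt_of_dvd (q := q) h12
      rw [hBs]
      push_cast at h13 ⊢
      exact h13
    have h14 : ‖((m a : ℚ_[q])) * (((E a : ℚ) : ℚ_[q]) - bv ℚ_[q] true)‖ < 1 := by
      have h15 : ((m a : ℚ_[q])) * (((E a : ℚ) : ℚ_[q]) - bv ℚ_[q] true) =
          -((m a - B a : ℚ) : ℚ_[q]) + ((m a * E a - B a : ℚ) : ℚ_[q]) := by
        unfold bv; push_cast; simp only [if_true]; ring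
      rw [h15]
      refine (Padic.nonarchimedean _ _).trans_lt (max_lt ?_ hEa)
      rw [norm_neg]; exact hBq
    rwa [norm_mul, norm_nat_eq_one (h.not_dvd_m hqp hd a), one_mul] at h14
  · have hdec : decide (a ∉ supp m b q) = false := by
      rw [decide_eq_false_iff_not]
      intro h1
      exact hA (hsupp.2 h1)
    rw [hdec]
    have hBq : ‖((B a : ℚ) : ℚ_[q])‖ < 1 := by
      have h6 : w a + 1 = ((G m b (univ.erase a) : ℕ) : ℚ) := by
        rw [hwa]; unfold G; push_cast; ring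
      rw [h6, hXG] at hBa
      have h7 : ‖((B a : ℚ) : ℚ_[q])‖ * ‖(((G m b (univ.erase a) : ℕ) : ℚ) : ℚ_[q])‖ =
          ‖(((G m b univ : ℕ) : ℚ) : ℚ_[q])‖ := by
        rw [← norm_mul, ← Rat.cast_mul, hBa]
      rw [Rat.cast_natCast, Rat.cast_natCast, norm_nat_eq_one hA, mul_one] at h7
      rw [h7]
      have := norm_lt_of_dvd (q := q) (n := ((G m b univ : ℕ) : ℤ)) (by exact_mod_cast hd)
      simpa using this
    have h14 : ‖((m a : ℚ_[q])) * (((E a : ℚ) : ℚ_[q]) - bv ℚ_[q] false)‖ < 1 := by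
      have h15 : ((m a : ℚ_[q])) * (((E a : ℚ) : ℚ_[q]) - bv ℚ_[q] false) =
          ((B a : ℚ) : ℚ_[q]) + ((m a * E a - B a : ℚ) : ℚ_[q]) := by
        unfold bv; push_cast; simp
      rw [h15]
      exact (Padic.nonarchimedean _ _).trans_lt (max_lt hBq hEa)
    rwa [norm_mul, norm_nat_eq_one (h.not_dvd_m hqp hd a), one_mul] at h14

theorem norm_rat {q : ℕ} [Fact q.Prime] {e : ℚ} (he : e ≠ 0) :
    ‖((e : ℚ) : ℚ_[q])‖ = (q : ℝ) ^ (-(padicValRat q e)) := by
  rw [Padic.norm_eq_zpow_neg_valuation (by exact_mod_cast he), Padic.valuation_ratCast]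

theorem cert_both {q : ℕ} [Fact q.Prime] (hq : q % 4 = 3) {e c : ℚ} (he : e ≠ 0)
    (hodd : Odd (padicValRat q e)) (h1 : Cert e c) (h2 : Cert' e c) : ‖(c : ℚ_[q])‖ < 1 := by
  obtain ⟨d, x, y, h1⟩ := h1
  obtain ⟨d', x', y', h2⟩ := h2
  have hM := norm_rat (q := q) he
  have h3 : (e : ℚ_[q]) + (c : ℚ_[q]) ^ 2 + (d : ℚ_[q]) ^ 2 =
      (e : ℚ_[q]) * ((x : ℚ_[q]) ^ 2 + (y : ℚ_[q]) ^ 2) := by exact_mod_cast h1
  have h4 := TwoSq.cert_sound hq (by rwa [odd_neg]) hM h3
  have he' : (e : ℚ_[q]) ≠ 0 := by exact_mod_cast he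
  have h2' : (1 : ℚ_[q]) + (e : ℚ_[q]) * ((c : ℚ_[q]) ^ 2 + (d' : ℚ_[q]) ^ 2) =
      (x' : ℚ_[q]) ^ 2 + (y' : ℚ_[q]) ^ 2 := by exact_mod_cast h2
  have h5 : ((e : ℚ_[q]))⁻¹ + (c : ℚ_[q]) ^ 2 + (d' : ℚ_[q]) ^ 2 =
      ((e : ℚ_[q]))⁻¹ * ((x' : ℚ_[q]) ^ 2 + (y' : ℚ_[q]) ^ 2) := by
    rw [← h2']; field_simp; ring
  have hM' : ‖((e : ℚ_[q]))⁻¹‖ = (q : ℝ) ^ (padicValRat q e) := by
    rw [norm_inv, hM, zpow_neg, inv_inv]
  have h6 := TwoSq.cert_sound hq hodd hM' h5
  by_contra h7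
  push Not at h7
  have h8 : (1 : ℝ) ≤ ‖(c : ℚ_[q])‖ ^ 2 := one_le_pow₀ h7
  have h9 : 1 < ‖(e : ℚ_[q])‖ := by linarith
  have h10 : 1 < ‖((e : ℚ_[q]))⁻¹‖ := by linarith
  rw [norm_inv] at h10
  have h11 : ‖(e : ℚ_[q])‖ * ‖(e : ℚ_[q])‖⁻¹ = 1 := mul_inv_cancel₀ (by positivity)
  nlinarith

theorem cert_both_two {q : ℕ} [Fact q.Prime] (hq : q % 4 = 3) {e c : ℚ} (he : e ≠ 0)
    (hodd : Odd (padicValRat q e)) (h1 : Cert e (2 * c)) (h2 : Cert' e (2 * c)) :
    ‖(c : ℚ_[q])‖ < 1 := by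
  have h3 := cert_both hq he hodd h1 h2
  rw [Rat.cast_mul, norm_mul] at h3
  have h4 : ‖((2 : ℚ) : ℚ_[q])‖ = 1 := by
    rw [Rat.cast_ofNat]; exact norm_two hq
  rwa [h4, one_mul] at h3

/-- The value at the subset `S`. -/
def sat (z : ζ → Bool) (cl : List (List (Bool × (ζ ⊕ ι)))) (S : Finset ι) : Bool :=
  tv (Sum.elim z (fun i => decide (i ∉ S))) cl

/-- The local statement. -/
theorem local_parity (h : Adm m b) {X : ℚ} {w B E : ι → ℚ} (hX : X = (b : ℚ) ^ (∏ i, m i))
    (hw : ∀ i, w i ^ m i = X) (hB : ∀ i, B i * (w i + 1) = X + 1)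
    (hE : ∀ i, Cert (X + 1) (2 * (m i * E i - B i))) {z : ζ → ℚ}
    (zb : ζ → Bool) (hzb : ∀ i, z i = bv ℚ (zb i))
    (cl : List (List (Bool × (ζ ⊕ ι)))) {e f : ℚ} (hef : e * f = X + 1)
    (h1 : Cert e (2 * (1 - psi (Sum.elim z E) cl))) (h2 : Cert' e (2 * (1 - psi (Sum.elim z E) cl)))
    (h3 : Cert f (2 * psi (Sum.elim z E) cl)) (h4 : Cert' f (2 * psi (Sum.elim z E) cl))
    {q : ℕ} [Fact q.Prime] (hq4 : q % 4 = 3) :
    Odd (padicValRat q e) ↔
      (Odd ((G m b univ).factorization q) ∧ sat zb cl (supp m b q) = true) := by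
  have hqp : q.Prime := Fact.out
  have hXG : X + 1 = ((G m b univ : ℕ) : ℚ) := by
    rw [hX]; unfold G; push_cast; ring
  have hG0 : G m b univ ≠ 0 := Nat.succ_ne_zero _
  have hGQ : ((G m b univ : ℕ) : ℚ) ≠ 0 := by exact_mod_cast hG0
  have he : e ≠ 0 := by rintro rfl; rw [zero_mul, hXG] at hef; exact hGQ hef.symm
  have hf : f ≠ 0 := by rintro rfl; rw [mul_zero, hXG] at hef; exact hGQ hef.symm
  have hv : padicValRat q e + padicValRat q f = ((G m b univ).factorization q : ℤ) := by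
    rw [← padicValRat.mul he hf, hef, hXG, padicValRat.of_nat, Nat.factorization_def _ hqp]
  set Ψ := psi (Sum.elim z E) cl with hΨ
  have hve : Odd (padicValRat q e) → App ((Ψ : ℚ) : ℚ_[q]) true := by
    intro ho
    have h5 := cert_both_two hq4 he ho h1 h2
    unfold App bv
    rw [← norm_neg]
    simpa using h5
  have hvf : Odd (padicValRat q f) → App ((Ψ : ℚ) : ℚ_[q]) false := by
    intro ho
    have h5 := cert_both_two hq4 hf ho h3 h4
    unfold App bv
    simpa using h5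
  have hnot : ¬ (Odd (padicValRat q e) ∧ Odd (padicValRat q f)) := by
    rintro ⟨h5, h6⟩
    exact App.not_both (hve h5) (hvf h6)
  constructor
  · intro ho
    have hfe : Even (padicValRat q f) := by
      rw [← Int.not_odd_iff_even]; exact fun h6 => hnot ⟨ho, h6⟩
    have hGo : Odd ((G m b univ).factorization q) := by
      have : Odd (((G m b univ).factorization q : ℕ) : ℤ) := by
        rw [← hv]; exact ho.add_even hfe
      exact_mod_cast this
    refine ⟨hGo, ?_⟩
    have hd : q ∣ G m b univ := by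
      by_contra hnd
      rw [Nat.factorization_eq_zero_of_not_dvd hnd] at hGo
      exact absurd hGo (by decide)
    have hloc : ∀ a : ζ ⊕ ι, App (((Sum.elim z E) a : ℚ) : ℚ_[q])
        ((Sum.elim zb (fun i => decide (i ∉ supp m b q))) a) := by
      rintro (a | a)
      · simp only [Sum.elim_inl]
        rw [hzb a]
        unfold App bv
        cases zb a <;> simp
      · simp only [Sum.elim_inr]
        exact E_local h hX hw hB hE hq4 hd hGo a
    have h7 := App.psi hloc cl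
    have h8 : ((Ψ : ℚ) : ℚ_[q]) = psi (fun a => (((Sum.elim z E) a : ℚ) : ℚ_[q])) cl :=
      psi_map (Rat.castHom ℚ_[q]) _ cl
    rw [← h8] at h7
    unfold sat
    by_contra hs
    rw [Bool.not_eq_true] at hs
    rw [hs] at h7
    exact App.not_both (hve ho) h7
  · rintro ⟨hGo, hs⟩
    have hd : q ∣ G m b univ := by
      by_contra hnd
      rw [Nat.factorization_eq_zero_of_not_dvd hnd] at hGo
      exact absurd hGo (by decide)
    have hloc : ∀ a : ζ ⊕ ι, App (((Sum.elim z E) a : ℚ) : ℚ_[q])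
        ((Sum.elim zb (fun i => decide (i ∉ supp m b q))) a) := by
      rintro (a | a)
      · simp only [Sum.elim_inl]
        rw [hzb a]
        unfold App bv
        cases zb a <;> simp
      · simp only [Sum.elim_inr]
        exact E_local h hX hw hB hE hq4 hd hGo a
    have h7 := App.psi hloc cl
    have h8 : ((Ψ : ℚ) : ℚ_[q]) = psi (fun a => (((Sum.elim z E) a : ℚ) : ℚ_[q])) cl :=
      psi_map (Rat.castHom ℚ_[q]) _ cl
    rw [← h8] at h7
    unfold sat at hs
    rw [hs] at h7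
    have hfe : Even (padicValRat q f) := by
      rw [← Int.not_odd_iff_even]
      exact fun h6 => App.not_both h7 (hvf h6)
    have : Odd (padicValRat q e + padicValRat q f) := by
      rw [hv]; exact_mod_cast hGo
    by_contra h9
    rw [Int.not_odd_iff_even] at h9
    exact (Int.not_odd_iff_even.2 (h9.add hfe)) this

end Places

section TwoAdic

theorem mod8 : ∀ K D X Y : ZMod 8, 3 * (K ^ 2 + D ^ 2) = X ^ 2 + Y ^ 2 →
    4 * K = 0 ∧ 4 * D = 0 ∧ 4 * X = 0 ∧ 4 * Y = 0 := by decide +kernel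

theorem even_of (K : ℤ) (h : (4 : ZMod 8) * (K : ZMod 8) = 0) : ∃ K', K = 2 * K' := by
  have h1 : ((4 * K : ℤ) : ZMod 8) = 0 := by push_cast; exact h
  obtain ⟨c, hc⟩ := (ZMod.intCast_zmod_eq_zero_iff_dvd (4 * K) 8).1 h1
  exact ⟨c, by push_cast at hc; omega⟩

theorem two_adic : ∀ (a : ℕ) (t K D X Y : ℤ), t ^ 2 + 3 * (K ^ 2 + D ^ 2) = X ^ 2 + Y ^ 2 →
    (2 : ℤ) ^ a ∣ t → (2 : ℤ) ^ a ∣ 2 * K := by
  intro a
  induction a with
  | zero => intro t K D X Y _ _; simp
  | succ a ih =>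
    intro t K D X Y h ht
    rcases Nat.eq_zero_or_pos a with h0 | hpos
    · subst h0; simp
    · have h4 : (4 : ℤ) ∣ t := by
        refine dvd_trans ?_ ht
        obtain ⟨k, rfl⟩ := Nat.exists_eq_add_of_le hpos
        exact ⟨2 ^ k, by ring⟩
      obtain ⟨t', rfl⟩ := h4
      have h8 : (3 : ZMod 8) * ((K : ZMod 8) ^ 2 + (D : ZMod 8) ^ 2) =
          (X : ZMod 8) ^ 2 + (Y : ZMod 8) ^ 2 := by
        have h5 : (((4 * t') ^ 2 + 3 * (K ^ 2 + D ^ 2) : ℤ) : ZMod 8) =
            ((X ^ 2 + Y ^ 2 : ℤ) : ZMod 8) := by rw [h]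
        push_cast at h5
        rw [← h5]
        have h6 : (16 : ZMod 8) = 0 := by decide
        linear_combination -(t' : ZMod 8) ^ 2 * h6
      obtain ⟨hK, hD, hX, hY⟩ := mod8 _ _ _ _ h8
      obtain ⟨K', rfl⟩ := even_of K hK
      obtain ⟨D', rfl⟩ := even_of D hD
      obtain ⟨X', rfl⟩ := even_of X hX
      obtain ⟨Y', rfl⟩ := even_of Y hY
      have h9 : (2 * t') ^ 2 + 3 * (K' ^ 2 + D' ^ 2) = X' ^ 2 + Y' ^ 2 := by linarith
      have h10 : (2 : ℤ) ^ a ∣ 2 * t' := by
        obtain ⟨c, hc⟩ := ht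
        refine ⟨c, ?_⟩
        have : (2 : ℤ) * (2 * t') = 2 * (2 ^ a * c) := by rw [pow_succ] at hc; linarith
        exact mul_left_cancel₀ (by norm_num) this
      obtain ⟨c, hc⟩ := ih (2 * t') K' D' X' Y' h9 h10
      exact ⟨c, by rw [hc, pow_succ]; ring⟩

/-- The certificate at the prime `2`. -/
theorem cert_three {k : ℚ} (h : Cert' 3 k) : ∃ t j : ℤ, Odd t ∧ 2 * (t : ℚ) * k = j := by
  obtain ⟨d, x, y, h⟩ := h
  -- a common denominator
  set T : ℕ := k.den * d.den * x.den * y.den with hT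
  have hT0 : T ≠ 0 := by positivity
  have hk : ∃ K : ℤ, (T : ℚ) * k = K := by
    refine ⟨k.num * (d.den * x.den * y.den : ℕ), ?_⟩
    have := Rat.mul_den_eq_num k
    rw [hT]; push_cast
    rw [← this]; ring
  have hd : ∃ K : ℤ, (T : ℚ) * d = K := by
    refine ⟨d.num * (k.den * x.den * y.den : ℕ), ?_⟩
    have := Rat.mul_den_eq_num d
    rw [hT]; push_cast
    rw [← this]; ring
  have hx : ∃ K : ℤ, (T : ℚ) * x = K := by
    refine ⟨x.num * (k.den * d.den * y.den : ℕ), ?_⟩
    have := Rat.mul_den_eq_num x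
    rw [hT]; push_cast
    rw [← this]; ring
  have hy : ∃ K : ℤ, (T : ℚ) * y = K := by
    refine ⟨y.num * (k.den * d.den * x.den : ℕ), ?_⟩
    have := Rat.mul_den_eq_num y
    rw [hT]; push_cast
    rw [← this]; ring
  obtain ⟨K, hK⟩ := hk
  obtain ⟨D, hD⟩ := hd
  obtain ⟨X, hX⟩ := hx
  obtain ⟨Y, hY⟩ := hy
  obtain ⟨a, t, ht2, hTt⟩ := Nat.exists_eq_two_pow_mul_odd hT0
  have hmain : ((T : ℤ)) ^ 2 + 3 * (K ^ 2 + D ^ 2) = X ^ 2 + Y ^ 2 := by
    have : ((T : ℚ)) ^ 2 + 3 * ((K : ℚ) ^ 2 + (D : ℚ) ^ 2) = (X : ℚ) ^ 2 + (Y : ℚ) ^ 2 := by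
      rw [← hK, ← hD, ← hX, ← hY]
      linear_combination (T : ℚ) ^ 2 * h
    exact_mod_cast this
  have hdvd : (2 : ℤ) ^ a ∣ (T : ℤ) := by
    rw [hTt]; push_cast; exact dvd_mul_right _ _
  obtain ⟨j, hj⟩ := two_adic a _ K D X Y hmain hdvd
  refine ⟨t, j, by exact_mod_cast ht2, ?_⟩
  have h2a : (2 : ℚ) ^ a ≠ 0 := by positivity
  have h5 : (2 : ℚ) * K = 2 ^ a * j := by exact_mod_cast hj
  have h6 : (T : ℚ) = 2 ^ a * t := by rw [hTt]; push_cast; ring
  have h7 : (2 : ℚ) ^ a * (2 * t * k) = 2 ^ a * j := by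
    rw [← h5, ← hK, h6]; ring
  push_cast
  exact mul_left_cancel₀ h2a h7

theorem dvd_of_cert {e : ℚ} (s : ℤ) (h : Cert' 3 ((e + s) / 8)) :
    (4 : ℤ) ∣ e.num + s * e.den := by
  obtain ⟨t, j, ht, hj⟩ := cert_three h
  have hden : (e.den : ℚ) ≠ 0 := by exact_mod_cast e.den_ne_zero
  have h1 : (t : ℚ) * (e.num + s * e.den) = 4 * (j * e.den) := by
    have h2 := Rat.mul_den_eq_num e
    have h3 : (t : ℚ) * (e + s) = 4 * j := by linarith
    rw [← h2]
    linear_combination (e.den : ℚ) * h3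
  have h4 : t * (e.num + s * e.den) = 4 * (j * e.den) := by exact_mod_cast h1
  have hcop : IsCoprime (4 : ℤ) t := by
    have : IsCoprime (2 : ℤ) t := by
      rw [Int.isCoprime_iff_gcd_eq_one]
      rcases ht with ⟨r, rfl⟩
      rw [Int.gcd_comm]
      have : (2 * r + 1 : ℤ) = 1 + 2 * r := by ring
      rw [this, Int.gcd_add_mul_left_left]
      simp
    have h5 : (4 : ℤ) = 2 ^ 2 := by norm_num
    rw [h5]
    exact this.pow_left
  exact hcop.dvd_of_dvd_mul_left ⟨_, h4⟩

end TwoAdic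

end Pool.Agent.H573R2.Par
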