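import Pool.Agent.H573R2.Par

/-!
# The parity of the number of satisfying assignments: the equivalence
-/

set_option autoImplicit false
set_option linter.unusedSectionVars false

namespace Pool.Agent.H573R2.Par

open Finset Pool.Agent.H573R2.Places Pool.Agent.H573R2.Sys3

section Global

variable {ζ ι : Type} [Fintype ι] [DecidableEq ι] {m : ι → ℕ} {b : ℕ}

theorem chi_prod (n : ℕ) (hn : n ≠ 0) : ZMod.χ₄ ((n : ℕ) : ZMod 4) =
    ∏ q ∈ n.primeFactors, ZMod.χ₄ ((q : ℕ) : ZMod 4) ^ n.factorization q := by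
  conv_lhs => rw [← Nat.prod_factorization_pow_eq_self hn,
    Nat.prod_factorization_eq_prod_primeFactors]
  push_cast
  rw [map_prod]
  apply prod_congr rfl
  intro q _
  rw [map_pow]

theorem chi_P_prod (S : Finset ι) : ZMod.χ₄ ((P m b S : ℕ) : ZMod 4) =
    ∏ q ∈ (G m b univ).primeFactors with supp m b q = S,
      ZMod.χ₄ ((q : ℕ) : ZMod 4) ^ (G m b univ).factorization q := by
  unfold P
  push_cast
  rw [map_prod]
  apply prod_congr rfl
  intro q _
  rw [map_pow]

theorem global_parity (h : Adm m b) (st : Finset ι → Bool) (N : ℕ) (hN : Odd N)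
    (hloc : ∀ q : ℕ, q.Prime → q % 4 = 3 → (Odd (N.factorization q) ↔
      (Odd ((G m b univ).factorization q) ∧ st (supp m b q) = true))) :
    ZMod.χ₄ ((N : ℕ) : ZMod 4) = (-1) ^ (univ.filter (fun S => st S = true)).card := by
  have hN0 : N ≠ 0 := hN.pos.ne'
  have hG0 : G m b univ ≠ 0 := Nat.succ_ne_zero _
  set U := N.primeFactors ∪ (G m b univ).primeFactors with hU
  have h1 : ZMod.χ₄ ((N : ℕ) : ZMod 4) =
      ∏ q ∈ U, ZMod.χ₄ ((q : ℕ) : ZMod 4) ^ N.factorization q := by
    rw [chi_prod N hN0]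
    apply prod_subset subset_union_left
    intro q _ hq
    have : N.factorization q = 0 := by
      rw [← Nat.support_factorization] at hq
      exact Finsupp.notMem_support_iff.1 hq
    rw [this, pow_zero]
  have h2 : ∏ q ∈ U, (if st (supp m b q) = true then
      ZMod.χ₄ ((q : ℕ) : ZMod 4) ^ (G m b univ).factorization q else 1) =
      (-1) ^ (univ.filter (fun S => st S = true)).card := by
    have h3 : ∏ q ∈ U, (if st (supp m b q) = true then
        ZMod.χ₄ ((q : ℕ) : ZMod 4) ^ (G m b univ).factorization q else 1) =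
        ∏ q ∈ (G m b univ).primeFactors, (if st (supp m b q) = true then
        ZMod.χ₄ ((q : ℕ) : ZMod 4) ^ (G m b univ).factorization q else 1) := by
      symm
      apply prod_subset subset_union_right
      intro q _ hq
      have : (G m b univ).factorization q = 0 := by
        rw [← Nat.support_factorization] at hq
        exact Finsupp.notMem_support_iff.1 hq
      rw [this, pow_zero, ite_self]
    rw [h3, ← prod_filter]
    have h4 : ∀ q ∈ (G m b univ).primeFactors.filter (fun q => st (supp m b q) = true),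
        supp m b q ∈ univ.filter (fun S => st S = true) := by
      intro q hq
      simp only [mem_filter, mem_univ, true_and] at hq ⊢
      exact hq.2
    rw [← prod_fiberwise_of_maps_to h4]
    rw [prod_congr rfl (g := fun _ => (-1 : ℤ)), prod_const]
    intro S hS
    simp only [mem_filter, mem_univ, true_and] at hS
    rw [← h.chi_P S, chi_P_prod]
    apply prod_congr _ (fun _ _ => rfl)
    ext q
    simp only [mem_filter]
    constructor
    · rintro ⟨⟨h5, _⟩, h6⟩; exact ⟨h5, h6⟩
    · rintro ⟨h5, h6⟩; exact ⟨⟨h5, by rw [h6]; exact hS⟩, h6⟩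
  rw [h1, ← h2]
  apply prod_congr rfl
  intro q hq
  have hqp : q.Prime := by
    rw [hU, mem_union] at hq
    rcases hq with h5 | h5 <;> exact Nat.prime_of_mem_primeFactors h5
  have hqo : Odd q := by
    rw [hU, mem_union] at hq
    rcases hq with h5 | h5
    · have h6 := Nat.dvd_of_mem_primeFactors h5
      exact Odd.of_dvd_nat hN h6
    · have h6 := Nat.dvd_of_mem_primeFactors h5
      exact Odd.of_dvd_nat (h.G_odd univ) h6
  rcases Nat.odd_mod_four_iff.1 (Nat.odd_iff.1 hqo) with h4 | h4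
  · rw [ZMod.χ₄_nat_one_mod_four h4]; simp
  · rw [ZMod.χ₄_nat_three_mod_four h4]
    have h5 := hloc q hqp h4
    by_cases hs : st (supp m b q) = true
    · rw [if_pos hs]
      simp only [hs, and_true] at h5
      rcases Nat.even_or_odd (N.factorization q) with h6 | h6
      · have h7 : Even ((G m b univ).factorization q) := by
          rw [← Nat.not_odd_iff_even, ← h5, Nat.not_odd_iff_even]; exact h6
        rw [h6.neg_one_pow, h7.neg_one_pow]
      · rw [h6.neg_one_pow, (h5.1 h6).neg_one_pow]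
    · rw [if_neg hs]
      have h6 : ¬ Odd (N.factorization q) := fun ho => hs (h5.1 ho).2
      rw [(Nat.not_odd_iff_even.1 h6).neg_one_pow]

/-- The number of the satisfying assignments. -/
theorem card_sat (z : ζ → Bool) (cl : List (List (Bool × (ζ ⊕ ι)))) :
    (univ.filter (fun S : Finset ι => sat z cl S = true)).card =
      (univ.filter (fun x : ι → Bool => tv (Sum.elim z x) cl = true)).card := by
  refine Finset.card_bij' (fun S _ => fun i => decide (i ∉ S))
    (fun x _ => univ.filter (fun i => x i = false)) ?_ ?_ ?_ ?_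
  · intro S hS
    simp only [mem_filter, mem_univ, true_and] at hS ⊢
    exact hS
  · intro x hx
    simp only [mem_filter, mem_univ, true_and] at hx ⊢
    unfold sat
    have : (fun i => decide (i ∉ univ.filter (fun i => x i = false))) = x := by
      funext i
      simp only [mem_filter, mem_univ, true_and]
      cases x i <;> simp
    rw [this]; exact hx
  · intro S _
    ext i; simp
  · intro x _
    funext i
    simp only [mem_filter, mem_univ, true_and]
    cases x i <;> simp

/-- The system of equations: the sign `s` is `1` for an odd number and `-1` for an even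
number. -/
def SysP (m : ι → ℕ) (b : ℕ) (s : ℤ) (cl : List (List (Bool × (ζ ⊕ ι)))) (z : ζ → ℚ) (X : ℚ)
    (w B E : ι → ℚ) (e f : ℚ) : Prop :=
  (∀ i, z i * z i = z i) ∧ X = (b : ℚ) ^ (∏ i, m i) ∧ (∀ i, w i ^ m i = X) ∧
  (∀ i, B i * (w i + 1) = X + 1) ∧ (∀ i, Cert (X + 1) (2 * (m i * E i - B i))) ∧
  e * f = X + 1 ∧ 0 < e ∧
  Cert e (2 * (1 - psi (Sum.elim z E) cl)) ∧ Cert' e (2 * (1 - psi (Sum.elim z E) cl)) ∧
  Cert f (2 * psi (Sum.elim z E) cl) ∧ Cert' f (2 * psi (Sum.elim z E) cl) ∧
  Cert' 3 ((e + s) / 8)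

theorem soundP (h : Adm m b) {s : ℤ} (hs : s = 1 ∨ s = -1) (cl : List (List (Bool × (ζ ⊕ ι))))
    {z : ζ → ℚ} {X : ℚ} {w B E : ι → ℚ} {e f : ℚ} (hS : SysP m b s cl z X w B E e f) :
    ∃ z : ζ → Bool,
      (-1 : ℤ) ^ (univ.filter (fun x : ι → Bool => tv (Sum.elim z x) cl = true)).card = -s := by
  classical
  obtain ⟨hz, hX, hw, hB, hE, hef, hpos, h1, h2, h3, h4, h5⟩ := hS
  have hzb : ∀ i, z i = bv ℚ (decide (z i = 1)) := by
    intro i
    unfold bv
    by_cases h6 : z i = 1
    · simp [h6]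
    · have h7 : z i * (z i - 1) = 0 := by rw [mul_sub, hz i]; ring
      rcases mul_eq_zero.1 h7 with h8 | h8
      · simp [h8]
      · exact absurd (by linarith) h6
  refine ⟨fun i => decide (z i = 1), ?_⟩
  have he0 : e ≠ 0 := hpos.ne'
  have hnum : 0 < e.num := Rat.num_pos.2 hpos
  have hdvd := dvd_of_cert s h5
  set N : ℕ := e.num.natAbs * e.den with hN
  have hnumN : (e.num.natAbs : ℤ) = e.num := Int.natAbs_of_nonneg hnum.le
  -- parity
  have hodd : Odd (e.den : ℤ) ∧ Odd e.num := by
    have hcop : IsCoprime e.num (e.den : ℤ) := Rat.isCoprime_num_den e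
    have h2dvd : (2 : ℤ) ∣ e.num + s * e.den := (by norm_num : (2 : ℤ) ∣ 4).trans hdvd
    rcases Int.even_or_odd (e.den : ℤ) with h6 | h6
    · exfalso
      have h7 : (2 : ℤ) ∣ e.den := even_iff_two_dvd.1 h6
      have h8 : (2 : ℤ) ∣ e.num := (Int.dvd_iff_dvd_of_dvd_add
        (h2dvd)).2 (h7.mul_left s)
      have := hcop.isUnit_of_dvd' h8 h7
      rw [Int.isUnit_iff] at this
      omega
    · refine ⟨h6, ?_⟩
      rcases Int.even_or_odd e.num with h7 | h7
      · exfalso
        have h8 : (2 : ℤ) ∣ e.num := even_iff_two_dvd.1 h7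
        have h9 : (2 : ℤ) ∣ s * e.den := (Int.dvd_iff_dvd_of_dvd_add h2dvd).1 h8
        have h10 : (2 : ℤ) ∣ e.den := by
          rcases hs with rfl | rfl
          · simpa using h9
          · simpa using h9
        rw [Int.odd_iff] at h6
        omega
      · exact h7
  have hNodd : Odd N := by
    have : Odd ((N : ℕ) : ℤ) := by
      rw [hN]; push_cast; rw [← Int.natCast_natAbs, hnumN]; exact hodd.2.mul hodd.1
    exact_mod_cast this
  have hNmod : (N : ZMod 4) = -s := by
    have h6 : ((e.num + s * e.den : ℤ) : ZMod 4) = 0 :=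
      (ZMod.intCast_zmod_eq_zero_iff_dvd _ 4).2 hdvd
    have h7 : ((e.den : ℕ) : ZMod 4) * ((e.den : ℕ) : ZMod 4) = 1 := by
      have hdo : Odd e.den := by exact_mod_cast hodd.1
      obtain ⟨r, hr⟩ := hdo
      rw [hr]
      push_cast
      have h8 : ∀ r : ZMod 4, (2 * r + 1) * (2 * r + 1) = 1 := by decide
      exact h8 _
    have h9 : ((N : ℕ) : ZMod 4) = ((e.num : ℤ) : ZMod 4) * ((e.den : ℕ) : ZMod 4) := by
      have : ((N : ℕ) : ℤ) = e.num * e.den := by rw [hN]; push_cast; rw [← Int.natCast_natAbs, hnumN]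
      have h10 : (((N : ℕ) : ℤ) : ZMod 4) = ((e.num * e.den : ℤ) : ZMod 4) := by rw [this]
      push_cast at h10
      exact h10
    rw [h9]
    push_cast at h6
    linear_combination ((e.den : ℕ) : ZMod 4) * h6 - (s : ZMod 4) * h7
  have hglob := global_parity h (sat (fun i => decide (z i = 1)) cl) N hNodd (by
    intro q hqp hq4
    have hqf : Fact q.Prime := ⟨hqp⟩
    rw [← local_parity h hX hw hB hE _ hzb cl hef h1 h2 h3 h4 hq4]
    have h6 : ((N.factorization q : ℕ) : ℤ) =
        (padicValInt q e.num : ℤ) + (padicValNat q e.den : ℤ) := by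
      have h7 : e.num.natAbs ≠ 0 := by omega
      rw [hN, Nat.factorization_mul h7 e.den_ne_zero]
      rw [Finsupp.add_apply, Nat.factorization_def _ hqp, Nat.factorization_def _ hqp,
        Nat.cast_add]
      rfl
    have h8 : padicValRat q e = (padicValInt q e.num : ℤ) - (padicValNat q e.den : ℤ) := rfl
    rw [h8]
    have h9 : Odd (N.factorization q) ↔ Odd ((N.factorization q : ℕ) : ℤ) := by
      exact_mod_cast Iff.rfl
    rw [h9, h6, Int.odd_add, Int.odd_sub])
  rw [card_sat] at hglob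
  rw [← hglob]
  have h10 : ZMod.χ₄ ((N : ℕ) : ZMod 4) = ZMod.χ₄ ((-s : ℤ) : ZMod 4) := by
    rw [hNmod]; push_cast; rfl
  rw [h10]
  rcases hs with rfl | rfl
  · decide
  · decide

theorem P_dvd_G (h : Adm m b) {S T : Finset ι} (hST : S ⊆ T) : P m b S ∣ G m b T := by
  rw [← h.prod_P T]
  exact dvd_prod_of_mem _ (mem_powerset.2 hST)

theorem P_coprime_G {S : Finset ι} {i : ι} (hi : i ∈ S) :
    Nat.Coprime (P m b S) (G m b (univ.erase i)) := by
  unfold P
  apply Nat.Coprime.prod_left
  intro q hq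
  simp only [mem_filter, Nat.mem_primeFactors] at hq
  obtain ⟨⟨hqp, hd, -⟩, hs⟩ := hq
  apply Nat.Coprime.pow_left
  rw [Nat.Prime.coprime_iff_not_dvd hqp]
  rw [← hs] at hi
  simpa [supp] using hi

theorem P_coprime {S T : Finset ι} (hST : S ≠ T) :
    Nat.Coprime (P m b S) (P m b T) := by
  unfold P
  apply Nat.Coprime.prod_left
  intro q hq
  apply Nat.Coprime.prod_right
  intro q' hq'
  simp only [mem_filter, Nat.mem_primeFactors] at hq hq'
  apply Nat.Coprime.pow
  rw [Nat.coprime_primes hq.1.1 hq'.1.1]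
  rintro rfl
  exact hST (hq.2.symm.trans hq'.2)

theorem P_coprime_m (h : Adm m b) (S : Finset ι) (i : ι) : Nat.Coprime (m i) (P m b S) := by
  unfold P
  apply Nat.Coprime.prod_right
  intro q hq
  simp only [mem_filter, Nat.mem_primeFactors] at hq
  obtain ⟨⟨hqp, hd, -⟩, hs⟩ := hq
  apply Nat.Coprime.pow_right
  rw [Nat.coprime_comm, Nat.Prime.coprime_iff_not_dvd hqp]
  exact h.not_dvd_m hqp hd i

theorem P_mod (h : Adm m b) (h16 : b % 16 = 14) (h5 : ∀ i, 5 ≤ m i) (S : Finset ι) :
    ((P m b S : ℕ) : ZMod 16) = -1 := by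
  have hb : (b : ZMod 16) = -2 := by
    have : ((b : ℕ) : ZMod 16) = ((14 : ℕ) : ZMod 16) := by
      rw [ZMod.natCast_eq_natCast_iff]
      exact h16
    rw [this]; decide
  have hG : ∀ S : Finset ι, ((G m b S : ℕ) : ZMod 16) = if S = ∅ then -1 else 1 := by
    intro S
    unfold G
    push_cast
    rw [hb]
    split_ifs with hS
    · subst hS
      rw [prod_empty, pow_one]; decide
    · obtain ⟨i, hi⟩ := Finset.nonempty_iff_ne_empty.2 hS
      have h3 : 5 ≤ ∏ i ∈ S, m i := by
        have h4 : m i ∣ ∏ i ∈ S, m i := dvd_prod_of_mem m hi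
        have := Nat.le_of_dvd (h.odd_prod S).pos h4
        have := h5 i
        omega
      obtain ⟨t, ht⟩ := Nat.exists_eq_add_of_le h3
      rw [ht, pow_add]
      have : (-2 : ZMod 16) ^ 5 = 0 := by decide
      rw [this, zero_mul, zero_add]
  induction S using Finset.strongInduction with
  | H S ih =>
    have h1 : (((∏ T ∈ S.powerset, P m b T : ℕ)) : ZMod 16) = if S = ∅ then -1 else 1 := by
      rw [h.prod_P S, hG S]
    push_cast at h1
    rw [← prod_erase_mul _ _ (mem_powerset_self S)] at h1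
    have h2 : ∏ T ∈ S.powerset.erase S, ((P m b T : ℕ) : ZMod 16) =
        (-1) ^ (2 ^ S.card - 1) := by
      rw [prod_congr rfl (g := fun _ => (-1 : ZMod 16))]
      · rw [prod_const, card_erase_of_mem (mem_powerset_self S), card_powerset]
      · intro T hT
        apply ih
        rw [mem_erase, mem_powerset] at hT
        exact Finset.ssubset_iff_subset_ne.2 ⟨hT.2, hT.1⟩
    rw [h2] at h1
    by_cases hS : S = ∅
    · subst hS
      simpa using h1
    · rw [if_neg hS] at h1
      have hc : 1 ≤ S.card := Finset.card_pos.2 (Finset.nonempty_iff_ne_empty.2 hS)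
      have hodd : Odd (2 ^ S.card - 1) := by
        obtain ⟨t, ht⟩ := Nat.exists_eq_add_of_le hc
        rw [ht, pow_add]
        have : 0 < 2 ^ t := by positivity
        exact ⟨2 ^ t - 1, by omega⟩
      rw [hodd.neg_one_pow] at h1
      linear_combination -h1

theorem completeP (h : Adm m b) (h16 : b % 16 = 14) (h5 : ∀ i, 5 ≤ m i) {s : ℤ} (cl : List (List (Bool × (ζ ⊕ ι)))) (z : ζ → Bool)
    (hcard : (-1 : ℤ) ^ (univ.filter (fun x : ι → Bool => tv (Sum.elim z x) cl = true)).card = -s) :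
    ∃ (z : ζ → ℚ) (X : ℚ) (w B E : ι → ℚ) (e f : ℚ), SysP m b s cl z X w B E e f := by
  classical
  set g := G m b univ with hg
  have hgodd : Odd g := h.G_odd univ
  have hg0 : g ≠ 0 := Nat.succ_ne_zero _
  have : NeZero g := ⟨hg0⟩
  set W : ι → ℤ := fun i => ((b ^ (∏ j ∈ univ.erase i, m j) : ℕ) : ℤ) with hW
  set Bz : ι → ℤ := fun i => ∑ k ∈ range (m i), (-(W i)) ^ k with hBz
  have hWm : ∀ i, W i ^ m i = (b : ℤ) ^ (∏ i, m i) := by
    intro i
    simp only [hW]
    push_cast
    rw [← pow_mul, Finset.prod_erase_mul _ _ (mem_univ i)]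
  have hgz : (g : ℤ) = (b : ℤ) ^ (∏ i, m i) + 1 := by
    rw [hg]; unfold G; push_cast; rfl
  have hBW : ∀ i, Bz i * (W i + 1) = (g : ℤ) := by
    intro i
    have h6 := mul_geom_sum (-(W i)) (m i)
    rw [(h.odd i).neg_pow, hWm i] at h6
    rw [hgz]
    simp only [hBz]
    linear_combination -h6
  have hWG : ∀ i, W i + 1 = ((G m b (univ.erase i) : ℕ) : ℤ) := by
    intro i; simp only [hW]; unfold G; push_cast; rfl
  have hBm : ∀ i, (W i + 1) ∣ (Bz i - (m i : ℤ)) := by
    intro i
    have h10 : (Bz i - (m i : ℤ)) = ∑ k ∈ range (m i), ((-(W i)) ^ k - 1) := by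
      rw [Finset.sum_sub_distrib]; simp [hBz]
    rw [h10]
    apply Finset.dvd_sum
    intro k _
    have := sub_dvd_pow_sub_pow (-(W i)) 1 k
    rw [one_pow] at this
    have h11 : -(W i) - 1 = -(W i + 1) := by ring
    rw [h11] at this
    exact (neg_dvd).1 this
  have hcop : ∀ i, (m i).Coprime g := by
    intro i
    apply Nat.Coprime.symm
    apply Nat.Coprime.coprime_dvd_right (h.dvd i)
    rw [hg]; unfold G
    have : Nat.Coprime (b ^ (∏ i, m i) + 1) b := by
      have h1 : ∃ t, b ^ (∏ i, m i) = t * b := by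
        obtain ⟨t, ht⟩ := Nat.exists_eq_add_of_le (h.odd_prod univ).pos
        exact ⟨b ^ t, by rw [ht, pow_add]; ring⟩
      obtain ⟨t, ht⟩ := h1
      rw [ht, Nat.Coprime, Nat.gcd_comm, Nat.gcd_mul_right_add_right]
      exact Nat.gcd_one_right b
    exact this
  have hEex : ∀ i, ∃ E : ℤ, (g : ℤ) ∣ (m i * E - Bz i) := by
    intro i
    have h1 : (m i : ZMod g) * ((Bz i : ZMod g) * (m i : ZMod g)⁻¹) = Bz i := by
      have := ZMod.coe_mul_inv_eq_one (m i) (hcop i)
      linear_combination (Bz i : ZMod g) * this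
    refine ⟨(((Bz i : ZMod g) * (m i : ZMod g)⁻¹).val : ℤ), ?_⟩
    rw [← ZMod.intCast_zmod_eq_zero_iff_dvd]
    push_cast
    rw [ZMod.natCast_zmod_val, h1]
    ring
  choose Ei hEi using hEex
  -- values modulo the parts
  have hEP : ∀ (S : Finset ι) (i : ι), ((Ei i : ℤ) : ZMod (P m b S)) =
      bv (ZMod (P m b S)) (decide (i ∉ S)) := by
    intro S i
    have hPg : ((P m b S : ℕ) : ℤ) ∣ (m i * Ei i - Bz i) :=
      (by exact_mod_cast P_dvd_G h (subset_univ S) : ((P m b S : ℕ) : ℤ) ∣ (g : ℤ)).trans (hEi i)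
    have h1 : (m i : ZMod (P m b S)) * ((Ei i : ℤ) : ZMod (P m b S)) =
        ((Bz i : ℤ) : ZMod (P m b S)) := by
      have := (ZMod.intCast_zmod_eq_zero_iff_dvd _ (P m b S)).2 hPg
      push_cast at this
      linear_combination this
    have hinv := ZMod.coe_mul_inv_eq_one (m i) (P_coprime_m h S i)
    by_cases hi : i ∈ S
    · have hB0 : ((Bz i : ℤ) : ZMod (P m b S)) = 0 := by
        rw [ZMod.intCast_zmod_eq_zero_iff_dvd]
        have h2 : ((P m b S : ℕ) : ℤ) ∣ Bz i * (W i + 1) := by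
          rw [hBW i]; exact_mod_cast P_dvd_G h (subset_univ S)
        have h3 : IsCoprime ((P m b S : ℕ) : ℤ) (W i + 1) := by
          rw [hWG i]
          exact Nat.isCoprime_iff_coprime.2 (P_coprime_G hi)
        exact h3.dvd_of_dvd_mul_right h2
      have hd : decide (i ∉ S) = false := by simpa using hi
      rw [hd]
      simp only [bv, Bool.false_eq_true, if_false]
      linear_combination (m i : ZMod (P m b S))⁻¹ * h1 + (m i : ZMod (P m b S))⁻¹ * hB0 -
        ((Ei i : ℤ) : ZMod (P m b S)) * hinv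
    · have hBm' : ((Bz i : ℤ) : ZMod (P m b S)) = (m i : ZMod (P m b S)) := by
        have h2 : ((P m b S : ℕ) : ℤ) ∣ (Bz i - (m i : ℤ)) := by
          refine dvd_trans ?_ (hBm i)
          rw [hWG i]
          have : S ⊆ univ.erase i := by
            intro j hj
            simp only [mem_erase, mem_univ, and_true]
            rintro rfl; exact hi hj
          exact_mod_cast P_dvd_G h this
        have := (ZMod.intCast_zmod_eq_zero_iff_dvd _ (P m b S)).2 h2
        push_cast at this
        linear_combination this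
      have hd : decide (i ∉ S) = true := by simpa using hi
      rw [hd]
      simp only [bv, if_true]
      linear_combination (m i : ZMod (P m b S))⁻¹ * h1 + (m i : ZMod (P m b S))⁻¹ * hBm' +
        (1 - ((Ei i : ℤ) : ZMod (P m b S))) * hinv
  set zi : ζ → ℤ := fun i => if z i then 1 else 0 with hzi
  set Ψ : ℤ := psi (Sum.elim zi Ei) cl with hΨ
  have hΨP : ∀ S : Finset ι, ((Ψ : ℤ) : ZMod (P m b S)) = bv (ZMod (P m b S)) (sat z cl S) := by
    intro S
    have h1 : ((Ψ : ℤ) : ZMod (P m b S)) =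
        psi (fun a => (((Sum.elim zi Ei) a : ℤ) : ZMod (P m b S))) cl :=
      psi_map (Int.castRingHom (ZMod (P m b S))) _ cl
    rw [h1]
    have h2 : (fun a => (((Sum.elim zi Ei) a : ℤ) : ZMod (P m b S))) =
        (fun a => bv (ZMod (P m b S)) ((Sum.elim z (fun i => decide (i ∉ S))) a)) := by
      funext a
      rcases a with a | a
      · simp only [Sum.elim_inl, hzi, bv]
        by_cases hza : z a = true <;> simp [hza]
      · simp only [Sum.elim_inr]
        exact hEP S a
    rw [h2, psi_bv]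
    rfl
  -- the two factors
  set Tr := univ.filter (fun S : Finset ι => sat z cl S = true) with hTr
  set eN : ℕ := ∏ S ∈ Tr, P m b S with heN
  set fN : ℕ := ∏ S ∈ univ.filter (fun S : Finset ι => ¬ sat z cl S = true), P m b S with hfN
  have hefN : eN * fN = g := by
    rw [heN, hfN, hTr, prod_filter_mul_prod_filter_not, hg, ← h.prod_P univ, powerset_univ]
  have heodd : Odd eN := Odd.of_dvd_nat hgodd ⟨fN, hefN.symm⟩
  have hfodd : Odd fN := Odd.of_dvd_nat hgodd ⟨eN, by rw [mul_comm]; exact hefN.symm⟩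
  have hpair : ∀ T : Finset (Finset ι), (T : Set (Finset ι)).Pairwise
      (Function.onFun IsCoprime fun S => ((P m b S : ℕ) : ℤ)) := by
    intro T S _ S' _ hne
    exact Nat.isCoprime_iff_coprime.2 (P_coprime hne)
  have hedvd : (eN : ℤ) ∣ 1 - Ψ := by
    rw [heN]
    push_cast
    apply Finset.prod_dvd_of_coprime (hpair _)
    intro S hS
    rw [← ZMod.intCast_zmod_eq_zero_iff_dvd]
    push_cast
    rw [hΨP S]
    simp only [hTr, mem_filter, mem_univ, true_and] at hS
    rw [hS]; simp [bv]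
  have hfdvd : (fN : ℤ) ∣ Ψ := by
    rw [hfN]
    push_cast
    apply Finset.prod_dvd_of_coprime (hpair _)
    intro S hS
    rw [← ZMod.intCast_zmod_eq_zero_iff_dvd]
    rw [hΨP S]
    simp only [mem_filter, mem_univ, true_and, Bool.not_eq_true] at hS
    rw [hS]; simp [bv]
  have he16 : ((eN : ℕ) : ZMod 16) = ((-s : ℤ) : ZMod 16) := by
    rw [← hcard, ← card_sat, heN]
    push_cast
    rw [prod_congr rfl (fun S _ => P_mod h h16 h5 S), prod_const]
  have hes : ∃ j : ℤ, (eN : ℤ) + s = 16 * j := by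
    have h1 : (((eN : ℤ) + s : ℤ) : ZMod 16) = 0 := by
      push_cast
      rw [he16]; push_cast; ring
    obtain ⟨j, hj⟩ := (ZMod.intCast_zmod_eq_zero_iff_dvd _ 16).1 h1
    exact ⟨j, by exact_mod_cast hj⟩
  obtain ⟨j, hj⟩ := hes
  have hXg : ((b : ℚ) ^ (∏ i, m i)) + 1 = ((g : ℕ) : ℚ) := by exact_mod_cast hgz.symm
  have hΨQ : psi (Sum.elim (fun i => (zi i : ℚ)) (fun i => (Ei i : ℚ))) cl = ((Ψ : ℤ) : ℚ) := by
    have h1 : ((Ψ : ℤ) : ℚ) = psi (fun a => (((Sum.elim zi Ei) a : ℤ) : ℚ)) cl :=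
      psi_map (Int.castRingHom ℚ) _ cl
    rw [h1]
    congr 1
    funext a
    rcases a with a | a <;> simp
  refine ⟨fun i => zi i, (b : ℚ) ^ (∏ i, m i), fun i => W i, fun i => Bz i, fun i => Ei i,
    eN, fN, ?_, rfl, ?_, ?_, ?_, ?_, ?_, ?_, ?_, ?_, ?_, ?_⟩
  · intro i
    simp only [hzi]
    cases z i <;> simp
  · intro i
    change ((W i : ℤ) : ℚ) ^ m i = _
    exact_mod_cast hWm i
  · intro i
    rw [hXg]
    change ((Bz i : ℤ) : ℚ) * (((W i : ℤ) : ℚ) + 1) = _
    exact_mod_cast hBW i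
  · intro i
    rw [hXg]
    have h1 := cert_of_dvd g hgodd (m i * Ei i - Bz i)
      ((ZMod.intCast_zmod_eq_zero_iff_dvd _ g).2 (hEi i))
    push_cast at h1
    exact h1
  · rw [hXg]; exact_mod_cast hefN
  · exact_mod_cast heodd.pos
  · rw [hΨQ]
    have h1 := cert_of_dvd eN heodd (1 - Ψ) ((ZMod.intCast_zmod_eq_zero_iff_dvd _ eN).2 hedvd)
    push_cast at h1
    exact h1
  · rw [hΨQ]
    obtain ⟨d, x, y, h1⟩ := TwoSq.cert_complete eN heodd (2 * (1 - Ψ)) (even_two_mul _)
    refine ⟨d, x, y, ?_⟩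
    push_cast at h1
    exact h1
  · rw [hΨQ]
    exact cert_of_dvd fN hfodd Ψ ((ZMod.intCast_zmod_eq_zero_iff_dvd _ fN).2 hfdvd)
  · rw [hΨQ]
    obtain ⟨d, x, y, h1⟩ := TwoSq.cert_complete fN hfodd (2 * Ψ) (even_two_mul _)
    refine ⟨d, x, y, ?_⟩
    push_cast at h1
    exact h1
  · have h1 : ((eN : ℚ) + s) / 8 = ((2 * j : ℤ) : ℚ) := by
      have : ((eN : ℚ) + s) = 16 * j := by exact_mod_cast hj
      rw [this]; push_cast; ring
    rw [h1]
    obtain ⟨d, x, y, h1⟩ := TwoSq.cert_complete 3 (by decide) (2 * j) (even_two_mul _)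
    refine ⟨d, x, y, ?_⟩
    push_cast at h1 ⊢
    exact h1

/-- The number of the satisfying assignments is odd for some outer assignment if and only if the
system is solvable. -/
theorem odd_iff (h : Adm m b) (h16 : b % 16 = 14) (h5 : ∀ i, 5 ≤ m i)
    (cl : List (List (Bool × (ζ ⊕ ι)))) :
    (∃ z : ζ → Bool, Odd (univ.filter (fun x : ι → Bool =>
      ∀ C ∈ cl, ∃ l ∈ C, Sum.elim z x l.2 = l.1)).card) ↔
    ∃ (z : ζ → ℚ) (X : ℚ) (w B E : ι → ℚ) (e f : ℚ), SysP m b 1 cl z X w B E e f := by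
  have key : ∀ z : ζ → Bool, (univ.filter (fun x : ι → Bool =>
      ∀ C ∈ cl, ∃ l ∈ C, Sum.elim z x l.2 = l.1)).card =
      (univ.filter (fun x : ι → Bool => tv (Sum.elim z x) cl = true)).card := by
    intro z
    congr 1
    apply filter_congr
    intro x _
    rw [tv_iff]
  constructor
  · rintro ⟨z, hz⟩
    rw [key] at hz
    exact completeP h h16 h5 cl z hz.neg_one_pow
  · rintro ⟨z, X, w, B, E, e, f, hS⟩
    obtain ⟨z, hz⟩ := soundP h (Or.inl rfl) cl hS
    refine ⟨z, ?_⟩
    rw [key]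
    rcases Nat.even_or_odd (univ.filter (fun x : ι → Bool =>
      tv (Sum.elim z x) cl = true)).card with h1 | h1
    · rw [h1.neg_one_pow] at hz; norm_num at hz
    · exact h1

end Global

end Pool.Agent.H573R2.Par
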