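import Mathlib

/-!
# Exponentially many places

For pairwise coprime odd numbers `m i ≥ 3` and `b ≡ 2 mod 4` divisible by all of them, every subset
`S` of the indices has a prime `q ≡ 3 mod 4` which divides `G = b ^ (∏ m i) + 1` to an odd power and
for which `S` is the set of the indices `i` with `q ∤ b ^ (∏_{j ≠ i} m j) + 1`.
-/

set_option autoImplicit false
set_option linter.unusedSectionVars false

namespace Pool.Agent.H573R2.Places

open Finset

variable {ι : Type} [Fintype ι] [DecidableEq ι]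

/-- The numbers `b ^ (∏_{i ∈ S} m i) + 1`. -/
def G (m : ι → ℕ) (b : ℕ) (S : Finset ι) : ℕ := b ^ (∏ i ∈ S, m i) + 1

/-- Admissible data. -/
structure Adm (m : ι → ℕ) (b : ℕ) : Prop where
  odd : ∀ i, Odd (m i)
  three : ∀ i, 3 ≤ m i
  cop : ∀ i j, i ≠ j → Nat.Coprime (m i) (m j)
  bmod : b % 4 = 2
  dvd : ∀ i, m i ∣ b

variable {m : ι → ℕ} {b : ℕ}

omit [Fintype ι] in
theorem Adm.odd_prod (h : Adm m b) (S : Finset ι) : Odd (∏ i ∈ S, m i) := by
  induction S using Finset.induction_on with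
  | empty => simp
  | insert a s ha ih => rw [prod_insert ha]; exact (h.odd a).mul ih

theorem Adm.G_dvd (h : Adm m b) {S T : Finset ι} (hST : S ⊆ T) : G m b S ∣ G m b T := by
  unfold G
  have h1 : ∏ i ∈ T, m i = (∏ i ∈ S, m i) * ∏ i ∈ T \ S, m i := by
    rw [mul_comm, prod_sdiff hST]
  have h2 := Odd.nat_add_dvd_pow_add_pow (b ^ (∏ i ∈ S, m i)) 1 (h.odd_prod (T \ S))
  rw [one_pow, ← pow_mul, ← h1] at h2
  exact h2

theorem Adm.not_dvd_b (h : Adm m b) {S : Finset ι} {q : ℕ} (hq : q.Prime) (hd : q ∣ G m b S) :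
    ¬ q ∣ b := by
  intro hb
  have h1 : q ∣ b ^ (∏ i ∈ S, m i) := dvd_pow hb (h.odd_prod S).pos.ne'
  have h2 : q ∣ 1 := (Nat.dvd_add_right h1).1 hd
  exact hq.one_lt.ne' (Nat.dvd_one.1 h2)

theorem Adm.not_dvd_m (h : Adm m b) {S : Finset ι} {q : ℕ} (hq : q.Prime) (hd : q ∣ G m b S)
    (i : ι) : ¬ q ∣ m i := fun h1 => h.not_dvd_b hq hd (h1.trans (h.dvd i))

theorem Adm.G_odd (h : Adm m b) (S : Finset ι) : Odd (G m b S) := by
  have h2 : Even b := by
    have := h.bmod
    exact Nat.even_iff.2 (by omega)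
  exact (h2.pow_of_ne_zero (h.odd_prod S).pos.ne').add_one

theorem Adm.prime_odd (h : Adm m b) {S : Finset ι} {q : ℕ} (hd : q ∣ G m b S) : Odd q := by
  rcases Nat.even_or_odd q with he | ho
  · exact absurd ((even_iff_two_dvd.1 he).trans hd) (by
      have := h.G_odd S
      rw [Nat.odd_iff] at this
      omega)
  · exact ho

theorem Adm.inter (h : Adm m b) {S T : Finset ι} {q : ℕ} (hS : q ∣ G m b S)
    (hT : q ∣ G m b T) : q ∣ G m b (S ∩ T) := by
  set c : ZMod q := (b : ZMod q) ^ (∏ i ∈ S ∩ T, m i) with hc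
  have e1 : c ^ (∏ i ∈ S \ T, m i) = -1 := by
    have h1 : ((G m b S : ℕ) : ZMod q) = 0 := (ZMod.natCast_eq_zero_iff _ _).2 hS
    rw [hc, ← pow_mul, Finset.prod_inter_mul_prod_sdiff]
    unfold G at h1
    push_cast at h1
    exact eq_neg_of_add_eq_zero_left h1
  have e2 : c ^ (∏ i ∈ T \ S, m i) = -1 := by
    have h1 : ((G m b T : ℕ) : ZMod q) = 0 := (ZMod.natCast_eq_zero_iff _ _).2 hT
    rw [hc, ← pow_mul, Finset.inter_comm, Finset.prod_inter_mul_prod_sdiff]
    unfold G at h1
    push_cast at h1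
    exact eq_neg_of_add_eq_zero_left h1
  have f1 : (-c) ^ (∏ i ∈ S \ T, m i) = 1 := by
    rw [(h.odd_prod _).neg_pow, e1, neg_neg]
  have f2 : (-c) ^ (∏ i ∈ T \ S, m i) = 1 := by
    rw [(h.odd_prod _).neg_pow, e2, neg_neg]
  have hcop : Nat.Coprime (∏ i ∈ S \ T, m i) (∏ i ∈ T \ S, m i) := by
    apply Nat.Coprime.prod_left
    intro i hi
    apply Nat.Coprime.prod_right
    intro j hj
    apply h.cop
    rintro rfl
    simp only [mem_sdiff] at hi hj
    exact hi.2 hj.1
  have f3 := pow_gcd_eq_one.2 ⟨f1, f2⟩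
  rw [hcop, pow_one] at f3
  have : ((G m b (S ∩ T) : ℕ) : ZMod q) = 0 := by
    unfold G
    push_cast
    rw [← hc]
    linear_combination -f3
  exact (ZMod.natCast_eq_zero_iff _ _).1 this

/-- The set of the indices of a prime. -/
def supp (m : ι → ℕ) (b q : ℕ) : Finset ι := univ.filter (fun i => ¬ q ∣ G m b (univ.erase i))

theorem Adm.dvd_G_supp (h : Adm m b) {q : ℕ} (hq : q ∣ G m b univ) :
    q ∣ G m b (supp m b q) := by
  have key : ∀ J : Finset ι, (∀ i ∈ J, q ∣ G m b (univ.erase i)) → q ∣ G m b (univ \ J) := by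
    intro J
    induction J using Finset.induction_on with
    | empty => intro _; simpa using hq
    | insert a s ha ih =>
      intro hJ
      have h1 := ih (fun i hi => hJ i (mem_insert_of_mem hi))
      have h2 := hJ a (mem_insert_self a s)
      have h3 : (univ \ insert a s : Finset ι) = (univ \ s) ∩ univ.erase a := by
        ext x; simp only [mem_sdiff, mem_univ, mem_insert, not_or, mem_inter, mem_erase, true_and,
          and_true]; tauto
      rw [h3]
      exact h.inter h1 h2
  have := key (univ.filter (fun i => q ∣ G m b (univ.erase i))) (by simp)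
  have h4 : (univ \ univ.filter (fun i => q ∣ G m b (univ.erase i)) : Finset ι) = supp m b q := by
    ext x; simp [supp]
  rwa [h4] at this

theorem Adm.dvd_G_iff (h : Adm m b) {q : ℕ} (hq : q ∣ G m b univ) (S : Finset ι) :
    q ∣ G m b S ↔ supp m b q ⊆ S := by
  constructor
  · intro hS i hi
    by_contra hiS
    have h1 : S ⊆ univ.erase i := by
      intro j hj
      simp only [mem_erase, mem_univ, and_true]
      rintro rfl
      exact hiS hj
    have h2 := hS.trans (h.G_dvd h1)
    simp only [supp, mem_filter, mem_univ, true_and] at hi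
    exact hi h2
  · intro hS
    exact (h.dvd_G_supp hq).trans (h.G_dvd hS)

theorem Adm.factorization_eq (h : Adm m b) {q : ℕ} (hq : q.Prime) {S : Finset ι}
    (hS : q ∣ G m b S) : (G m b univ).factorization q = (G m b S).factorization q := by
  have : Fact q.Prime := ⟨hq⟩
  rw [Nat.factorization_def _ hq, Nat.factorization_def _ hq]
  have h1 : ∏ i : ι, m i = (∏ i ∈ S, m i) * ∏ i ∈ univ \ S, m i := by
    rw [mul_comm, prod_sdiff (subset_univ S)]
  have h2 : G m b univ = (b ^ (∏ i ∈ S, m i)) ^ (∏ i ∈ univ \ S, m i) +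
      1 ^ (∏ i ∈ univ \ S, m i) := by
    rw [one_pow, ← pow_mul, ← h1]; rfl
  rw [h2, padicValNat.pow_add_pow (h.prime_odd hS) hS ?_ (h.odd_prod _)]
  · have h3 : padicValNat q (∏ i ∈ univ \ S, m i) = 0 := by
      apply padicValNat.eq_zero_of_not_dvd
      intro h4
      obtain ⟨i, -, hi⟩ := (Prime.dvd_finsetProd_iff hq.prime _).1 h4
      exact h.not_dvd_m hq hS i hi
    rw [h3]; rfl
  · intro h3
    exact h.not_dvd_b hq hS (hq.dvd_of_dvd_pow h3)

/-- The part of `G` at the subset `S`. -/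
def P (m : ι → ℕ) (b : ℕ) (S : Finset ι) : ℕ :=
  ∏ q ∈ (G m b univ).primeFactors with supp m b q = S, q ^ (G m b univ).factorization q

theorem Adm.prod_P (h : Adm m b) (S : Finset ι) : ∏ T ∈ S.powerset, P m b T = G m b S := by
  unfold P
  have h1 : ∀ q ∈ (G m b univ).primeFactors.filter (fun q => supp m b q ⊆ S),
      supp m b q ∈ S.powerset := by
    intro q hq
    simp only [mem_filter] at hq
    exact mem_powerset.2 hq.2
  have h2 := prod_fiberwise_of_maps_to h1 (fun q => q ^ (G m b univ).factorization q)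
  have h3 : ∀ T ∈ S.powerset,
      ∏ q ∈ (G m b univ).primeFactors with supp m b q = T, q ^ (G m b univ).factorization q =
      ∏ q ∈ (G m b univ).primeFactors.filter (fun q => supp m b q ⊆ S) with supp m b q = T,
        q ^ (G m b univ).factorization q := by
    intro T hT
    apply prod_congr _ (fun _ _ => rfl)
    ext q
    simp only [mem_filter]
    rw [mem_powerset] at hT
    constructor
    · rintro ⟨h1, rfl⟩; exact ⟨⟨h1, hT⟩, rfl⟩
    · rintro ⟨⟨h1, _⟩, h2⟩; exact ⟨h1, h2⟩
  rw [prod_congr rfl h3, h2]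
  have hG0 : G m b S ≠ 0 := Nat.succ_ne_zero _
  have hGu : G m b univ ≠ 0 := Nat.succ_ne_zero _
  have h4 : (G m b univ).primeFactors.filter (fun q => supp m b q ⊆ S) =
      (G m b S).primeFactors := by
    ext q
    simp only [mem_filter, Nat.mem_primeFactors]
    constructor
    · rintro ⟨⟨hq, hd, _⟩, hs⟩
      exact ⟨hq, (h.dvd_G_iff hd S).2 hs, hG0⟩
    · rintro ⟨hq, hd, _⟩
      have hd' := hd.trans (h.G_dvd (subset_univ S))
      exact ⟨⟨hq, hd', hGu⟩, (h.dvd_G_iff hd' S).1 hd⟩
  rw [h4]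
  conv_rhs => rw [← Nat.prod_factorization_pow_eq_self hG0]
  rw [Nat.prod_factorization_eq_prod_primeFactors]
  apply prod_congr rfl
  intro q hq
  rw [h.factorization_eq (Nat.prime_of_mem_primeFactors hq) (Nat.dvd_of_mem_primeFactors hq)]

theorem Adm.chi_G (h : Adm m b) (S : Finset ι) :
    ZMod.χ₄ ((G m b S : ℕ) : ZMod 4) = if S = ∅ then -1 else 1 := by
  have hb := h.bmod
  split_ifs with hS
  · subst hS
    apply ZMod.χ₄_nat_three_mod_four
    simp only [G, prod_empty, pow_one]
    omega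
  · apply ZMod.χ₄_nat_one_mod_four
    obtain ⟨i, hi⟩ := Finset.nonempty_iff_ne_empty.2 hS
    have h3 : 2 ≤ ∏ i ∈ S, m i := by
      have h4 : m i ∣ ∏ i ∈ S, m i := dvd_prod_of_mem m hi
      have := Nat.le_of_dvd (h.odd_prod S).pos h4
      have := h.three i
      omega
    obtain ⟨t, ht⟩ := Nat.exists_eq_add_of_le h3
    have h5 : 4 ∣ b ^ 2 := by
      have : 2 ∣ b := by omega
      have := pow_dvd_pow_of_dvd this 2
      simpa using this
    have h6 : 4 ∣ b ^ (∏ i ∈ S, m i) := by
      rw [ht, pow_add]; exact h5.mul_right _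
    unfold G
    omega

theorem Adm.chi_P (h : Adm m b) (S : Finset ι) : ZMod.χ₄ ((P m b S : ℕ) : ZMod 4) = -1 := by
  induction S using Finset.strongInduction with
  | H S ih =>
    have h1 : ZMod.χ₄ (((∏ T ∈ S.powerset, P m b T : ℕ)) : ZMod 4) = if S = ∅ then -1 else 1 := by
      rw [h.prod_P S, h.chi_G S]
    push_cast at h1
    rw [map_prod, ← prod_erase_mul _ _ (mem_powerset_self S)] at h1
    have h2 : ∏ T ∈ S.powerset.erase S, ZMod.χ₄ ((P m b T : ℕ) : ZMod 4) =
        (-1) ^ (2 ^ S.card - 1) := by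
      rw [prod_congr rfl (g := fun _ => (-1 : ℤ))]
      · rw [prod_const, card_erase_of_mem (mem_powerset_self S), card_powerset]
      · intro T hT
        apply ih
        rw [mem_erase, mem_powerset] at hT
        exact Finset.ssubset_iff_subset_ne.2 ⟨hT.2, hT.1⟩
    rw [h2] at h1
    by_cases hS : S = ∅
    · subst hS
      simpa using h1
    · rw [if_neg hS] at h1
      have hc : 1 ≤ S.card := Finset.card_pos.2 (Finset.nonempty_iff_ne_empty.2 hS)
      have hodd : Odd (2 ^ S.card - 1) := by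
        obtain ⟨t, ht⟩ := Nat.exists_eq_add_of_le hc
        rw [ht, pow_add]
        have : 0 < 2 ^ t := by positivity
        exact ⟨2 ^ t - 1, by omega⟩
      rw [hodd.neg_one_pow] at h1
      linarith

/-- Every subset of the indices has its prime. -/
theorem Adm.exists_place (h : Adm m b) (S : Finset ι) : ∃ q : ℕ, q.Prime ∧ q % 4 = 3 ∧
    Odd ((G m b univ).factorization q) ∧ q ∣ G m b univ ∧
    ∀ i, (q ∣ G m b (univ.erase i) ↔ i ∉ S) := by
  by_contra hcon
  push Not at hcon
  have h1 : ZMod.χ₄ ((P m b S : ℕ) : ZMod 4) = 1 := by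
    unfold P
    push_cast
    rw [map_prod]
    apply prod_eq_one
    intro q hq
    simp only [mem_filter, Nat.mem_primeFactors] at hq
    obtain ⟨⟨hqp, hd, -⟩, hs⟩ := hq
    rw [map_pow]
    have hodd := h.prime_odd hd
    rcases Nat.odd_mod_four_iff.1 (Nat.odd_iff.1 hodd) with h4 | h4
    · rw [ZMod.χ₄_nat_one_mod_four h4, one_pow]
    · rw [ZMod.χ₄_nat_three_mod_four h4]
      rcases Nat.even_or_odd ((G m b univ).factorization q) with he | ho
      · rw [he.neg_one_pow]
      · exfalso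
        obtain ⟨i, hi⟩ := hcon q hqp h4 ho hd
        have h5 : i ∈ S ↔ ¬ q ∣ G m b (univ.erase i) := by
          rw [← hs]; simp [supp]
        tauto
  rw [h.chi_P S] at h1
  norm_num at h1

end Pool.Agent.H573R2.Places
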