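import Pool.Agent.ER.ToSysPoly
import Pool.Agent.H612.TmPoly

/-!
# Existential sentences over the rational numbers

* `QF` : quantifier-free formulas of the language of rings;
* `ExQ φ` : the existential closure of `φ` is true over the rational numbers;
* `SatQ S` : solvability over the rational numbers of a system of constraints `x = 1`, `x + y = z`,
  `x * y = z`;
* `satQ_sysOf` : formulas are translated to systems.
-/

set_option autoImplicit false

namespace Pool.Agent.H573R2.QS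

open Pool.Agent.NPC Pool.Agent.NPC.ER

/-- The value of a polynomial expression at a rational point. -/
def evalQ (x : ℕ → ℚ) : Tm → ℚ
  | Tm.var i => x i
  | Tm.zero => 0
  | Tm.one => 1
  | Tm.add s t => evalQ x s + evalQ x t
  | Tm.neg t => - evalQ x t
  | Tm.mul s t => evalQ x s * evalQ x t

/-- Quantifier-free formulas of the language of rings: Boolean combinations of polynomial
equations. -/
inductive QF : Type
  | eq (s t : Tm) : QF
  | not (φ : QF) : QF
  | and (φ ψ : QF) : QF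
  | or (φ ψ : QF) : QF
  deriving DecidableEq

/-- Truth of a quantifier-free formula at a rational point. -/
def QF.Holds (x : ℕ → ℚ) : QF → Prop
  | QF.eq s t => evalQ x s = evalQ x t
  | QF.not φ => ¬ φ.Holds x
  | QF.and φ ψ => φ.Holds x ∧ ψ.Holds x
  | QF.or φ ψ => φ.Holds x ∨ ψ.Holds x

/-- The existential closure of the quantifier-free formula `φ` is true over the rational
numbers. -/
def ExQ (φ : QF) : Prop := ∃ x : ℕ → ℚ, φ.Holds x

/-- Formulas as formulas of the language of ordered rings. -/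
def QF.toFm : QF → Fm
  | QF.eq s t => Fm.eq s t
  | QF.not φ => Fm.not φ.toFm
  | QF.and φ ψ => Fm.and φ.toFm ψ.toFm
  | QF.or φ ψ => Fm.or φ.toFm ψ.toFm

theorem QF.toFm_injective : Function.Injective QF.toFm := by
  intro φ
  induction φ with
  | eq s t => intro ψ h; cases ψ <;> simp [QF.toFm] at h ⊢; exact h
  | not φ ih => intro ψ h; cases ψ <;> simp [QF.toFm] at h ⊢; exact ih h
  | and φ φ' ih ih' =>
    intro ψ h; cases ψ <;> simp [QF.toFm] at h ⊢; exact ⟨ih h.1, ih' h.2⟩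
  | or φ φ' ih ih' =>
    intro ψ h; cases ψ <;> simp [QF.toFm] at h ⊢; exact ⟨ih h.1, ih' h.2⟩

/-- Formulas are encoded by their reverse Polish notation. -/
instance : TEnc QF := ⟨fun φ => toT φ.toFm, fun _ _ h => QF.toFm_injective (TEnc.inj h)⟩

/-- Validity of an elementary constraint. -/
def CHolds (v : ℕ → ℚ) : ER.Con → Prop
  | ER.Con.one i => v i = 1
  | ER.Con.add i j k => v i + v j = v k
  | ER.Con.mul i j k => v i * v j = v k

theorem cholds_congr {v v' : ℕ → ℚ} {c : ER.Con} (h : ∀ i ∈ c.vars, v i = v' i) :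
    CHolds v c ↔ CHolds v' c := by
  cases c <;> simp [ER.Con.vars] at h <;> simp [CHolds, h]

/-- A system holds. -/
def QSysHolds (v : ℕ → ℚ) (S : List ER.Con) : Prop := ∀ c ∈ S, CHolds v c

theorem sysHolds_append {v : ℕ → ℚ} {S S' : List ER.Con} :
    QSysHolds v (S ++ S') ↔ QSysHolds v S ∧ QSysHolds v S' := by
  simp [QSysHolds, or_imp, forall_and]

theorem sysHolds_cons {v : ℕ → ℚ} {c : ER.Con} {S : List ER.Con} :
    QSysHolds v (c :: S) ↔ CHolds v c ∧ QSysHolds v S := by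
  simp [QSysHolds]

theorem sysHolds_nil {v : ℕ → ℚ} : QSysHolds v [] := by
  simp [QSysHolds]

/-- Solvability of a system over the rational numbers. -/
def SatQ (S : List ER.Con) : Prop := ∃ v : ℕ → ℚ, QSysHolds v S

/-- Extension of an assignment by fresh values. -/
def extQ (n : ℕ) (g : ℕ → ℚ) (v : ℕ → ℚ) (i : ℕ) : ℚ :=
  if i % 2 = 1 ∧ 2 * n < i then g (i / 2 - n) else v i

@[simp] theorem extQ_fv (n k : ℕ) (g v : ℕ → ℚ) : extQ n g v (fv n k) = g k := by
  unfold extQ fv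
  rw [if_pos (by omega)]
  congr 1
  omega

theorem extQ_av {n i : ℕ} (g v : ℕ → ℚ) (h : Av n i) : extQ n g v i = v i := by
  unfold extQ
  rw [if_neg]
  rintro ⟨h1, h2⟩
  have := h h1
  omega

theorem avS_holds {n : ℕ} {S : List ER.Con} (h : AvS n S) {v v' : ℕ → ℚ}
    (hv : ∀ i, Av n i → v' i = v i) (hS : QSysHolds v S) : QSysHolds v' S := fun c hc =>
  (cholds_congr fun i hi => (hv i (h c hc i hi))).2 (hS c hc)

/-- The specification of the translation of a term. -/
def TSpec (t : Tm) : Prop := ∀ (n : ℕ) (s : List (ℕ × ℕ)) (o : List ER.Con), ∃ n' a o',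
  trans t.toks (n, s, o) = (n', (a, a) :: s, o' ++ o) ∧ n ≤ n' ∧ Av n' a ∧ AvS n' o' ∧
  (∀ v : ℕ → ℚ, QSysHolds v o' → v a = evalQ (fun i => v (2 * i)) t) ∧
  (∀ v : ℕ → ℚ, ∃ v' : ℕ → ℚ, (∀ i, Av n i → v' i = v i) ∧ QSysHolds v' o')

/-- The specification of the translation of a formula. -/
def FSpec (φ : QF) : Prop := ∀ (n : ℕ) (s : List (ℕ × ℕ)) (o : List ER.Con), ∃ n' p q o',
  trans φ.toFm.toks (n, s, o) = (n', (p, q) :: s, o' ++ o) ∧ n ≤ n' ∧ Av n' p ∧ Av n' q ∧
  AvS n' o' ∧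
  (∀ v : ℕ → ℚ, QSysHolds v o' → (v p = 0 → φ.Holds (fun i => v (2 * i))) ∧
    (v q = 0 → ¬ φ.Holds (fun i => v (2 * i)))) ∧
  (∀ v : ℕ → ℚ, ∃ v' : ℕ → ℚ, (∀ i, Av n i → v' i = v i) ∧ QSysHolds v' o' ∧
    (φ.Holds (fun i => v' (2 * i)) → v' p = 0) ∧ (¬ φ.Holds (fun i => v' (2 * i)) → v' q = 0))

theorem tspec_binary {s t : Tm} (hs : TSpec s) (ht : TSpec t) (n : ℕ) (st : List (ℕ × ℕ))
    (o : List ER.Con) : ∃ n' a b o', trans (s.toks ++ t.toks) (n, st, o) =
      (n', (b, b) :: (a, a) :: st, o' ++ o) ∧ n ≤ n' ∧ Av n' a ∧ Av n' b ∧ AvS n' o' ∧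
    (∀ v : ℕ → ℚ, QSysHolds v o' → v a = evalQ (fun i => v (2 * i)) s ∧ v b = evalQ (fun i => v (2 * i)) t) ∧
    (∀ v : ℕ → ℚ, ∃ v' : ℕ → ℚ, (∀ i, Av n i → v' i = v i) ∧ QSysHolds v' o') := by
  obtain ⟨n₁, a, o₁, e₁, h₁, a₁, A₁, s₁, c₁⟩ := hs n st o
  obtain ⟨n₂, b, o₂, e₂, h₂, a₂, A₂, s₂, c₂⟩ := ht n₁ ((a, a) :: st) (o₁ ++ o)
  refine ⟨n₂, a, b, o₂ ++ o₁, ?_, h₁.trans h₂, a₁.mono h₂, a₂, ?_, ?_, ?_⟩
  · rw [trans_append, e₁, e₂, List.append_assoc]
  · intro c hc
    rcases List.mem_append.1 hc with hc | hc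
    · exact A₂ c hc
    · exact (A₁.mono h₂) c hc
  · intro v hv
    rw [sysHolds_append] at hv
    exact ⟨s₁ v hv.2, s₂ v hv.1⟩
  · intro v
    obtain ⟨v₁, k₁, l₁⟩ := c₁ v
    obtain ⟨v₂, k₂, l₂⟩ := c₂ v₁
    exact ⟨v₂, fun i hi => (k₂ i (hi.mono h₁)).trans (k₁ i hi),
      sysHolds_append.2 ⟨l₂, avS_holds A₁ k₂ l₁⟩⟩

theorem fspec_binary {s t : QF} (hs : FSpec s) (ht : FSpec t) (n : ℕ) (st : List (ℕ × ℕ))
    (o : List ER.Con) : ∃ n' p q p' q' o', trans (s.toFm.toks ++ t.toFm.toks) (n, st, o) =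
      (n', (p', q') :: (p, q) :: st, o' ++ o) ∧ n ≤ n' ∧ Av n' p ∧ Av n' q ∧ Av n' p' ∧
      Av n' q' ∧ AvS n' o' ∧
    (∀ v : ℕ → ℚ, QSysHolds v o' → (v p = 0 → s.Holds (fun i => v (2 * i))) ∧
      (v q = 0 → ¬ s.Holds (fun i => v (2 * i))) ∧ (v p' = 0 → t.Holds (fun i => v (2 * i))) ∧
      (v q' = 0 → ¬ t.Holds (fun i => v (2 * i)))) ∧
    (∀ v : ℕ → ℚ, ∃ v' : ℕ → ℚ, (∀ i, Av n i → v' i = v i) ∧ QSysHolds v' o' ∧
      (s.Holds (fun i => v' (2 * i)) → v' p = 0) ∧ (¬ s.Holds (fun i => v' (2 * i)) → v' q = 0) ∧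
      (t.Holds (fun i => v' (2 * i)) → v' p' = 0) ∧
      (¬ t.Holds (fun i => v' (2 * i)) → v' q' = 0)) := by
  obtain ⟨n₁, p, q, o₁, e₁, h₁, a₁, b₁, A₁, s₁, c₁⟩ := hs n st o
  obtain ⟨n₂, p', q', o₂, e₂, h₂, a₂, b₂, A₂, s₂, c₂⟩ := ht n₁ ((p, q) :: st) (o₁ ++ o)
  refine ⟨n₂, p, q, p', q', o₂ ++ o₁, ?_, h₁.trans h₂, a₁.mono h₂, b₁.mono h₂, a₂, b₂, ?_, ?_, ?_⟩
  · rw [trans_append, e₁, e₂, List.append_assoc]
  · intro c hc
    rcases List.mem_append.1 hc with hc | hc
    · exact A₂ c hc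
    · exact (A₁.mono h₂) c hc
  · intro v hv
    rw [sysHolds_append] at hv
    exact ⟨(s₁ v hv.2).1, (s₁ v hv.2).2, (s₂ v hv.1).1, (s₂ v hv.1).2⟩
  · intro v
    obtain ⟨v₁, k₁, l₁, p₁, q₁⟩ := c₁ v
    obtain ⟨v₂, k₂, l₂, p₂, q₂⟩ := c₂ v₁
    have e : (fun i => v₂ (2 * i)) = fun i => v₁ (2 * i) := by
      funext i
      exact k₂ _ (av_even _ _)
    refine ⟨v₂, fun i hi => (k₂ i (hi.mono h₁)).trans (k₁ i hi),
      sysHolds_append.2 ⟨l₂, avS_holds A₁ k₂ l₁⟩, ?_, ?_, p₂, q₂⟩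
    · rw [e, k₂ _ a₁]
      exact p₁
    · rw [e, k₂ _ b₁]
      exact q₁

/-- Fresh values extend a good assignment. -/
theorem extQ_good {n n' : ℕ} {o : List ER.Con} (hn : n ≤ n') (A : AvS n' o) {v v₀ : ℕ → ℚ}
    (h : ∀ i, Av n i → v i = v₀ i) (hv : QSysHolds v o) (g : ℕ → ℚ) :
    (∀ i, Av n i → extQ n' g v i = v₀ i) ∧ QSysHolds (extQ n' g v) o ∧
      (fun i => extQ n' g v (2 * i)) = fun i => v (2 * i) :=
  ⟨fun i hi => (extQ_av g v (hi.mono hn)).trans (h i hi),
    avS_holds A (fun i hi => extQ_av g v hi) hv, by funext i; exact extQ_av g v (av_even _ _)⟩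

theorem tspec (t : Tm) : TSpec t := by
  induction t with
  | var i =>
    intro n s o
    exact ⟨n, 2 * i, [], rfl, le_rfl, av_even _ _, by simp [AvS], fun v _ => rfl,
      fun v => ⟨v, fun _ _ => rfl, sysHolds_nil⟩⟩
  | zero =>
    intro n s o
    refine ⟨n + 1, fv n 0, [ER.Con.add (fv n 0) (fv n 0) (fv n 0)], rfl, by omega,
      av_fv (by omega), ?_, ?_, ?_⟩
    · simp [AvS, ER.Con.vars, av_fv]
    · intro v hv
      simp [QSysHolds, CHolds] at hv
      simpa [evalQ] using hv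
    · intro v
      refine ⟨extQ n (fun _ => 0) v, fun i hi => extQ_av _ _ hi, ?_⟩
      simp [QSysHolds, CHolds]
  | one =>
    intro n s o
    refine ⟨n + 1, fv n 0, [ER.Con.one (fv n 0)], rfl, by omega,
      av_fv (by omega), ?_, ?_, ?_⟩
    · simp [AvS, ER.Con.vars, av_fv]
    · intro v hv
      simpa [QSysHolds, CHolds, evalQ] using hv
    · intro v
      refine ⟨extQ n (fun _ => 1) v, fun i hi => extQ_av _ _ hi, ?_⟩
      simp [QSysHolds, CHolds]
  | add s t hs ht =>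
    intro n st o
    obtain ⟨n', a, b, o', e, hn, ha, hb, A, hsound, hcomp⟩ := tspec_binary hs ht n st o
    refine ⟨n' + 1, fv n' 0, ER.Con.add a b (fv n' 0) :: o', ?_, by omega, av_fv (by omega),
      ?_, ?_, ?_⟩
    · rw [Tm.toks, trans_append, e]; rfl
    · refine avS_append (S := [_]) ?_ (A.mono (by omega))
      simp [AvS, ER.Con.vars, av_fv, ha.mono (Nat.le_succ _), hb.mono (Nat.le_succ _)]
    · intro v hv
      rw [sysHolds_cons] at hv
      obtain ⟨h1, h2⟩ := hsound v hv.2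
      rw [evalQ, ← h1, ← h2]
      exact hv.1.symm
    · intro v
      obtain ⟨v', h1, h2⟩ := hcomp v
      obtain ⟨g1, g2, g3⟩ := extQ_good hn A h1 h2 (fun _ => v' a + v' b)
      refine ⟨_, g1, sysHolds_cons.2 ⟨?_, g2⟩⟩
      simp [CHolds, extQ_av _ _ ha, extQ_av _ _ hb]
  | neg t ht =>
    intro n st o
    obtain ⟨n', a, o', e, hn, ha, A, hsound, hcomp⟩ := ht n st o
    refine ⟨n' + 2, fv n' 1, ER.Con.add (fv n' 0) (fv n' 0) (fv n' 0) ::
      ER.Con.add a (fv n' 1) (fv n' 0) :: o', ?_, by omega, av_fv (by omega),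
      ?_, ?_, ?_⟩
    · rw [Tm.toks, trans_append, e]; rfl
    · refine avS_append (S := [_, _]) ?_ (A.mono (by omega))
      simp [AvS, ER.Con.vars, av_fv, ha.mono (Nat.le_add_right _ 2)]
    · intro v hv
      rw [sysHolds_cons, sysHolds_cons] at hv
      have h1 := hsound v hv.2.2
      rw [evalQ, ← h1]
      have h2 : v (fv n' 0) + v (fv n' 0) = v (fv n' 0) := hv.1
      have h3 : v a + v (fv n' 1) = v (fv n' 0) := hv.2.1
      linarith
    · intro v
      obtain ⟨v', h1, h2⟩ := hcomp v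
      obtain ⟨g1, g2, g3⟩ := extQ_good hn A h1 h2 (fun k => if k = 0 then 0 else - v' a)
      refine ⟨_, g1, sysHolds_cons.2 ⟨?_, sysHolds_cons.2 ⟨?_, g2⟩⟩⟩
      · simp [CHolds]
      · simp [CHolds, extQ_av _ _ ha]
  | mul s t hs ht =>
    intro n st o
    obtain ⟨n', a, b, o', e, hn, ha, hb, A, hsound, hcomp⟩ := tspec_binary hs ht n st o
    refine ⟨n' + 1, fv n' 0, ER.Con.mul a b (fv n' 0) :: o', ?_, by omega, av_fv (by omega),
      ?_, ?_, ?_⟩
    · rw [Tm.toks, trans_append, e]; rfl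
    · refine avS_append (S := [_]) ?_ (A.mono (by omega))
      simp [AvS, ER.Con.vars, av_fv, ha.mono (Nat.le_succ _), hb.mono (Nat.le_succ _)]
    · intro v hv
      rw [sysHolds_cons] at hv
      obtain ⟨h1, h2⟩ := hsound v hv.2
      rw [evalQ, ← h1, ← h2]
      exact hv.1.symm
    · intro v
      obtain ⟨v', h1, h2⟩ := hcomp v
      obtain ⟨g1, g2, g3⟩ := extQ_good hn A h1 h2 (fun _ => v' a * v' b)
      refine ⟨_, g1, sysHolds_cons.2 ⟨?_, g2⟩⟩
      simp [CHolds, extQ_av _ _ ha, extQ_av _ _ hb]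

theorem fspec (φ : QF) : FSpec φ := by
  induction φ with
  | eq s t =>
    intro n st o
    obtain ⟨n', a, b, o', e, hn, ha, hb, A, hsound, hcomp⟩ :=
      tspec_binary (tspec s) (tspec t) n st o
    refine ⟨n' + 5, fv n' 0, fv n' 4, ER.Con.add (fv n' 0) b a :: ER.Con.one (fv n' 1) ::
      ER.Con.mul (fv n' 0) (fv n' 2) (fv n' 3) :: ER.Con.add (fv n' 4) (fv n' 1) (fv n' 3) :: o',
      ?_, by omega, av_fv (by omega), av_fv (by omega), ?_, ?_, ?_⟩
    · rw [QF.toFm, Fm.toks, trans_append, e]; rfl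
    · refine avS_append (S := [_, _, _, _]) ?_ (A.mono (by omega))
      simp [AvS, ER.Con.vars, av_fv, ha.mono (Nat.le_add_right _ 5), hb.mono (Nat.le_add_right _ 5)]
    · intro v hv
      simp only [sysHolds_cons, CHolds] at hv
      obtain ⟨h1, h2, h3, h4, h5⟩ := hv
      obtain ⟨k1, k2⟩ := hsound v h5
      simp only [QF.Holds, ← k1, ← k2]
      constructor
      · intro h; linarith
      · intro h h'
        have : v (fv n' 0) = 0 := by linarith
        rw [this, zero_mul] at h3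
        linarith
    · intro v
      obtain ⟨v', h1, h2⟩ := hcomp v
      obtain ⟨k1, k2⟩ := hsound v' h2
      obtain ⟨g1, g2, g3⟩ := extQ_good hn A h1 h2 (fun k => match k with
        | 0 => v' a - v' b
        | 1 => 1
        | 2 => (v' a - v' b)⁻¹
        | 3 => (v' a - v' b) * (v' a - v' b)⁻¹
        | _ => (v' a - v' b) * (v' a - v' b)⁻¹ - 1)
      refine ⟨_, g1, ?_, ?_, ?_⟩
      · simp only [sysHolds_cons, CHolds, extQ_fv, extQ_av _ _ ha, extQ_av _ _ hb]
        exact ⟨by ring, trivial, trivial, by ring, g2⟩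
      · rw [g3]
        simp only [QF.Holds, ← k1, ← k2, extQ_fv]
        intro h; linarith
      · rw [g3]
        simp only [QF.Holds, ← k1, ← k2, extQ_fv]
        intro h
        rw [mul_inv_cancel₀ (sub_ne_zero.2 h), sub_self]
  | not φ ih =>
    intro n st o
    obtain ⟨n', p, q, o', e, hn, hp, hq, A, hsound, hcomp⟩ := ih n st o
    refine ⟨n', q, p, o', ?_, hn, hq, hp, A, ?_, ?_⟩
    · rw [QF.toFm, Fm.toks, trans_append, e]; rfl
    · intro v hv
      obtain ⟨h1, h2⟩ := hsound v hv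
      exact ⟨h2, fun h h' => h' (h1 h)⟩
    · intro v
      obtain ⟨v', h1, h2, h3, h4⟩ := hcomp v
      exact ⟨v', h1, h2, h4, fun h => h3 (not_not.1 h)⟩
  | and φ ψ hφ hψ =>
    intro n st o
    obtain ⟨n', p, q, p', q', o', e, hn, hp, hq, hp', hq', A, hsound, hcomp⟩ :=
      fspec_binary hφ hψ n st o
    refine ⟨n' + 4, fv n' 2, fv n' 3, ER.Con.mul p p (fv n' 0) :: ER.Con.mul p' p' (fv n' 1) ::
      ER.Con.add (fv n' 0) (fv n' 1) (fv n' 2) :: ER.Con.mul q q' (fv n' 3) :: o',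
      ?_, by omega, av_fv (by omega), av_fv (by omega), ?_, ?_, ?_⟩
    · rw [QF.toFm, Fm.toks, trans_append, e]; rfl
    · refine avS_append (S := [_, _, _, _]) ?_ (A.mono (by omega))
      simp [AvS, ER.Con.vars, av_fv, hp.mono (Nat.le_add_right _ 4), hp'.mono (Nat.le_add_right _ 4),
        hq.mono (Nat.le_add_right _ 4), hq'.mono (Nat.le_add_right _ 4)]
    · intro v hv
      simp only [sysHolds_cons, CHolds] at hv
      obtain ⟨h1, h2, h3, h4, h5⟩ := hv
      obtain ⟨k1, k2, k3, k4⟩ := hsound v h5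
      simp only [QF.Holds]
      constructor
      · intro h
        have e1 : v p = 0 := by nlinarith [mul_self_nonneg (v p), mul_self_nonneg (v p')]
        have e2 : v p' = 0 := by nlinarith [mul_self_nonneg (v p), mul_self_nonneg (v p')]
        exact ⟨k1 e1, k3 e2⟩
      · rintro h ⟨h', h''⟩
        rw [h] at h4
        rcases mul_eq_zero.1 h4 with h | h
        · exact k2 h h'
        · exact k4 h h''
    · intro v
      obtain ⟨v', h1, h2, k1, k2, k3, k4⟩ := hcomp v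
      obtain ⟨g1, g2, g3⟩ := extQ_good hn A h1 h2 (fun k => match k with
        | 0 => v' p * v' p
        | 1 => v' p' * v' p'
        | 2 => v' p * v' p + v' p' * v' p'
        | _ => v' q * v' q')
      refine ⟨_, g1, ?_, ?_, ?_⟩
      · simp only [sysHolds_cons, CHolds, extQ_fv, extQ_av _ _ hp, extQ_av _ _ hp',
          extQ_av _ _ hq, extQ_av _ _ hq']
        exact ⟨trivial, trivial, trivial, trivial, g2⟩
      · rw [g3]
        simp only [QF.Holds, extQ_fv]
        rintro ⟨h, h'⟩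
        rw [k1 h, k3 h']; ring
      · rw [g3]
        simp only [QF.Holds, extQ_fv]
        intro h
        rw [not_and_or] at h
        rcases h with h | h
        · rw [k2 h]; ring
        · rw [k4 h]; ring
  | or φ ψ hφ hψ =>
    intro n st o
    obtain ⟨n', p, q, p', q', o', e, hn, hp, hq, hp', hq', A, hsound, hcomp⟩ :=
      fspec_binary hφ hψ n st o
    refine ⟨n' + 4, fv n' 3, fv n' 2, ER.Con.mul q q (fv n' 0) :: ER.Con.mul q' q' (fv n' 1) ::
      ER.Con.add (fv n' 0) (fv n' 1) (fv n' 2) :: ER.Con.mul p p' (fv n' 3) :: o',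
      ?_, by omega, av_fv (by omega), av_fv (by omega), ?_, ?_, ?_⟩
    · rw [QF.toFm, Fm.toks, trans_append, e]; rfl
    · refine avS_append (S := [_, _, _, _]) ?_ (A.mono (by omega))
      simp [AvS, ER.Con.vars, av_fv, hp.mono (Nat.le_add_right _ 4), hp'.mono (Nat.le_add_right _ 4),
        hq.mono (Nat.le_add_right _ 4), hq'.mono (Nat.le_add_right _ 4)]
    · intro v hv
      simp only [sysHolds_cons, CHolds] at hv
      obtain ⟨h1, h2, h3, h4, h5⟩ := hv
      obtain ⟨k1, k2, k3, k4⟩ := hsound v h5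
      simp only [QF.Holds]
      constructor
      · intro h
        rw [h] at h4
        rcases mul_eq_zero.1 h4 with h | h
        · exact Or.inl (k1 h)
        · exact Or.inr (k3 h)
      · intro h
        have e1 : v q = 0 := by nlinarith [mul_self_nonneg (v q), mul_self_nonneg (v q')]
        have e2 : v q' = 0 := by nlinarith [mul_self_nonneg (v q), mul_self_nonneg (v q')]
        exact not_or.2 ⟨k2 e1, k4 e2⟩
    · intro v
      obtain ⟨v', h1, h2, k1, k2, k3, k4⟩ := hcomp v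
      obtain ⟨g1, g2, g3⟩ := extQ_good hn A h1 h2 (fun k => match k with
        | 0 => v' q * v' q
        | 1 => v' q' * v' q'
        | 2 => v' q * v' q + v' q' * v' q'
        | _ => v' p * v' p')
      refine ⟨_, g1, ?_, ?_, ?_⟩
      · simp only [sysHolds_cons, CHolds, extQ_fv, extQ_av _ _ hp, extQ_av _ _ hp',
          extQ_av _ _ hq, extQ_av _ _ hq']
        exact ⟨trivial, trivial, trivial, trivial, g2⟩
      · rw [g3]
        simp only [QF.Holds, extQ_fv]
        rintro (h | h)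
        · rw [k1 h]; ring
        · rw [k3 h]; ring
      · rw [g3]
        simp only [QF.Holds, extQ_fv]
        intro h
        rw [not_or] at h
        rw [k2 h.1, k4 h.2]; ring

/-- The system of a formula is satisfiable iff the existential sentence is true. -/
theorem satQ_sysOf (φ : QF) : SatQ (sysOf φ.toFm) ↔ ExQ φ := by
  obtain ⟨n', p, q, o', e, hn, hp, hq, A, hsound, hcomp⟩ := fspec φ 0 [] []
  have e' : sysOf φ.toFm = ER.Con.add p p p :: o' := by
    simp only [sysOf, e, top_cons, List.append_nil]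
  rw [e']
  constructor
  · rintro ⟨v, hv⟩
    rw [sysHolds_cons] at hv
    exact ⟨_, (hsound v hv.2).1 (by have : v p + v p = v p := hv.1; linarith)⟩
  · rintro ⟨x, hx⟩
    obtain ⟨v', h1, h2, h3, _⟩ := hcomp (fun i => x (i / 2))
    refine ⟨v', sysHolds_cons.2 ⟨?_, h2⟩⟩
    have : (fun i => v' (2 * i)) = x := by
      funext i
      rw [h1 _ (av_even _ _)]
      simp
    rw [this] at h3
    simp [CHolds, h3 hx]

end Pool.Agent.H573R2.QS
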