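import Mathlib

/-!
# Certificates with sums of two squares

For an odd natural number `M` and an even integer `k`, the rational number `1 + M (k² + d²)` is a
sum of two rational squares for some rational number `d`.
-/

set_option autoImplicit false

namespace Pool.Agent.H573R2.TwoSq

open scoped NumberTheorySymbols

/-- The auxiliary prime. -/
theorem exists_prime (M A : ℕ) (hM : Odd M) (hA4 : A % 4 = 1) (hcop : Nat.Coprime (4 * M) A) :
    ∃ l : ℕ, l.Prime ∧ l % 4 = 1 ∧ (l : ZMod M) = 1 ∧ (l : ZMod A) = -1 ∧ A * M < l := by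
  have hM0 : 0 < M := hM.pos
  have hA0 : 0 < A := by omega
  obtain ⟨r, hr1, hr2⟩ := Nat.chineseRemainder hcop 1 (A - 1)
  have hrM : Nat.Coprime r (4 * M) := by
    have h1 : Nat.gcd r (4 * M) = Nat.gcd 1 (4 * M) := hr1.gcd_eq
    rw [Nat.gcd_one_left] at h1
    exact h1
  have hrA : Nat.Coprime r A := by
    have h1 : Nat.gcd r A = Nat.gcd (A - 1) A := hr2.gcd_eq
    rw [Nat.Coprime, h1]
    exact (Nat.coprime_self_sub_left (by omega)).2 (Nat.coprime_one_left A)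
  have hr : Nat.Coprime r (4 * M * A) := Nat.Coprime.mul_right hrM hrA
  have : NeZero (4 * M * A) := ⟨by positivity⟩
  obtain ⟨l, hl, hlp, hlr⟩ := Nat.forall_exists_prime_gt_and_eq_mod
    ((ZMod.isUnit_iff_coprime r (4 * M * A)).2 hr) (A * M)
  have hlr' : l ≡ r [MOD 4 * M * A] := (ZMod.natCast_eq_natCast_iff _ _ _).1 hlr
  have h4M : l ≡ 1 [MOD 4 * M] := (hlr'.of_mul_right A).trans hr1
  have hlA : l ≡ A - 1 [MOD A] := (hlr'.of_mul_left (4 * M)).trans hr2
  refine ⟨l, hlp, ?_, ?_, ?_, hl⟩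
  · have := h4M.of_mul_right M
    simpa [Nat.ModEq] using this
  · have := h4M.of_mul_left 4
    have := (ZMod.natCast_eq_natCast_iff _ _ _).2 this
    simpa using this
  · have := (ZMod.natCast_eq_natCast_iff _ _ _).2 hlA
    rw [this, Nat.cast_sub (by omega)]
    simp

/-- The quadratic residue condition. -/
theorem isSquare_aux (M A l : ℕ) (hM : Odd M) (hA4 : A % 4 = 1) (hl : l.Prime) (hl4 : l % 4 = 1)
    (hlM : (l : ZMod M) = 1) (hlA : (l : ZMod A) = -1) :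
    IsSquare ((-(A * M : ℤ) : ℤ) : ZMod l) := by
  have hlf : Fact l.Prime := ⟨hl⟩
  have hlodd : Odd l := Nat.odd_iff.2 (by omega)
  have h1 : J(-1 | l) = 1 := by
    rw [jacobiSym.at_neg_one hlodd, ZMod.χ₄_nat_one_mod_four hl4]
  have h2 : J((A : ℤ) | l) = 1 := by
    rw [jacobiSym.quadratic_reciprocity_one_mod_four hA4 hlodd]
    have hmod : ((l : ℤ)) % (A : ℤ) = (-1) % (A : ℤ) := by
      have h3 : ((l : ℤ) : ZMod A) = ((-1 : ℤ) : ZMod A) := by
        rw [Int.cast_natCast, hlA]; simp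
      exact (ZMod.intCast_eq_intCast_iff' _ _ _).1 h3
    rw [jacobiSym.mod_left' hmod, jacobiSym.at_neg_one (Nat.odd_iff.2 (by omega)),
      ZMod.χ₄_nat_one_mod_four hA4]
  have h3 : J((M : ℤ) | l) = 1 := by
    rw [← jacobiSym.quadratic_reciprocity_one_mod_four hl4 hM]
    have hmod : ((l : ℤ)) % (M : ℤ) = 1 % (M : ℤ) := by
      have h3 : ((l : ℤ) : ZMod M) = ((1 : ℤ) : ZMod M) := by
        rw [Int.cast_natCast, hlM]; simp
      exact (ZMod.intCast_eq_intCast_iff' _ _ _).1 h3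
    rw [jacobiSym.mod_left' hmod, jacobiSym.one_left]
  have h4 : J(-(A * M : ℤ) | l) = 1 := by
    have : (-(A * M : ℤ)) = (-1) * ((A : ℤ) * M) := by ring
    rw [this, jacobiSym.mul_left, jacobiSym.mul_left, h1, h2, h3]; norm_num
  rw [← jacobiSym.legendreSym.to_jacobiSym] at h4
  have hne : ((-(A * M : ℤ) : ℤ) : ZMod l) ≠ 0 := by
    intro h0
    rw [(legendreSym.eq_zero_iff l _).2 h0] at h4
    norm_num at h4
  exact (legendreSym.eq_one_iff l hne).1 h4

/-- Legendre's theorem in the case that we need: a nontrivial solution of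
`A t² + M s² = l r²` with `t ≠ 0`. -/
theorem ternary (M k : ℕ) (hM : Odd M) (hk : Even k) (hk0 : k ≠ 0) (hsq : ¬ IsSquare M) :
    ∃ l : ℕ, l.Prime ∧ l % 4 = 1 ∧ ∃ t s r : ℤ, t ≠ 0 ∧
      (1 + M * k ^ 2 : ℤ) * t ^ 2 + M * s ^ 2 = l * r ^ 2 := by
  set A := 1 + M * k ^ 2 with hA
  have hM0 : 0 < M := hM.pos
  have hM1 : M ≠ 1 := by rintro rfl; exact hsq ⟨1, rfl⟩
  obtain ⟨k', hk'⟩ := hk
  have hkk : k = 2 * k' := by omega
  have hA4 : A % 4 = 1 := by
    have : A = 1 + 4 * (M * k' ^ 2) := by rw [hA, hkk]; ring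
    omega
  have hcopMA : Nat.Coprime M A := by
    rw [hA, Nat.coprime_comm]
    have : Nat.gcd (1 + M * k ^ 2) M = 1 := by
      rw [Nat.gcd_comm, mul_comm, Nat.gcd_add_mul_right_right, Nat.gcd_one_right]
    exact this
  have hcop4A : Nat.Coprime 4 A := by
    have h2 : Nat.Coprime 2 A := by
      rw [Nat.coprime_comm, Nat.coprime_two_right]
      exact Nat.odd_iff.2 (by omega)
    exact Nat.Coprime.pow_left 2 h2
  have hcop : Nat.Coprime (4 * M) A := Nat.Coprime.mul_left hcop4A hcopMA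
  obtain ⟨l, hlp, hl4, hlM, hlA, hlbig⟩ := exists_prime M A hM hA4 hcop
  have hlf : Fact l.Prime := ⟨hlp⟩
  have hA0 : 0 < A := by omega
  have hl0 : 0 < l := hlp.pos
  have hlM' : Nat.Coprime l M := by
    rw [Nat.Prime.coprime_iff_not_dvd hlp]
    intro h
    have := Nat.le_of_dvd hM0 h
    have : A * M ≥ M := Nat.le_mul_of_pos_left M hA0
    omega
  have hlA' : Nat.Coprime l A := by
    rw [Nat.Prime.coprime_iff_not_dvd hlp]
    intro h
    have := Nat.le_of_dvd hA0 h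
    have : A * M ≥ A := Nat.le_mul_of_pos_right A hM0
    omega
  have hnsMl : ¬ IsSquare (M * l) := by
    rintro ⟨u, hu⟩
    have hlu : l ∣ u := by
      have : l ∣ u * u := ⟨M, by rw [← hu]; ring⟩
      rcases (Nat.Prime.dvd_mul hlp).1 this with h | h <;> exact h
    obtain ⟨w, rfl⟩ := hlu
    have h1 : M = l * (w * w) := by
      have : l * M = l * (l * (w * w)) := by rw [mul_comm l M, hu]; ring
      exact Nat.eq_of_mul_eq_mul_left hl0 this
    have : l ∣ M := ⟨_, h1⟩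
    exact (Nat.Prime.coprime_iff_not_dvd hlp).1 hlM' this
  obtain ⟨b, hb⟩ := isSquare_aux M A l hM hA4 hlp hl4 hlM hlA
  have hAl : (A : ZMod l) ≠ 0 := by
    intro h
    rw [ZMod.natCast_eq_zero_iff] at h
    exact (Nat.Prime.coprime_iff_not_dvd hlp).1 hlA' h
  have : NeZero M := ⟨by omega⟩
  have : NeZero A := ⟨by omega⟩
  set β : ZMod l := b / A with hβ
  have hβ2 : (A : ZMod l) * β ^ 2 + M = 0 := by
    have : b * b = -((A : ZMod l) * M) := by rw [← hb]; push_cast; ring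
    rw [hβ]
    field_simp
    linear_combination this
  set T := Nat.sqrt (M * l)
  set S := Nat.sqrt (A * l)
  set R := Nat.sqrt (A * M)
  let f : Fin (T + 1) × Fin (S + 1) × Fin (R + 1) → ZMod A × ZMod M × ZMod l := fun p =>
    (((p.2.1 : ℕ) : ZMod A) - k * ((p.2.2 : ℕ) : ZMod A),
      ((p.1 : ℕ) : ZMod M) - ((p.2.2 : ℕ) : ZMod M),
      ((p.1 : ℕ) : ZMod l) - β * ((p.2.1 : ℕ) : ZMod l))
  have hcard : Fintype.card (ZMod A × ZMod M × ZMod l) <
      Fintype.card (Fin (T + 1) × Fin (S + 1) × Fin (R + 1)) := by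
    simp only [Fintype.card_prod, ZMod.card, Fintype.card_fin]
    have e1 : M * l < (T + 1) ^ 2 := by have := Nat.lt_succ_sqrt (M * l); rw [sq]; exact this
    have e2 : A * l < (S + 1) ^ 2 := by have := Nat.lt_succ_sqrt (A * l); rw [sq]; exact this
    have e3 : A * M < (R + 1) ^ 2 := by have := Nat.lt_succ_sqrt (A * M); rw [sq]; exact this
    have e4 : (A * (M * l)) ^ 2 < ((T + 1) * ((S + 1) * (R + 1))) ^ 2 := by
      calc (A * (M * l)) ^ 2 = (M * l) * ((A * l) * (A * M)) := by ring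
        _ < (T + 1) ^ 2 * ((S + 1) ^ 2 * (R + 1) ^ 2) := by
            gcongr
        _ = _ := by ring
    exact lt_of_pow_lt_pow_left₀ 2 (by positivity) e4
  obtain ⟨p, p', hne, hf⟩ := Fintype.exists_ne_map_eq_of_card_lt f hcard
  simp only [f, Prod.mk.injEq] at hf
  obtain ⟨f1, f2, f3⟩ := hf
  set t : ℤ := ((p.1 : ℕ) : ℤ) - ((p'.1 : ℕ) : ℤ) with ht
  set s : ℤ := ((p.2.1 : ℕ) : ℤ) - ((p'.2.1 : ℕ) : ℤ) with hs
  set r : ℤ := ((p.2.2 : ℕ) : ℤ) - ((p'.2.2 : ℕ) : ℤ) with hr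
  have g1 : ((s : ℤ) : ZMod A) = k * (r : ZMod A) := by
    rw [hs, hr]; push_cast; linear_combination f1
  have g2 : ((t : ℤ) : ZMod M) = (r : ZMod M) := by
    rw [ht, hr]; push_cast; linear_combination f2
  have g3 : ((t : ℤ) : ZMod l) = β * (s : ZMod l) := by
    rw [ht, hs]; push_cast; linear_combination f3
  have bt : t ^ 2 ≤ (M * l : ℕ) := by
    have h1 : |t| ≤ T := by
      rw [ht, abs_le]
      have := p.1.2
      have := p'.1.2
      constructor <;> omega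
    have h2 : (T * T : ℕ) ≤ M * l := Nat.sqrt_le (M * l)
    calc t ^ 2 = |t| ^ 2 := (sq_abs t).symm
      _ ≤ (T : ℤ) ^ 2 := by gcongr
      _ = ((T * T : ℕ) : ℤ) := by push_cast; ring
      _ ≤ _ := by exact_mod_cast h2
  have bs : s ^ 2 ≤ (A * l : ℕ) := by
    have h1 : |s| ≤ S := by
      rw [hs, abs_le]
      have := p.2.1.2
      have := p'.2.1.2
      constructor <;> omega
    have h2 : (S * S : ℕ) ≤ A * l := Nat.sqrt_le (A * l)
    calc s ^ 2 = |s| ^ 2 := (sq_abs s).symm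
      _ ≤ (S : ℤ) ^ 2 := by gcongr
      _ = ((S * S : ℕ) : ℤ) := by push_cast; ring
      _ ≤ _ := by exact_mod_cast h2
  have br : r ^ 2 ≤ (A * M : ℕ) := by
    have h1 : |r| ≤ R := by
      rw [hr, abs_le]
      have := p.2.2.2
      have := p'.2.2.2
      constructor <;> omega
    have h2 : (R * R : ℕ) ≤ A * M := Nat.sqrt_le (A * M)
    calc r ^ 2 = |r| ^ 2 := (sq_abs r).symm
      _ ≤ (R : ℤ) ^ 2 := by gcongr
      _ = ((R * R : ℕ) : ℤ) := by push_cast; ring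
      _ ≤ _ := by exact_mod_cast h2
  have hnz : ¬ (t = 0 ∧ s = 0 ∧ r = 0) := by
    rintro ⟨h1, h2, h3⟩
    apply hne
    have e1 : p.1 = p'.1 := Fin.ext (by omega)
    have e2 : p.2.1 = p'.2.1 := Fin.ext (by omega)
    have e3 : p.2.2 = p'.2.2 := Fin.ext (by omega)
    exact Prod.ext e1 (Prod.ext e2 e3)
  -- divisibility
  set F : ℤ := (A : ℤ) * t ^ 2 + M * s ^ 2 - l * r ^ 2 with hF
  have hAcast : (A : ℤ) = 1 + M * k ^ 2 := by rw [hA]; push_cast; ring
  have dA : (A : ℤ) ∣ F := by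
    rw [← ZMod.intCast_zmod_eq_zero_iff_dvd F A, hF]
    push_cast
    rw [g1, hlA]
    have : (A : ZMod A) = 0 := ZMod.natCast_self A
    have h2 : (1 : ZMod A) + M * k ^ 2 = 0 := by
      have : ((A : ℕ) : ZMod A) = 1 + M * k ^ 2 := by rw [hA]; push_cast; ring
      rw [← this]; exact ZMod.natCast_self A
    linear_combination (t : ZMod A) ^ 2 * this + (r : ZMod A) ^ 2 * h2
  have dM : (M : ℤ) ∣ F := by
    rw [← ZMod.intCast_zmod_eq_zero_iff_dvd F M, hF]
    push_cast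
    rw [g2, hlM]
    have h0 : (M : ZMod M) = 0 := ZMod.natCast_self M
    have h2 : ((A : ℕ) : ZMod M) = 1 := by
      rw [hA]; push_cast; rw [h0]; ring
    rw [h2, h0]; ring
  have dl : (l : ℤ) ∣ F := by
    rw [← ZMod.intCast_zmod_eq_zero_iff_dvd F l, hF]
    push_cast
    rw [g3]
    have h0 : (l : ZMod l) = 0 := ZMod.natCast_self l
    linear_combination (s : ZMod l) ^ 2 * hβ2 - (r : ZMod l) ^ 2 * h0
  have dall : ((A * M * l : ℕ) : ℤ) ∣ F := by
    push_cast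
    have c1 : IsCoprime (A : ℤ) (M : ℤ) := Nat.isCoprime_iff_coprime.2 hcopMA.symm
    have c2 : IsCoprime ((A : ℤ) * M) (l : ℤ) :=
      IsCoprime.mul_left (Nat.isCoprime_iff_coprime.2 hlA'.symm)
        (Nat.isCoprime_iff_coprime.2 hlM'.symm)
    exact c2.mul_dvd (c1.mul_dvd dA dM) dl
  obtain ⟨j, hj⟩ := dall
  push_cast at bt bs br hj
  have pA : (0 : ℤ) < A := by exact_mod_cast hA0
  have pM : (0 : ℤ) < M := by exact_mod_cast hM0
  have pl : (0 : ℤ) < l := by exact_mod_cast hl0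
  have pAMl : (0 : ℤ) < A * M * l := by positivity
  have u1 : (A : ℤ) * t ^ 2 ≤ A * M * l := by
    calc (A : ℤ) * t ^ 2 ≤ A * (M * l) := mul_le_mul_of_nonneg_left bt pA.le
      _ = _ := by ring
  have u2 : (M : ℤ) * s ^ 2 ≤ A * M * l := by
    calc (M : ℤ) * s ^ 2 ≤ M * (A * l) := mul_le_mul_of_nonneg_left bs pM.le
      _ = _ := by ring
  have u3 : (l : ℤ) * r ^ 2 ≤ A * M * l := by
    calc (l : ℤ) * r ^ 2 ≤ l * (A * M) := mul_le_mul_of_nonneg_left br pl.le
      _ = _ := by ring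
  have v1 : (0 : ℤ) ≤ A * t ^ 2 := by positivity
  have v2 : (0 : ℤ) ≤ M * s ^ 2 := by positivity
  have v3 : (0 : ℤ) ≤ l * r ^ 2 := by positivity
  have hj2 : j ≤ 2 := by
    by_contra hcon
    push Not at hcon
    have : (A * M * l : ℤ) * 3 ≤ A * M * l * j := mul_le_mul_of_nonneg_left (by omega) pAMl.le
    rw [← hj, hF] at this
    linarith
  have hj1 : -1 ≤ j := by
    by_contra hcon
    push Not at hcon
    have : (A * M * l : ℤ) * j ≤ A * M * l * (-2) := mul_le_mul_of_nonneg_left (by omega) pAMl.le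
    rw [← hj, hF] at this
    linarith
  have hns2 : ∀ u : ℤ, u ^ 2 ≠ M * l := by
    intro u hu
    apply hnsMl
    refine ⟨u.natAbs, ?_⟩
    have : ((u.natAbs * u.natAbs : ℕ) : ℤ) = ((M * l : ℕ) : ℤ) := by
      push_cast
      rw [← hu, ← abs_mul, ← sq, abs_sq]
    exact_mod_cast this.symm
  -- finish from a nontrivial solution
  have finish : ∀ t s r : ℤ, ¬ (t = 0 ∧ s = 0 ∧ r = 0) →
      (A : ℤ) * t ^ 2 + M * s ^ 2 = l * r ^ 2 → t ≠ 0 := by
    intro t s r hnz h ht0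
    subst ht0
    have h1 : (M : ℤ) * s ^ 2 = l * r ^ 2 := by linear_combination h
    have hr0 : r ≠ 0 := by
      rintro rfl
      apply hnz
      refine ⟨rfl, ?_, rfl⟩
      have : (M : ℤ) * s ^ 2 = 0 := by rw [h1]; ring
      rcases mul_eq_zero.1 this with h | h
      · omega
      · exact pow_eq_zero_iff (two_ne_zero) |>.1 h
    apply hnsMl
    have hQ : IsSquare (((M * l : ℕ) : ℚ)) := by
      refine ⟨M * s / r, ?_⟩
      have hrQ : (r : ℚ) ≠ 0 := by exact_mod_cast hr0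
      have h1Q : (M : ℚ) * s ^ 2 = l * r ^ 2 := by exact_mod_cast h1
      field_simp
      push_cast
      linear_combination (-(M : ℚ)) * h1Q
    exact Rat.isSquare_natCast_iff.1 hQ
  have hj' : (A : ℤ) * t ^ 2 + M * s ^ 2 - l * r ^ 2 = A * M * l * j := by rw [← hF]; exact hj
  clear_value F
  rw [hAcast] at hj' u1 u2 u3 v1 finish
  refine ⟨l, hlp, hl4, ?_⟩
  have hcases : j = -1 ∨ j = 0 ∨ j = 1 ∨ j = 2 := by omega
  rcases hcases with rfl | rfl | rfl | rfl
  · exfalso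
    have w1 : (l : ℤ) * r ^ 2 = (1 + M * k ^ 2) * M * l := by linarith
    have w2 : r ^ 2 = (1 + M * k ^ 2) * M := by
      have : (l : ℤ) * (r ^ 2) = l * ((1 + M * k ^ 2) * M) := by rw [w1]; ring
      exact mul_left_cancel₀ (by omega) this
    apply hsq
    have hcop' : IsCoprime (1 + (M : ℤ) * (k : ℤ) ^ 2) (M : ℤ) := ⟨1, -(k : ℤ) ^ 2, by ring⟩
    have h3 : (1 + (M : ℤ) * k ^ 2) * M = r ^ 2 := w2.symm
    obtain ⟨u, hu⟩ := Int.sq_of_gcd_eq_one (Int.isCoprime_iff_gcd_eq_one.1 hcop'.symm)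
      (by rw [← h3]; ring : (M : ℤ) * (1 + M * (k : ℤ) ^ 2) = r ^ 2)
    rcases hu with hu | hu
    · refine ⟨u.natAbs, ?_⟩
      have : ((u.natAbs * u.natAbs : ℕ) : ℤ) = (M : ℤ) := by
        push_cast
        rw [hu, ← abs_mul, ← sq, abs_sq]
      exact_mod_cast this.symm
    · exfalso
      have : (0 : ℤ) ≤ u ^ 2 := sq_nonneg u
      omega
  · refine ⟨t, s, r, ?_, ?_⟩
    · apply finish t s r hnz
      linear_combination hj'
    · linear_combination hj'
  · have key : (1 + M * k ^ 2 : ℤ) * t ^ 2 + M * s ^ 2 = l * (r ^ 2 + (1 + M * k ^ 2) * M) := by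
      linear_combination hj'
    have key2 : (1 + M * k ^ 2 : ℤ) * (t * r + M * s) ^ 2 + M * (s * r - (1 + M * k ^ 2) * t) ^ 2
        = l * (r ^ 2 + (1 + M * k ^ 2) * M) ^ 2 := by
      linear_combination (r ^ 2 + (1 + M * k ^ 2) * M) * key
    refine ⟨t * r + M * s, s * r - (1 + M * k ^ 2) * t, r ^ 2 + (1 + M * k ^ 2) * M, ?_, key2⟩
    apply finish _ (s * r - (1 + M * k ^ 2) * t) (r ^ 2 + (1 + M * k ^ 2) * M) ?_ key2
    rintro ⟨-, -, h3⟩
    have : (0 : ℤ) < r ^ 2 + (1 + M * k ^ 2) * M := by positivity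
    omega
  · exfalso
    have w1 : (1 + M * k ^ 2 : ℤ) * t ^ 2 = (1 + M * k ^ 2) * (M * l) := by linarith
    have w2 : t ^ 2 = M * l := mul_left_cancel₀ (by positivity) w1
    exact hns2 t w2

/-- Completeness of the certificate. -/
theorem cert_complete (M : ℕ) (hM : Odd M) (k : ℤ) (hk : Even k) :
    ∃ d x y : ℚ, 1 + M * ((k : ℚ) ^ 2 + d ^ 2) = x ^ 2 + y ^ 2 := by
  by_cases hsq : IsSquare M
  · obtain ⟨g, rfl⟩ := hsq
    exact ⟨0, 1, g * k, by push_cast; ring⟩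
  by_cases hk0 : k = 0
  · subst hk0
    exact ⟨0, 1, 0, by simp⟩
  have hk' : Even k.natAbs := Int.natAbs_even.2 hk
  obtain ⟨l, hlp, hl4, t, s, r, ht, h⟩ := ternary M k.natAbs hM hk' (by omega) hsq
  have hlf : Fact l.Prime := ⟨hlp⟩
  obtain ⟨e, f, hef⟩ := Nat.Prime.sq_add_sq (p := l) (by omega)
  have htQ : (t : ℚ) ≠ 0 := by exact_mod_cast ht
  have hkk : ((k.natAbs : ℤ)) ^ 2 = k ^ 2 := by rw [Int.natCast_natAbs, sq_abs]
  rw [hkk] at h
  have hQ : (1 + M * (k : ℚ) ^ 2) * (t : ℚ) ^ 2 + M * (s : ℚ) ^ 2 = l * (r : ℚ) ^ 2 := by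
    exact_mod_cast h
  have hefQ : (l : ℚ) = (e : ℚ) ^ 2 + (f : ℚ) ^ 2 := by exact_mod_cast hef.symm
  rw [hefQ] at hQ
  refine ⟨s / t, e * r / t, f * r / t, ?_⟩
  field_simp
  linear_combination hQ

end Pool.Agent.H573R2.TwoSq
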