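import Mathlib

/-!
# Soundness of certificates with sums of two squares

At a prime `q` with `q % 4 = 3` the `q`-adic absolute value of a sum of two squares is the square of
the maximum of the absolute values.
-/

set_option autoImplicit false

namespace Pool.Agent.H573R2.TwoSq

variable {q : ℕ} [hqf : Fact q.Prime]

theorem norm_one_add_sq (hq : q % 4 = 3) (t : ℚ_[q]) (ht : ‖t‖ ≤ 1) : ‖1 + t ^ 2‖ = 1 := by
  have hle : ‖1 + t ^ 2‖ ≤ 1 := by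
    refine (Padic.nonarchimedean _ _).trans (max_le (by simp) ?_)
    rw [norm_pow]; exact pow_le_one₀ (norm_nonneg _) ht
  refine le_antisymm hle ?_
  by_contra hlt
  push Not at hlt
  let u : ℤ_[q] := ⟨t, ht⟩
  have hu : ‖(1 + u ^ 2 : ℤ_[q])‖ < 1 := hlt
  have h1 : PadicInt.toZMod (1 + u ^ 2 : ℤ_[q]) = 0 := by
    have h2 : (1 + u ^ 2 : ℤ_[q]) ∈ IsLocalRing.maximalIdeal ℤ_[q] := by
      rw [IsLocalRing.mem_maximalIdeal, PadicInt.mem_nonunits]; exact hu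
    rw [← PadicInt.ker_toZMod] at h2
    exact h2
  rw [map_add, map_one, map_pow] at h1
  have h3 := ZMod.mod_four_ne_three_of_sq_eq_neg_sq' (p := q) (x := PadicInt.toZMod u) (y := 1)
    one_ne_zero (by linear_combination h1)
  exact h3 hq

theorem norm_sq_add_sq_aux (hq : q % 4 = 3) (x y : ℚ_[q]) (h : ‖y‖ ≤ ‖x‖) :
    ‖x ^ 2 + y ^ 2‖ = ‖x‖ ^ 2 := by
  by_cases hx : x = 0
  · subst hx
    have hy : y = 0 := by simpa using h
    simp [hy]
  have e : x ^ 2 + y ^ 2 = x ^ 2 * (1 + (y / x) ^ 2) := by field_simp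
  rw [e, norm_mul, norm_one_add_sq hq, mul_one, norm_pow]
  rw [norm_div]
  exact div_le_one_of_le₀ h (norm_nonneg _)

theorem norm_sq_add_sq (hq : q % 4 = 3) (x y : ℚ_[q]) :
    ‖x ^ 2 + y ^ 2‖ = max ‖x‖ ‖y‖ ^ 2 := by
  rcases le_total ‖y‖ ‖x‖ with h | h
  · rw [norm_sq_add_sq_aux hq x y h, max_eq_left h]
  · rw [add_comm, norm_sq_add_sq_aux hq y x h, max_eq_right h]

theorem max_norm_eq (x y : ℚ_[q]) : max ‖x‖ ‖y‖ = 0 ∨ ∃ n : ℤ, max ‖x‖ ‖y‖ = (q : ℝ) ^ n := by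
  have hz : ∀ x : ℚ_[q], ‖x‖ = 0 ∨ ∃ n : ℤ, ‖x‖ = (q : ℝ) ^ n := by
    intro x
    by_cases hx : x = 0
    · left; simp [hx]
    · right; exact ⟨-x.valuation, Padic.norm_eq_zpow_neg_valuation hx⟩
  rcases le_total ‖y‖ ‖x‖ with h | h
  · rw [max_eq_left h]; exact hz x
  · rw [max_eq_right h]; exact hz y

/-- The certificate is sound: from `M + c² + d² = M (x² + y²)` and an odd valuation of `M` we get
`|c|² < |M|`. -/
theorem cert_sound (hq : q % 4 = 3) {M c d x y : ℚ_[q]} {n : ℤ} (hn : Odd n)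
    (hM : ‖M‖ = (q : ℝ) ^ n) (h : M + c ^ 2 + d ^ 2 = M * (x ^ 2 + y ^ 2)) : ‖c‖ ^ 2 < ‖M‖ := by
  have hq0 : (0 : ℝ) < q := by exact_mod_cast hqf.out.pos
  have hq1 : (1 : ℝ) < q := by exact_mod_cast hqf.out.one_lt
  have hM0 : 0 < ‖M‖ := by rw [hM]; positivity
  have hcs : ‖c‖ ≤ max ‖c‖ ‖d‖ := le_max_left _ _
  rcases max_norm_eq c d with hs | ⟨j, hs⟩
  · have : ‖c‖ = 0 := le_antisymm (hs ▸ hcs) (norm_nonneg _)
    rw [this]; simpa using hM0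
  have hs2 : ‖c ^ 2 + d ^ 2‖ = (q : ℝ) ^ (2 * j) := by
    rw [norm_sq_add_sq hq, hs, ← zpow_natCast, ← zpow_mul]; congr 1; push_cast; ring
  have hc2 : ‖c‖ ^ 2 ≤ ‖c ^ 2 + d ^ 2‖ := by
    rw [norm_sq_add_sq hq]; gcongr
  have hM2 : M = M * (x ^ 2 + y ^ 2) + -(c ^ 2 + d ^ 2) := by linear_combination h
  refine lt_of_le_of_lt hc2 ?_
  have hne : ‖c ^ 2 + d ^ 2‖ ≠ ‖M‖ := by
    rw [hs2, hM]
    intro h2
    have := zpow_right_injective₀ hq0 hq1.ne' h2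
    obtain ⟨m, hm⟩ := hn
    omega
  refine lt_of_le_of_ne ?_ hne
  rcases max_norm_eq x y with hr | ⟨i, hr⟩
  · have h0 : M * (x ^ 2 + y ^ 2) = 0 := by
      rw [← norm_eq_zero, norm_mul, norm_sq_add_sq hq, hr]; simp
    rw [h0, zero_add] at hM2
    rw [hM2, norm_neg]
  · have hr2 : ‖M * (x ^ 2 + y ^ 2)‖ = (q : ℝ) ^ (n + 2 * i) := by
      rw [norm_mul, norm_sq_add_sq hq, hr, hM, zpow_add₀ hq0.ne', ← zpow_natCast, ← zpow_mul]
      congr 2; push_cast; ring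
    have hne2 : ‖M * (x ^ 2 + y ^ 2)‖ ≠ ‖-(c ^ 2 + d ^ 2)‖ := by
      rw [norm_neg, hr2, hs2]
      intro h2
      have := zpow_right_injective₀ hq0 hq1.ne' h2
      obtain ⟨m, hm⟩ := hn
      omega
    have := Padic.add_eq_max_of_ne hne2
    rw [← hM2, norm_neg] at this
    rw [this]
    exact le_max_right _ _

end Pool.Agent.H573R2.TwoSq
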