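import Pool.Agent.H573R2.Places
import Pool.Agent.H573R2.TwoSqCert
import Pool.Agent.H573R2.TwoSqSound

/-!
# Three quantifier blocks in one existential system over the rational numbers
-/

set_option autoImplicit false
set_option linter.unusedSectionVars false

namespace Pool.Agent.H573R2.Sys3

open Finset Pool.Agent.H573R2.Places

/-- The certificate. -/
def Cert (g c : ℚ) : Prop := ∃ d x y : ℚ, g + c ^ 2 + d ^ 2 = g * (x ^ 2 + y ^ 2)

/-- The value of a literal. -/
def lv {V : Type} (v : V → ℚ) (l : Bool × V) : ℚ := if l.1 then v l.2 else 1 - v l.2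

theorem cert_of_dvd (g : ℕ) (hg : Odd g) (c : ℤ) (hc : (c : ZMod g) = 0) :
    Cert g (2 * (c : ℚ)) := by
  obtain ⟨k, hk⟩ := (ZMod.intCast_zmod_eq_zero_iff_dvd c g).1 hc
  obtain ⟨d, x, y, h⟩ := TwoSq.cert_complete g hg (2 * k) (even_two_mul k)
  refine ⟨g * d, x, y, ?_⟩
  have hkQ : (c : ℚ) = g * k := by exact_mod_cast hk
  rw [← h, hkQ]
  push_cast
  ring

section Local

variable {q : ℕ} [Fact q.Prime]

theorem cert_local (hq : q % 4 = 3) {g : ℕ} (hg : g ≠ 0)
    (hodd : Odd (g.factorization q)) {c : ℚ} (h : Cert g c) : ‖(c : ℚ_[q])‖ < 1 := by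
  obtain ⟨d, x, y, h⟩ := h
  have hqp : q.Prime := Fact.out
  have hM : ‖((g : ℕ) : ℚ_[q])‖ = (q : ℝ) ^ (-(g.factorization q : ℤ)) := by
    rw [Padic.norm_eq_zpow_neg_valuation (by exact_mod_cast hg), Padic.valuation_natCast,
      Nat.factorization_def _ hqp]
  have hn : Odd (-(g.factorization q : ℤ)) := by
    rw [odd_neg]; exact_mod_cast hodd
  have h1 : ((g : ℕ) : ℚ_[q]) + (c : ℚ_[q]) ^ 2 + (d : ℚ_[q]) ^ 2 =
      ((g : ℕ) : ℚ_[q]) * ((x : ℚ_[q]) ^ 2 + (y : ℚ_[q]) ^ 2) := by exact_mod_cast h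
  have h2 := TwoSq.cert_sound hq hn hM h1
  have h3 : ‖((g : ℕ) : ℚ_[q])‖ ≤ 1 := by
    have := Padic.norm_int_le_one (p := q) (g : ℤ)
    simpa using this
  have h4 : ‖(c : ℚ_[q])‖ ^ 2 < 1 := h2.trans_le h3
  by_contra h5
  push Not at h5
  have : (1 : ℝ) ≤ ‖(c : ℚ_[q])‖ ^ 2 := one_le_pow₀ h5
  linarith

theorem norm_nat_eq_one {n : ℕ} (hn : ¬ q ∣ n) : ‖((n : ℕ) : ℚ_[q])‖ = 1 := by
  have hqp : q.Prime := Fact.out
  exact Padic.norm_natCast_eq_one_iff.2 ((Nat.Prime.coprime_iff_not_dvd hqp).2 hn)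

theorem norm_two (hq : q % 4 = 3) : ‖(2 : ℚ_[q])‖ = 1 := by
  have h2 : ¬ q ∣ 2 := by
    intro h
    have := Nat.le_of_dvd (by norm_num) h
    omega
  exact_mod_cast norm_nat_eq_one h2

theorem norm_lt_of_dvd {n : ℤ} (hn : (q : ℤ) ∣ n) : ‖((n : ℤ) : ℚ_[q])‖ < 1 := by
  exact (Padic.norm_intCast_lt_one_iff).2 hn

theorem cert_two (hq : q % 4 = 3) {g : ℕ} (hg : g ≠ 0)
    (hodd : Odd (g.factorization q)) {c : ℚ} (h : Cert g (2 * c)) : ‖(c : ℚ_[q])‖ < 1 := by
  have h1 := cert_local hq hg hodd h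
  rw [Rat.cast_mul, norm_mul] at h1
  have h2 : ‖((2 : ℚ) : ℚ_[q])‖ = 1 := by
    rw [Rat.cast_ofNat]; exact norm_two hq
  rwa [h2, one_mul] at h1

theorem norm_one_sub {t : ℚ_[q]} (ht : ‖t‖ < 1) : ‖1 - t‖ = 1 := by
  have h1 : ‖(1 : ℚ_[q]) - t‖ = max ‖(1 : ℚ_[q])‖ ‖-t‖ := by
    rw [sub_eq_add_neg]
    apply Padic.add_eq_max_of_ne
    rw [norm_one, norm_neg]
    exact ht.ne'
  rw [h1, norm_one, norm_neg]
  exact max_eq_left ht.le

/-- A true literal at a place. -/
theorem clause_local {V : Type} (v : V → ℚ) (t : V → Bool)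
    (h1 : ∀ a, t a = true → ‖((1 - v a : ℚ) : ℚ_[q])‖ < 1)
    (h0 : ∀ a, t a = false → ‖((v a : ℚ) : ℚ_[q])‖ < 1) (C : List (Bool × V))
    (hC : ‖(((C.map (fun l => 1 - lv v l)).prod : ℚ) : ℚ_[q])‖ < 1) :
    ∃ l ∈ C, t l.2 = l.1 := by
  induction C with
  | nil => simp at hC
  | cons l C ih =>
    rw [List.map_cons, List.prod_cons, Rat.cast_mul, norm_mul] at hC
    by_cases hl : t l.2 = l.1
    · exact ⟨l, by simp, hl⟩
    · have h2 : ‖((lv v l : ℚ) : ℚ_[q])‖ < 1 := by
        unfold lv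
        rcases hb : l.1 with _ | _
        · have : t l.2 = true := by rw [hb] at hl; simpa using hl
          simpa using h1 _ this
        · have : t l.2 = false := by rw [hb] at hl; simpa using hl
          simpa using h0 _ this
      have h3 : ‖((1 - lv v l : ℚ) : ℚ_[q])‖ = 1 := by
        rw [Rat.cast_sub, Rat.cast_one]
        exact norm_one_sub h2
      rw [h3, one_mul] at hC
      obtain ⟨l', hl', h4⟩ := ih hC
      exact ⟨l', by simp [hl'], h4⟩

end Local

variable {ζ ι κ : Type} [Fintype ι] [DecidableEq ι] {m : ι → ℕ} {b : ℕ}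

/-- The system of equations. -/
def Sys (m : ι → ℕ) (b : ℕ) (cl : List (List (Bool × (ζ ⊕ ι ⊕ κ)))) (z : ζ → ℚ) (X : ℚ)
    (w B E : ι → ℚ) (Y : κ → ℚ) : Prop :=
  (∀ i, z i * z i = z i) ∧ X = (b : ℚ) ^ (∏ i, m i) ∧ (∀ i, w i ^ m i = X) ∧
  (∀ i, B i * (w i + 1) = X + 1) ∧ (∀ i, Cert (X + 1) (2 * (m i * E i - B i))) ∧
  (∀ j, Cert (X + 1) (2 * (Y j * (Y j - 1)))) ∧
  ∀ C ∈ cl, Cert (X + 1) (2 * (C.map (fun l => 1 - lv (Sum.elim z (Sum.elim E Y)) l)).prod)

theorem root_unique (h : Adm m b) {X : ℚ} (hX : X = (b : ℚ) ^ (∏ i, m i)) {w : ℚ} (i : ι)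
    (hw : w ^ m i = X) : w = ((b ^ (∏ j ∈ univ.erase i, m j) : ℕ) : ℚ) := by
  have h1 : (((b ^ (∏ j ∈ univ.erase i, m j) : ℕ) : ℚ)) ^ m i = X := by
    rw [hX]
    push_cast
    rw [← pow_mul, Finset.prod_erase_mul _ _ (mem_univ i)]
  exact (h.odd i).strictMono_pow.injective (hw.trans h1.symm)

theorem sound (h : Adm m b) (cl : List (List (Bool × (ζ ⊕ ι ⊕ κ)))) {z : ζ → ℚ} {X : ℚ}
    {w B E : ι → ℚ} {Y : κ → ℚ} (hS : Sys m b cl z X w B E Y) :
    ∃ z : ζ → Bool, ∀ x : ι → Bool, ∃ y : κ → Bool, ∀ C ∈ cl, ∃ l ∈ C,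
      Sum.elim z (Sum.elim x y) l.2 = l.1 := by
  classical
  obtain ⟨hz, hX, hw, hB, hE, hY, hC⟩ := hS
  have hXG : X + 1 = ((G m b univ : ℕ) : ℚ) := by
    rw [hX]; unfold G; push_cast; ring
  rw [hXG] at hE hY hC
  refine ⟨fun i => decide (z i = 1), fun x => ?_⟩
  obtain ⟨q, hqp, hq4, hodd, hd, hsupp⟩ := h.exists_place (univ.filter (fun i => x i = false))
  have hqf : Fact q.Prime := ⟨hqp⟩
  have hG0 : G m b univ ≠ 0 := Nat.succ_ne_zero _
  refine ⟨fun j => decide (‖((1 - Y j : ℚ) : ℚ_[q])‖ < 1), fun C hCc => ?_⟩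
  have hC1 := cert_two hq4 hG0 hodd (hC C hCc)
  refine clause_local (q := q) (Sum.elim z (Sum.elim E Y)) _ ?_ ?_ C hC1
  · rintro (a | a | a) ht
    · simp only [Sum.elim_inl, decide_eq_true_eq] at ht ⊢
      simp [ht]
    · simp only [Sum.elim_inr, Sum.elim_inl] at ht ⊢
      -- x a = true: `q ∣ A a`
      have hA : q ∣ G m b (univ.erase a) := (hsupp a).2 (by simp [ht])
      have hwa := root_unique h hX a (hw a)
      have hBa := hB a
      have hEa := cert_two hq4 hG0 hodd (hE a)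
      have hBq : ‖((m a - B a : ℚ) : ℚ_[q])‖ < 1 := by
        -- geometric sum
        set W : ℤ := ((b ^ (∏ j ∈ univ.erase a, m j) : ℕ) : ℤ) with hW
        have hwW : w a = (W : ℚ) := by rw [hwa, hW]; push_cast; rfl
        have hW1 : (W + 1 : ℤ) = ((G m b (univ.erase a) : ℕ) : ℤ) := by
          rw [hW]; unfold G; push_cast; rfl
        have hW0 : (W : ℚ) + 1 ≠ 0 := by
          have h5 : (W + 1 : ℤ) ≠ 0 := by
            rw [hW1]
            have h51 : G m b (univ.erase a) ≠ 0 := Nat.succ_ne_zero _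
            exact_mod_cast h51
          exact_mod_cast h5
        have hBs : B a = ((∑ k ∈ range (m a), (-W) ^ k : ℤ) : ℚ) := by
          have h6 := mul_geom_sum (-W) (m a)
          have h7 : (-(W : ℚ) - 1) * ((∑ k ∈ range (m a), (-W) ^ k : ℤ) : ℚ) =
              (-(W : ℚ)) ^ m a - 1 := by exact_mod_cast h6
          rw [(h.odd a).neg_pow, ← hwW, hw a, hwW] at h7
          rw [hwW] at hBa
          have h8 : B a * ((W : ℚ) + 1) =
              ((∑ k ∈ range (m a), (-W) ^ k : ℤ) : ℚ) * ((W : ℚ) + 1) := by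
            rw [hBa]; linear_combination h7
          exact mul_right_cancel₀ hW0 h8
        have h9 : (W + 1) ∣ ((m a : ℤ) - ∑ k ∈ range (m a), (-W) ^ k) := by
          have h10 : ((m a : ℤ) - ∑ k ∈ range (m a), (-W) ^ k) =
              ∑ k ∈ range (m a), (1 - (-W) ^ k) := by
            rw [Finset.sum_sub_distrib]; simp
          rw [h10]
          apply Finset.dvd_sum
          intro k _
          have := sub_dvd_pow_sub_pow 1 (-W) k
          rw [one_pow] at this
          have h11 : (1 : ℤ) - -W = W + 1 := by ring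
          rwa [h11] at this
        have h12 : (q : ℤ) ∣ ((m a : ℤ) - ∑ k ∈ range (m a), (-W) ^ k) := by
          refine dvd_trans ?_ h9
          rw [hW1]; exact_mod_cast hA
        have h13 := norm_lt_of_dvd (q := q) h12
        rw [hBs]
        push_cast at h13 ⊢
        exact h13
      have h14 : ‖((m a : ℚ_[q])) * ((1 - E a : ℚ) : ℚ_[q])‖ < 1 := by
        have h15 : ((m a : ℚ_[q])) * ((1 - E a : ℚ) : ℚ_[q]) =
            ((m a - B a : ℚ) : ℚ_[q]) + (-((m a * E a - B a : ℚ) : ℚ_[q])) := by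
          push_cast; ring
        rw [h15]
        refine (Padic.nonarchimedean _ _).trans_lt (max_lt hBq ?_)
        rw [norm_neg]; exact hEa
      rwa [norm_mul, norm_nat_eq_one (h.not_dvd_m hqp hd a), one_mul] at h14
    · simpa using ht
  · rintro (a | a | a) ht
    · simp only [Sum.elim_inl, decide_eq_false_iff_not] at ht ⊢
      have h5 : z a = 0 := by
        have h6 : z a * (z a - 1) = 0 := by rw [mul_sub, hz a]; ring
        rcases mul_eq_zero.1 h6 with h7 | h7
        · exact h7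
        · exact absurd (by linarith) ht
      simp [h5]
    · simp only [Sum.elim_inr, Sum.elim_inl] at ht ⊢
      -- x a = false: `q ∤ A a`
      have hA : ¬ q ∣ G m b (univ.erase a) := by
        rw [hsupp a]; simp [ht]
      have hwa := root_unique h hX a (hw a)
      have hBa := hB a
      have hEa := cert_two hq4 hG0 hodd (hE a)
      have hBq : ‖((B a : ℚ) : ℚ_[q])‖ < 1 := by
        have h6 : w a + 1 = ((G m b (univ.erase a) : ℕ) : ℚ) := by
          rw [hwa]; unfold G; push_cast; ring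
        rw [h6, hXG] at hBa
        have h7 : ‖((B a : ℚ) : ℚ_[q])‖ * ‖(((G m b (univ.erase a) : ℕ) : ℚ) : ℚ_[q])‖ =
            ‖(((G m b univ : ℕ) : ℚ) : ℚ_[q])‖ := by
          rw [← norm_mul, ← Rat.cast_mul, hBa]
        rw [Rat.cast_natCast, Rat.cast_natCast, norm_nat_eq_one hA, mul_one] at h7
        rw [h7]
        have := norm_lt_of_dvd (q := q) (n := ((G m b univ : ℕ) : ℤ)) (by exact_mod_cast hd)
        simpa using this
      have h14 : ‖((m a : ℚ_[q])) * ((E a : ℚ) : ℚ_[q])‖ < 1 := by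
        have h15 : ((m a : ℚ_[q])) * ((E a : ℚ) : ℚ_[q]) =
            ((B a : ℚ) : ℚ_[q]) + ((m a * E a - B a : ℚ) : ℚ_[q]) := by
          push_cast; ring
        rw [h15]
        exact (Padic.nonarchimedean _ _).trans_lt (max_lt hBq hEa)
      rwa [norm_mul, norm_nat_eq_one (h.not_dvd_m hqp hd a), one_mul] at h14
    · simp only [Sum.elim_inr, decide_eq_false_iff_not] at ht ⊢
      have hYa := cert_two hq4 hG0 hodd (hY a)
      rw [Rat.cast_mul, norm_mul] at hYa
      have h5 : ‖((Y a - 1 : ℚ) : ℚ_[q])‖ = ‖((1 - Y a : ℚ) : ℚ_[q])‖ := by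
        rw [← norm_neg]; congr 1; push_cast; ring
      rw [h5] at hYa
      push Not at ht
      have h6 : 0 ≤ ‖((Y a : ℚ) : ℚ_[q])‖ := norm_nonneg _
      nlinarith [h6, ht, hYa]

section Idem

variable {R : Type} [CommRing R]

/-- The value of a truth value. -/
def bv (R : Type) [CommRing R] (c : Bool) : R := if c then 1 else 0

/-- The idempotent of a point. -/
def eps (e : ι → R) (x : ι → Bool) : R := ∏ i, if x i then e i else 1 - e i

theorem sum_eps (e : ι → R) : ∑ x : ι → Bool, eps e x = 1 := by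
  unfold eps
  have h1 := Finset.prod_univ_sum (fun _ : ι => (univ : Finset Bool))
    (fun i (s : Bool) => if s then e i else 1 - e i)
  rw [Fintype.piFinset_univ] at h1
  rw [← h1]
  apply prod_eq_one
  intro i _
  simp

theorem eps_mul_e (e : ι → R) (he : ∀ i, e i * e i = e i) (x : ι → Bool) (i : ι) :
    eps e x * e i = eps e x * bv R (x i) := by
  unfold eps bv
  rw [← Finset.prod_erase_mul _ _ (mem_univ i), mul_assoc, mul_assoc]
  congr 1
  cases x i
  · simp only [Bool.false_eq_true, if_false]; rw [sub_mul, he i]; ring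
  · simp only [if_true]; rw [he i]; ring

theorem eps_mul_eps_ne (e : ι → R) (he : ∀ i, e i * e i = e i) {x x' : ι → Bool} (hx : x ≠ x') :
    eps e x * eps e x' = 0 := by
  obtain ⟨i, hi⟩ := Function.ne_iff.1 hx
  have h1 : eps e x * eps e x' * e i = eps e x * eps e x' * bv R (x' i) := by
    rw [mul_assoc, eps_mul_e e he x' i, ← mul_assoc]
  have h2 : eps e x * eps e x' * e i = eps e x * eps e x' * bv R (x i) := by
    rw [mul_right_comm, eps_mul_e e he x i, mul_right_comm]
  rw [h1] at h2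
  cases hxi : x i <;> cases hxi' : x' i
  · rw [hxi, hxi'] at hi; exact absurd rfl hi
  · simpa [hxi, hxi', bv] using h2
  · simpa [hxi, hxi', bv] using h2.symm
  · rw [hxi, hxi'] at hi; exact absurd rfl hi

theorem eps_mul_eps_self (e : ι → R) (he : ∀ i, e i * e i = e i) (x : ι → Bool) :
    eps e x * eps e x = eps e x := by
  have h1 : eps e x * ∑ x', eps e x' = eps e x := by rw [sum_eps, mul_one]
  rw [Finset.mul_sum, Finset.sum_eq_single x] at h1
  · exact h1
  · intro x' _ hx'; exact eps_mul_eps_ne e he (Ne.symm hx')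
  · intro h; exact absurd (mem_univ x) h

/-- The element with prescribed values. -/
def comb (e : ι → R) (f : (ι → Bool) → Bool) : R := ∑ x, if f x then eps e x else 0

theorem eps_mul_comb (e : ι → R) (he : ∀ i, e i * e i = e i) (f : (ι → Bool) → Bool)
    (x : ι → Bool) : eps e x * comb e f = eps e x * bv R (f x) := by
  unfold comb bv
  rw [Finset.mul_sum, Finset.sum_eq_single x]
  · cases f x <;> simp [eps_mul_eps_self e he x]
  · intro x' _ hx'
    cases f x'
    · simp
    · simpa using eps_mul_eps_ne e he (Ne.symm hx')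
  · intro h; exact absurd (mem_univ x) h

theorem eq_zero_of_eps (e : ι → R) (r : R) (hr : ∀ x, eps e x * r = 0) : r = 0 := by
  have h1 : (∑ x, eps e x) * r = r := by rw [sum_eps, one_mul]
  rw [← h1, Finset.sum_mul]
  exact Finset.sum_eq_zero (fun x _ => hr x)

theorem comb_idem (e : ι → R) (he : ∀ i, e i * e i = e i) (f : (ι → Bool) → Bool) :
    comb e f * (comb e f - 1) = 0 := by
  apply eq_zero_of_eps e
  intro x
  rw [← mul_assoc, eps_mul_comb e he, mul_assoc, mul_comm _ (comb e f - 1), ← mul_assoc, mul_sub,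
    eps_mul_comb e he]
  unfold bv
  cases f x <;> simp

end Idem

theorem complete (h : Adm m b) (cl : List (List (Bool × (ζ ⊕ ι ⊕ κ)))) (z : ζ → Bool)
    (hz : ∀ x : ι → Bool, ∃ y : κ → Bool, ∀ C ∈ cl, ∃ l ∈ C,
      Sum.elim z (Sum.elim x y) l.2 = l.1) :
    ∃ (z : ζ → ℚ) (X : ℚ) (w B E : ι → ℚ) (Y : κ → ℚ), Sys m b cl z X w B E Y := by
  classical
  choose y hy using hz
  set g := G m b univ with hg
  have hgodd : Odd g := h.G_odd univ
  have hg0 : g ≠ 0 := Nat.succ_ne_zero _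
  have : NeZero g := ⟨hg0⟩
  set W : ι → ℤ := fun i => ((b ^ (∏ j ∈ univ.erase i, m j) : ℕ) : ℤ) with hW
  set Bz : ι → ℤ := fun i => ∑ k ∈ range (m i), (-(W i)) ^ k with hBz
  have hWm : ∀ i, W i ^ m i = (b : ℤ) ^ (∏ i, m i) := by
    intro i
    simp only [hW]
    push_cast
    rw [← pow_mul, Finset.prod_erase_mul _ _ (mem_univ i)]
  have hgz : (g : ℤ) = (b : ℤ) ^ (∏ i, m i) + 1 := by
    rw [hg]; unfold G; push_cast; rfl
  have hBW : ∀ i, Bz i * (W i + 1) = (g : ℤ) := by
    intro i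
    have h6 := mul_geom_sum (-(W i)) (m i)
    rw [(h.odd i).neg_pow, hWm i] at h6
    rw [hgz]
    simp only [hBz]
    linear_combination -h6
  -- idempotents
  set e : ι → ZMod g := fun i => (Bz i : ZMod g) * (m i : ZMod g)⁻¹ with he
  have hcop : ∀ i, (m i).Coprime g := by
    intro i
    apply Nat.Coprime.symm
    apply Nat.Coprime.coprime_dvd_right (h.dvd i)
    rw [hg]; unfold G
    have : Nat.Coprime (b ^ (∏ i, m i) + 1) b := by
      have h1 : ∃ t, b ^ (∏ i, m i) = t * b := by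
        obtain ⟨t, ht⟩ := Nat.exists_eq_add_of_le (h.odd_prod univ).pos
        exact ⟨b ^ t, by rw [ht, pow_add]; ring⟩
      obtain ⟨t, ht⟩ := h1
      rw [ht, Nat.Coprime, Nat.gcd_comm, Nat.gcd_mul_right_add_right]
      exact Nat.gcd_one_right b
    exact this
  have hinv : ∀ i, (m i : ZMod g) * (m i : ZMod g)⁻¹ = 1 := fun i =>
    ZMod.coe_mul_inv_eq_one (m i) (hcop i)
  have hgz0 : ((g : ℤ) : ZMod g) = 0 := by push_cast; exact ZMod.natCast_self g
  have hBB : ∀ i, (Bz i : ZMod g) * ((Bz i : ZMod g) - m i) = 0 := by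
    intro i
    have h9 : (W i + 1) ∣ (Bz i - (m i : ℤ)) := by
      have h10 : (Bz i - (m i : ℤ)) = ∑ k ∈ range (m i), ((-(W i)) ^ k - 1) := by
        rw [Finset.sum_sub_distrib]; simp [hBz]
      rw [h10]
      apply Finset.dvd_sum
      intro k _
      have := sub_dvd_pow_sub_pow (-(W i)) 1 k
      rw [one_pow] at this
      have h11 : -(W i) - 1 = -(W i + 1) := by ring
      rw [h11] at this
      exact (neg_dvd).1 this
    obtain ⟨t, ht⟩ := h9
    have h12 : (Bz i * (Bz i - (m i : ℤ)) : ℤ) = (g : ℤ) * t := by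
      rw [ht, ← hBW i]; ring
    have h13 : ((Bz i * (Bz i - (m i : ℤ)) : ℤ) : ZMod g) = 0 := by
      rw [h12, Int.cast_mul, hgz0, zero_mul]
    push_cast at h13
    exact h13
  have hee : ∀ i, e i * e i = e i := by
    intro i
    simp only [he]
    have h1 := hBB i
    have h2 := hinv i
    linear_combination (m i : ZMod g)⁻¹ ^ 2 * h1 + (Bz i : ZMod g) * (m i : ZMod g)⁻¹ * h2
  have hme : ∀ i, (m i : ZMod g) * e i = Bz i := by
    intro i
    simp only [he]
    linear_combination (Bz i : ZMod g) * hinv i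
  -- the integers
  set Ei : ι → ℤ := fun i => ((e i).val : ℤ) with hEi
  have hEc : ∀ i, ((Ei i : ℤ) : ZMod g) = e i := by
    intro i; simp only [hEi]; rw [Int.cast_natCast, ZMod.natCast_zmod_val]
  set yc : κ → ZMod g := fun j => comb e (fun x => y x j) with hyc
  set Yi : κ → ℤ := fun j => ((yc j).val : ℤ) with hYi
  have hYc : ∀ j, ((Yi j : ℤ) : ZMod g) = yc j := by
    intro j; simp only [hYi]; rw [Int.cast_natCast, ZMod.natCast_zmod_val]
  set zi : ζ → ℤ := fun i => if z i then 1 else 0 with hzi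
  have hXg : ((b : ℚ) ^ (∏ i, m i)) + 1 = ((g : ℕ) : ℚ) := by exact_mod_cast hgz.symm
  refine ⟨fun i => zi i, (b : ℚ) ^ (∏ i, m i), fun i => W i, fun i => Bz i, fun i => Ei i,
    fun j => Yi j, ?_, rfl, ?_, ?_, ?_, ?_, ?_⟩
  · intro i
    simp only [hzi]
    cases z i <;> simp
  · intro i
    change ((W i : ℤ) : ℚ) ^ m i = _
    exact_mod_cast hWm i
  · intro i
    rw [hXg]
    change ((Bz i : ℤ) : ℚ) * (((W i : ℤ) : ℚ) + 1) = _
    exact_mod_cast hBW i
  · intro i
    rw [hXg]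
    have h1 := cert_of_dvd g hgodd (m i * Ei i - Bz i) (by
      push_cast; rw [hEc, hme]; ring)
    push_cast at h1
    exact h1
  · intro j
    rw [hXg]
    have h1 := cert_of_dvd g hgodd (Yi j * (Yi j - 1)) (by
      push_cast; rw [hYc]; exact comb_idem e hee _)
    push_cast at h1
    exact h1
  · intro C hC
    rw [hXg]
    -- values of all variables
    set v : ζ ⊕ ι ⊕ κ → ℤ := Sum.elim zi (Sum.elim Ei Yi) with hv
    have hvQ : (Sum.elim (fun i => (zi i : ℚ)) (Sum.elim (fun i => (Ei i : ℚ))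
        (fun j => (Yi j : ℚ)))) = fun a => ((v a : ℤ) : ℚ) := by
      funext a
      rcases a with a | a | a <;> simp [hv]
    rw [hvQ]
    have hprod : ∀ C : List (Bool × (ζ ⊕ ι ⊕ κ)),
        (C.map (fun l => 1 - lv (fun a => ((v a : ℤ) : ℚ)) l)).prod =
        (((C.map (fun l => 1 - (if l.1 then v l.2 else 1 - v l.2))).prod : ℤ) : ℚ) := by
      intro C
      induction C with
      | nil => simp
      | cons l C ih =>
        rw [List.map_cons, List.prod_cons, List.map_cons, List.prod_cons, ih]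
        unfold lv
        rcases l.1 <;> push_cast <;> simp
    rw [hprod]
    apply cert_of_dvd g hgodd
    apply eq_zero_of_eps e
    intro x
    obtain ⟨l, hl, hlt⟩ := hy x C hC
    have hval : ∀ a, eps e x * ((v a : ℤ) : ZMod g) =
        eps e x * bv (ZMod g) (Sum.elim z (Sum.elim x (y x)) a) := by
      rintro (a | a | a)
      · simp only [hv, Sum.elim_inl, hzi]
        cases z a <;> simp [bv]
      · simp only [hv, Sum.elim_inr, Sum.elim_inl]
        rw [hEc, eps_mul_e e hee]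
      · simp only [hv, Sum.elim_inr]
        rw [hYc]
        simp only [hyc]
        rw [eps_mul_comb e hee]
    have hfac : eps e x * ((1 - (if l.1 then v l.2 else 1 - v l.2) : ℤ) : ZMod g) = 0 := by
      have h1 := hval l.2
      rw [hlt] at h1
      rcases hb : l.1 with _ | _
      · rw [hb] at h1
        simp only [bv, Bool.false_eq_true, if_false] at h1 ⊢
        push_cast
        linear_combination h1
      · rw [hb] at h1
        simp only [bv, if_true] at h1 ⊢
        push_cast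
        linear_combination -h1
    obtain ⟨s, t, rfl⟩ := List.append_of_mem hl
    rw [List.map_append, List.prod_append, List.map_cons, List.prod_cons, Int.cast_mul,
      Int.cast_mul]
    linear_combination ((((List.map (fun l => 1 - (if l.1 then v l.2 else 1 - v l.2)) s).prod : ℤ) :
      ZMod g) * (((List.map (fun l => 1 - (if l.1 then v l.2 else 1 - v l.2)) t).prod : ℤ) :
      ZMod g)) * hfac

theorem sys3_iff (h : Adm m b) (cl : List (List (Bool × (ζ ⊕ ι ⊕ κ)))) :
    (∃ z : ζ → Bool, ∀ x : ι → Bool, ∃ y : κ → Bool, ∀ C ∈ cl, ∃ l ∈ C,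
      Sum.elim z (Sum.elim x y) l.2 = l.1) ↔
    ∃ (z : ζ → ℚ) (X : ℚ) (w B E : ι → ℚ) (Y : κ → ℚ), Sys m b cl z X w B E Y := by
  constructor
  · rintro ⟨z, hz⟩
    exact complete h cl z hz
  · rintro ⟨z, X, w, B, E, Y, hS⟩
    exact sound h cl hS

end Pool.Agent.H573R2.Sys3
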