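import Pool.Agent.H573R2.ParMain

/-!
# Three quantifier blocks and one parity in one existential system over the rational numbers

For two CNFs `c1`, `c0` over outer variables, place variables and inner variables the system below
is solvable over the rational numbers if and only if there are an outer assignment `z` and a set
`A` with an odd number of elements such that every `x ∈ A` has a `y` with `c1 (z, x, y)` and every
`x ∉ A` has a `y` with `c0 (z, x, y)`.
-/

set_option autoImplicit false
set_option linter.unusedSectionVars false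

namespace Pool.Agent.H573R2.SysQ

open Finset Pool.Agent.H573R2.Places Pool.Agent.H573R2.Sys3 Pool.Agent.H573R2.Par

variable {ζ ι κ : Type} [Fintype ι] [DecidableEq ι] {m : ι → ℕ} {b : ℕ}

/-- Both certificates. -/
def CC (g c : ℚ) : Prop := Cert g c ∧ Cert' g c

/-- The product of a clause. -/
def cprod {V : Type} (v : V → ℚ) (C : List (Bool × V)) : ℚ := (C.map (fun l => 1 - lv v l)).prod

/-- The system of equations. -/
def SQ (m : ι → ℕ) (b : ℕ) (c1 c0 : List (List (Bool × (ζ ⊕ ι ⊕ κ)))) (z : ζ → ℚ) (X : ℚ)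
    (w B E : ι → ℚ) (Y : κ → ℚ) (e f U : ℚ) : Prop :=
  (∀ i, z i * z i = z i) ∧ X = (b : ℚ) ^ (∏ i, m i) ∧ (∀ i, w i ^ m i = X) ∧
  (∀ i, B i * (w i + 1) = X + 1) ∧ (∀ i, Cert (X + 1) (2 * (m i * E i - B i))) ∧
  (∀ j, Cert (X + 1) (2 * (Y j * (Y j - 1)))) ∧
  e * f = X + 1 ∧ 0 < e ∧ CC e (2 * U) ∧ CC f (2 * (1 - U)) ∧
  (∀ C ∈ c1, CC e (2 * cprod (Sum.elim z (Sum.elim E Y)) C)) ∧
  (∀ C ∈ c0, CC f (2 * cprod (Sum.elim z (Sum.elim E Y)) C)) ∧
  Cert' 3 ((e + 1) / 8)

/-- The places over the subset `S`. -/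
def TS (m : ι → ℕ) (b : ℕ) (S : Finset ι) : Finset ℕ :=
  (G m b univ).primeFactors.filter (fun q => q % 4 = 3 ∧ Odd ((G m b univ).factorization q) ∧
    supp m b q = S)

theorem card_TS (h : Adm m b) (S : Finset ι) : Odd (TS m b S).card := by
  have h1 := h.chi_P S
  rw [chi_P_prod] at h1
  have h2 : ∏ q ∈ (G m b univ).primeFactors with supp m b q = S,
      ZMod.χ₄ ((q : ℕ) : ZMod 4) ^ (G m b univ).factorization q =
      ∏ q ∈ (G m b univ).primeFactors.filter (fun q => supp m b q = S),
        (if q % 4 = 3 ∧ Odd ((G m b univ).factorization q) then (-1 : ℤ) else 1) := by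
    apply prod_congr rfl
    intro q hq
    simp only [mem_filter] at hq
    have hqo : Odd q := Odd.of_dvd_nat (h.G_odd univ) (Nat.dvd_of_mem_primeFactors hq.1)
    rcases Nat.odd_mod_four_iff.1 (Nat.odd_iff.1 hqo) with h4 | h4
    · rw [ZMod.χ₄_nat_one_mod_four h4, if_neg (by omega), one_pow]
    · rw [ZMod.χ₄_nat_three_mod_four h4]
      rcases Nat.even_or_odd ((G m b univ).factorization q) with h5 | h5
      · rw [h5.neg_one_pow, if_neg]
        rintro ⟨_, h6⟩
        exact (Nat.not_odd_iff_even.2 h5) h6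
      · rw [h5.neg_one_pow, if_pos ⟨h4, h5⟩]
  rw [h2, ← prod_filter, prod_const, filter_filter] at h1
  have h3 : (G m b univ).primeFactors.filter (fun q => supp m b q = S ∧
      (q % 4 = 3 ∧ Odd ((G m b univ).factorization q))) = TS m b S := by
    unfold TS
    apply filter_congr
    intro q _
    tauto
  rw [h3] at h1
  rcases Nat.even_or_odd (TS m b S).card with h5 | h5
  · rw [h5.neg_one_pow] at h1; norm_num at h1
  · exact h5

theorem global_parity' (N : ℕ) (hN : Odd N)
    (hloc : ∀ q : ℕ, q.Prime → q % 4 = 3 → Odd (N.factorization q) →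
      Odd ((G m b univ).factorization q)) :
    ZMod.χ₄ ((N : ℕ) : ZMod 4) = (-1) ^ (univ.filter (fun S =>
      Odd ((TS m b S).filter (fun q => Odd (N.factorization q))).card)).card := by
  have hN0 : N ≠ 0 := hN.pos.ne'
  have hG0 : G m b univ ≠ 0 := Nat.succ_ne_zero _
  have h1 : ZMod.χ₄ ((N : ℕ) : ZMod 4) = (-1) ^ (N.primeFactors.filter
      (fun q => q % 4 = 3 ∧ Odd (N.factorization q))).card := by
    rw [chi_prod N hN0, ← prod_const, prod_filter]
    apply prod_congr rfl
    intro q hq
    have hqo : Odd q := Odd.of_dvd_nat hN (Nat.dvd_of_mem_primeFactors hq)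
    rcases Nat.odd_mod_four_iff.1 (Nat.odd_iff.1 hqo) with h4 | h4
    · rw [ZMod.χ₄_nat_one_mod_four h4, if_neg (by omega), one_pow]
    · rw [ZMod.χ₄_nat_three_mod_four h4]
      rcases Nat.even_or_odd (N.factorization q) with h5 | h5
      · rw [h5.neg_one_pow, if_neg]
        rintro ⟨_, h6⟩
        exact (Nat.not_odd_iff_even.2 h5) h6
      · rw [h5.neg_one_pow, if_pos ⟨h4, h5⟩]
  have h2 : N.primeFactors.filter (fun q => q % 4 = 3 ∧ Odd (N.factorization q)) =
      (univ : Finset (Finset ι)).biUnion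
        (fun S => (TS m b S).filter (fun q => Odd (N.factorization q))) := by
    ext q
    simp only [mem_filter, mem_biUnion, mem_univ, true_and, TS]
    constructor
    · rintro ⟨h3, h4, h5⟩
      have h6 := hloc q (Nat.prime_of_mem_primeFactors h3) h4 h5
      refine ⟨supp m b q, ⟨?_, h4, h6, rfl⟩, h5⟩
      rw [← Nat.support_factorization, Finsupp.mem_support_iff]
      exact h6.pos.ne'
    · rintro ⟨S, ⟨_, h4, _, _⟩, h5⟩
      refine ⟨?_, h4, h5⟩
      rw [← Nat.support_factorization, Finsupp.mem_support_iff]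
      exact h5.pos.ne'
  rw [h1, h2, card_biUnion]
  · rw [← prod_pow_eq_pow_sum, ← prod_const, prod_filter]
    apply prod_congr rfl
    intro S _
    split_ifs with h3
    · exact h3.neg_one_pow
    · exact (Nat.not_odd_iff_even.1 h3).neg_one_pow
  · intro S _ S' _ hne
    simp only [Function.onFun]
    rw [disjoint_left]
    intro q hq hq'
    simp only [mem_filter, TS] at hq hq'
    exact hne (hq.1.2.2.2.symm.trans hq'.1.2.2.2)

/-- The set of the zeros of a point. -/
def zs (x : ι → Bool) : Finset ι := univ.filter (fun i => x i = false)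

theorem not_mem_zs (x : ι → Bool) : (fun i => decide (i ∉ zs x)) = x := by
  funext i
  simp only [zs, mem_filter, mem_univ, true_and]
  cases x i <;> simp

theorem card_zs (pr : Finset ι → Prop) [DecidablePred pr] :
    (univ.filter (fun x : ι → Bool => pr (zs x))).card = (univ.filter pr).card := by
  refine Finset.card_bij' (fun x _ => zs x) (fun S _ => fun i => decide (i ∉ S)) ?_ ?_ ?_ ?_
  · intro x hx
    simp only [mem_filter, mem_univ, true_and] at hx ⊢
    exact hx
  · intro S hS
    simp only [mem_filter, mem_univ, true_and] at hS ⊢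
    have : zs (fun i => decide (i ∉ S)) = S := by ext i; simp [zs]
    rw [this]; exact hS
  · intro x _
    exact not_mem_zs x
  · intro S _
    ext i; simp [zs]

theorem odd_fact_iff {e : ℚ} (hnum : 0 < e.num) {q : ℕ} (hqp : q.Prime) :
    Odd ((e.num.natAbs * e.den).factorization q) ↔ Odd (padicValRat q e) := by
  have h6 : (((e.num.natAbs * e.den).factorization q : ℕ) : ℤ) =
      (padicValInt q e.num : ℤ) + (padicValNat q e.den : ℤ) := by
    have h7 : e.num.natAbs ≠ 0 := by omega
    rw [Nat.factorization_mul h7 e.den_ne_zero]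
    rw [Finsupp.add_apply, Nat.factorization_def _ hqp, Nat.factorization_def _ hqp,
      Nat.cast_add]
    rfl
  have h8 : padicValRat q e = (padicValInt q e.num : ℤ) - (padicValNat q e.den : ℤ) := rfl
  rw [h8]
  have h9 : Odd ((e.num.natAbs * e.den).factorization q) ↔
      Odd (((e.num.natAbs * e.den).factorization q : ℕ) : ℤ) := by
    exact_mod_cast Iff.rfl
  rw [h9, h6, Int.odd_add, Int.odd_sub]

theorem sound (h : Adm m b) (c1 c0 : List (List (Bool × (ζ ⊕ ι ⊕ κ))))
    {z : ζ → ℚ} {X : ℚ} {w B E : ι → ℚ} {Y : κ → ℚ} {e f U : ℚ}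
    (hS : SQ m b c1 c0 z X w B E Y e f U) :
    ∃ (z : ζ → Bool) (A : (ι → Bool) → Bool), Odd (univ.filter (fun x => A x = true)).card ∧
      ∀ x, ∃ y : κ → Bool, ∀ C ∈ (if A x then c1 else c0), ∃ l ∈ C,
        Sum.elim z (Sum.elim x y) l.2 = l.1 := by
  classical
  obtain ⟨hz, hX, hw, hB, hE, hY, hef, hpos, ⟨hU1, hU2⟩, ⟨hU3, hU4⟩, h1, h0, h5⟩ := hS
  have hXG : X + 1 = ((G m b univ : ℕ) : ℚ) := by
    rw [hX]; unfold G; push_cast; ring
  have hG0 : G m b univ ≠ 0 := Nat.succ_ne_zero _
  have hGQ : ((G m b univ : ℕ) : ℚ) ≠ 0 := by exact_mod_cast hG0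
  have he0 : e ≠ 0 := hpos.ne'
  have hf0 : f ≠ 0 := by rintro rfl; rw [mul_zero, hXG] at hef; exact hGQ hef.symm
  have hv : ∀ q : ℕ, q.Prime →
      padicValRat q e + padicValRat q f = ((G m b univ).factorization q : ℤ) := by
    intro q hqp
    have : Fact q.Prime := ⟨hqp⟩
    rw [← padicValRat.mul he0 hf0, hef, hXG, padicValRat.of_nat, Nat.factorization_def _ hqp]
  have hnot : ∀ q : ℕ, q.Prime → q % 4 = 3 →
      ¬ (Odd (padicValRat q e) ∧ Odd (padicValRat q f)) := by
    rintro q hqp hq4 ⟨h6, h7⟩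
    have : Fact q.Prime := ⟨hqp⟩
    have h8 := cert_both_two hq4 he0 h6 hU1 hU2
    have h9 := cert_both_two hq4 hf0 h7 hU3 hU4
    have h10 : App ((U : ℚ) : ℚ_[q]) false := by
      unfold App bv; simpa using h8
    have h11 : App ((U : ℚ) : ℚ_[q]) true := by
      unfold App bv
      rw [← norm_neg]
      simpa using h9
    exact App.not_both h11 h10
  set N : ℕ := e.num.natAbs * e.den with hN
  have hnum : 0 < e.num := Rat.num_pos.2 hpos
  have hNv : ∀ q : ℕ, q.Prime → (Odd (N.factorization q) ↔ Odd (padicValRat q e)) :=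
    fun q hqp => odd_fact_iff hnum hqp
  -- parity of N
  have hdvd := dvd_of_cert 1 (by exact_mod_cast h5 : Cert' 3 ((e + (1 : ℤ)) / 8))
  have hnumN : (e.num.natAbs : ℤ) = e.num := Int.natAbs_of_nonneg hnum.le
  have hodd : Odd (e.den : ℤ) ∧ Odd e.num := by
    have hcop : IsCoprime e.num (e.den : ℤ) := Rat.isCoprime_num_den e
    rw [Int.isCoprime_iff_gcd_eq_one] at hcop
    rcases Int.even_or_odd (e.den : ℤ) with h6 | h6
    · exfalso
      have h7 : (2 : ℤ) ∣ e.den := even_iff_two_dvd.1 h6
      have h8 : (2 : ℤ) ∣ e.num := by omega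
      have := Int.dvd_gcd h8 h7
      rw [hcop] at this
      norm_num at this
    · exact ⟨h6, by rw [Int.odd_iff] at h6 ⊢; omega⟩
  have hNodd : Odd N := by
    have : Odd ((N : ℕ) : ℤ) := by
      rw [hN]; push_cast; rw [← Int.natCast_natAbs, hnumN]; exact hodd.2.mul hodd.1
    exact_mod_cast this
  have hNmod : (N : ZMod 4) = -1 := by
    have h6 : ((e.num + 1 * e.den : ℤ) : ZMod 4) = 0 :=
      (ZMod.intCast_zmod_eq_zero_iff_dvd _ 4).2 hdvd
    have h7 : ((e.den : ℕ) : ZMod 4) * ((e.den : ℕ) : ZMod 4) = 1 := by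
      have hdo : Odd e.den := by exact_mod_cast hodd.1
      obtain ⟨r, hr⟩ := hdo
      rw [hr]
      push_cast
      have h8 : ∀ r : ZMod 4, (2 * r + 1) * (2 * r + 1) = 1 := by decide
      exact h8 _
    have h9 : ((N : ℕ) : ZMod 4) = ((e.num : ℤ) : ZMod 4) * ((e.den : ℕ) : ZMod 4) := by
      have : ((N : ℕ) : ℤ) = e.num * e.den := by rw [hN]; push_cast; rw [← Int.natCast_natAbs, hnumN]
      have h10 : (((N : ℕ) : ℤ) : ZMod 4) = ((e.num * e.den : ℤ) : ZMod 4) := by rw [this]
      push_cast at h10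
      exact h10
    rw [h9]
    push_cast at h6
    linear_combination ((e.den : ℕ) : ZMod 4) * h6 - h7
  have hglob := global_parity' (m := m) (b := b) N hNodd (by
    intro q hqp hq4 ho
    rw [hNv q hqp] at ho
    have hfe : Even (padicValRat q f) := by
      rw [← Int.not_odd_iff_even]; exact fun h6 => hnot q hqp hq4 ⟨ho, h6⟩
    have : Odd (((G m b univ).factorization q : ℕ) : ℤ) := by
      rw [← hv q hqp]; exact ho.add_even hfe
    exact_mod_cast this)
  rw [hNmod] at hglob
  have hoddA : Odd (univ.filter (fun S : Finset ι =>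
      Odd ((TS m b S).filter (fun q => Odd (N.factorization q))).card)).card := by
    rcases Nat.even_or_odd (univ.filter (fun S : Finset ι =>
      Odd ((TS m b S).filter (fun q => Odd (N.factorization q))).card)).card with h6 | h6
    · rw [h6.neg_one_pow] at hglob
      exact absurd hglob (by decide)
    · exact h6
  refine ⟨fun i => decide (z i = 1), fun x => decide (Odd ((TS m b (zs x)).filter
    (fun q => Odd (N.factorization q))).card), ?_, ?_⟩
  · have h6 := card_zs (fun S : Finset ι =>
      Odd ((TS m b S).filter (fun q => Odd (N.factorization q))).card)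
    simp only [decide_eq_true_eq]
    rw [h6]
    exact hoddA
  · intro x
    -- values at a place
    have hzb : ∀ i, z i = bv ℚ (decide (z i = 1)) := by
      intro i
      unfold bv
      by_cases h6 : z i = 1
      · simp [h6]
      · have h7 : z i * (z i - 1) = 0 := by rw [mul_sub, hz i]; ring
        rcases mul_eq_zero.1 h7 with h8 | h8
        · simp [h8]
        · exact absurd (by linarith) h6
    have place : ∀ q ∈ TS m b (zs x), ∀ (g : ℚ) (cl : List (List (Bool × (ζ ⊕ ι ⊕ κ)))),
        g ≠ 0 → Odd (padicValRat q g) →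
        (∀ C ∈ cl, CC g (2 * cprod (Sum.elim z (Sum.elim E Y)) C)) →
        ∃ y : κ → Bool, ∀ C ∈ cl, ∃ l ∈ C,
          Sum.elim (fun i => decide (z i = 1)) (Sum.elim x y) l.2 = l.1 := by
      intro q hq g cl hg hog hcl
      simp only [TS, mem_filter] at hq
      obtain ⟨hqG, hq4, hqo, hqs⟩ := hq
      have hqp := Nat.prime_of_mem_primeFactors hqG
      have hqd := Nat.dvd_of_mem_primeFactors hqG
      have hqf : Fact q.Prime := ⟨hqp⟩
      refine ⟨fun j => decide (‖((1 - Y j : ℚ) : ℚ_[q])‖ < 1), fun C hC => ?_⟩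
      obtain ⟨hC1, hC2⟩ := hcl C hC
      have h6 := cert_both_two hq4 hg hog hC1 hC2
      have hEl := fun a => E_local h hX hw hB hE hq4 hqd hqo a
      have hxa : ∀ a, decide (a ∉ supp m b q) = x a := by
        intro a
        rw [hqs]
        exact congrFun (not_mem_zs x) a
      refine clause_local (q := q) (Sum.elim z (Sum.elim E Y)) _ ?_ ?_ C h6
      · rintro (a | a | a) ht
        · simp only [Sum.elim_inl, decide_eq_true_eq] at ht ⊢
          simp [ht]
        · simp only [Sum.elim_inr, Sum.elim_inl] at ht ⊢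
          have h7 := hEl a
          rw [hxa a, ht] at h7
          unfold App bv at h7
          rw [← norm_neg] at h7
          simpa using h7
        · simpa using ht
      · rintro (a | a | a) ht
        · simp only [Sum.elim_inl, decide_eq_false_iff_not] at ht ⊢
          have h7 := hzb a
          rw [bv, if_neg (by simpa using ht)] at h7
          simp [h7]
        · simp only [Sum.elim_inr, Sum.elim_inl] at ht ⊢
          have h7 := hEl a
          rw [hxa a, ht] at h7
          unfold App bv at h7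
          simpa using h7
        · simp only [Sum.elim_inr, decide_eq_false_iff_not] at ht ⊢
          have hYa := hY a
          rw [hXG] at hYa
          have hYa := cert_two hq4 hG0 hqo hYa
          rw [Rat.cast_mul, norm_mul] at hYa
          have h7 : ‖((Y a - 1 : ℚ) : ℚ_[q])‖ = ‖((1 - Y a : ℚ) : ℚ_[q])‖ := by
            rw [← norm_neg]; congr 1; push_cast; ring
          rw [h7] at hYa
          push Not at ht
          have h8 : 0 ≤ ‖((Y a : ℚ) : ℚ_[q])‖ := norm_nonneg _
          nlinarith [h8, ht, hYa]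
    by_cases hA : Odd ((TS m b (zs x)).filter (fun q => Odd (N.factorization q))).card
    · have h6 : decide (Odd ((TS m b (zs x)).filter
        (fun q => Odd (N.factorization q))).card) = true := by simpa using hA
      beta_reduce
      rw [h6]
      simp only [if_true]
      obtain ⟨q, hq⟩ : ((TS m b (zs x)).filter (fun q => Odd (N.factorization q))).Nonempty := by
        rw [← card_pos]; exact hA.pos
      rw [mem_filter] at hq
      have hqp : q.Prime := by
        have := hq.1
        simp only [TS, mem_filter] at this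
        exact Nat.prime_of_mem_primeFactors this.1
      exact place q hq.1 e c1 he0 ((hNv q hqp).1 hq.2) h1
    · have h6 : decide (Odd ((TS m b (zs x)).filter
        (fun q => Odd (N.factorization q))).card) = false := by simpa using hA
      beta_reduce
      rw [h6]
      simp only [Bool.false_eq_true, if_false]
      obtain ⟨q, hq⟩ : ((TS m b (zs x)).filter (fun q => ¬ Odd (N.factorization q))).Nonempty := by
        rw [← card_pos]
        have h7 := card_TS h (zs x)
        rw [← card_filter_add_card_filter_not (s := TS m b (zs x))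
          (fun q => Odd (N.factorization q))] at h7
        rw [Nat.not_odd_iff_even] at hA
        rw [Nat.odd_add] at h7
        by_contra h8
        have h9 : ((TS m b (zs x)).filter (fun q => ¬ Odd (N.factorization q))).card = 0 := by
          omega
        rw [h9] at h7
        have h10 := h7.2 (by decide)
        exact (Nat.not_odd_iff_even.2 hA) h10
      rw [mem_filter] at hq
      have hq1 := hq.1
      simp only [TS, mem_filter] at hq1
      have hqp := Nat.prime_of_mem_primeFactors hq1.1
      have h7 : Odd (padicValRat q f) := by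
        have h8 : Odd (padicValRat q e + padicValRat q f) := by
          rw [hv q hqp]; exact_mod_cast hq1.2.2.1
        have h9 : ¬ Odd (padicValRat q e) := fun h10 => hq.2 ((hNv q hqp).2 h10)
        by_contra h10
        exact (Int.not_odd_iff_even.2 ((Int.not_odd_iff_even.1 h9).add
          (Int.not_odd_iff_even.1 h10))) h8
      exact place q hq.1 f c0 hf0 h7 h0

theorem exists_lift (f : (ι → Bool) → Bool) : ∃ Y : ℤ, ∀ S : Finset ι,
    ((Y : ℤ) : ZMod (P m b S)) = bv (ZMod (P m b S)) (f (fun i => decide (i ∉ S))) := by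
  classical
  have hP0 : ∀ S : Finset ι, P m b S ≠ 0 := by
    intro S
    unfold P
    rw [prod_ne_zero_iff]
    intro q hq
    rw [mem_filter] at hq
    exact pow_ne_zero _ (Nat.prime_of_mem_primeFactors hq.1).ne_zero
  obtain ⟨k, hk⟩ := Nat.chineseRemainderOfFinset
    (fun S : Finset ι => if f (fun i => decide (i ∉ S)) then 1 else 0) (fun S => P m b S)
    (univ : Finset (Finset ι)) (fun S _ => hP0 S)
    (fun S _ S' _ hne => P_coprime hne)
  refine ⟨k, fun S => ?_⟩
  have h1 := hk S (mem_univ S)
  have h2 := (ZMod.natCast_eq_natCast_iff _ _ _).2 h1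
  unfold bv
  rw [Int.cast_natCast, h2]
  split_ifs <;> simp

theorem complete (h : Adm m b) (h16 : b % 16 = 14) (h5 : ∀ i, 5 ≤ m i)
    (c1 c0 : List (List (Bool × (ζ ⊕ ι ⊕ κ)))) (z : ζ → Bool) (A : (ι → Bool) → Bool)
    (hodd : Odd (univ.filter (fun x => A x = true)).card)
    (hA : ∀ x, ∃ y : κ → Bool, ∀ C ∈ (if A x then c1 else c0), ∃ l ∈ C,
        Sum.elim z (Sum.elim x y) l.2 = l.1) :
    ∃ (z : ζ → ℚ) (X : ℚ) (w B E : ι → ℚ) (Y : κ → ℚ) (e f U : ℚ),
      SQ m b c1 c0 z X w B E Y e f U := by
  classical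
  choose y hy using hA
  set g := G m b univ with hg
  have hgodd : Odd g := h.G_odd univ
  have hg0 : g ≠ 0 := Nat.succ_ne_zero _
  set W : ι → ℤ := fun i => ((b ^ (∏ j ∈ univ.erase i, m j) : ℕ) : ℤ) with hW
  set Bz : ι → ℤ := fun i => ∑ k ∈ range (m i), (-(W i)) ^ k with hBz
  have hWm : ∀ i, W i ^ m i = (b : ℤ) ^ (∏ i, m i) := by
    intro i
    simp only [hW]
    push_cast
    rw [← pow_mul, Finset.prod_erase_mul _ _ (mem_univ i)]
  have hgz : (g : ℤ) = (b : ℤ) ^ (∏ i, m i) + 1 := by
    rw [hg]; unfold G; push_cast; rfl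
  have hBW : ∀ i, Bz i * (W i + 1) = (g : ℤ) := by
    intro i
    have h6 := mul_geom_sum (-(W i)) (m i)
    rw [(h.odd i).neg_pow, hWm i] at h6
    rw [hgz]
    simp only [hBz]
    linear_combination -h6
  have hWG : ∀ i, W i + 1 = ((G m b (univ.erase i) : ℕ) : ℤ) := by
    intro i; simp only [hW]; unfold G; push_cast; rfl
  have hBm : ∀ i, (W i + 1) ∣ (Bz i - (m i : ℤ)) := by
    intro i
    have h10 : (Bz i - (m i : ℤ)) = ∑ k ∈ range (m i), ((-(W i)) ^ k - 1) := by
      rw [Finset.sum_sub_distrib]; simp [hBz]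
    rw [h10]
    apply Finset.dvd_sum
    intro k _
    have := sub_dvd_pow_sub_pow (-(W i)) 1 k
    rw [one_pow] at this
    have h11 : -(W i) - 1 = -(W i + 1) := by ring
    rw [h11] at this
    exact (neg_dvd).1 this
  -- values modulo the parts
  have hBP : ∀ (S : Finset ι) (i : ι), ((Bz i : ℤ) : ZMod (P m b S)) =
      (m i : ZMod (P m b S)) * bv (ZMod (P m b S)) (decide (i ∉ S)) := by
    intro S i
    by_cases hi : i ∈ S
    · have hd : decide (i ∉ S) = false := by simpa using hi
      rw [hd]
      simp only [bv, Bool.false_eq_true, if_false, mul_zero]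
      rw [ZMod.intCast_zmod_eq_zero_iff_dvd]
      have h2 : ((P m b S : ℕ) : ℤ) ∣ Bz i * (W i + 1) := by
        rw [hBW i]; exact_mod_cast P_dvd_G h (subset_univ S)
      have h3 : IsCoprime ((P m b S : ℕ) : ℤ) (W i + 1) := by
        rw [hWG i]
        exact Nat.isCoprime_iff_coprime.2 (P_coprime_G hi)
      exact h3.dvd_of_dvd_mul_right h2
    · have hd : decide (i ∉ S) = true := by simpa using hi
      rw [hd]
      simp only [bv, if_true, mul_one]
      have h2 : ((P m b S : ℕ) : ℤ) ∣ (Bz i - (m i : ℤ)) := by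
        refine dvd_trans ?_ (hBm i)
        rw [hWG i]
        have : S ⊆ univ.erase i := by
          intro j hj
          simp only [mem_erase, mem_univ, and_true]
          rintro rfl; exact hi hj
        exact_mod_cast P_dvd_G h this
      have := (ZMod.intCast_zmod_eq_zero_iff_dvd _ (P m b S)).2 h2
      push_cast at this
      linear_combination this
  -- divisibility by products of parts
  have hpair : ∀ T : Finset (Finset ι), (T : Set (Finset ι)).Pairwise
      (Function.onFun IsCoprime fun S => ((P m b S : ℕ) : ℤ)) := by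
    intro T S _ S' _ hne
    exact Nat.isCoprime_iff_coprime.2 (P_coprime hne)
  have hdvd : ∀ (T : Finset (Finset ι)) (c : ℤ), (∀ S ∈ T, ((c : ℤ) : ZMod (P m b S)) = 0) →
      ((c : ℤ) : ZMod (∏ S ∈ T, P m b S)) = 0 := by
    intro T c hc
    rw [ZMod.intCast_zmod_eq_zero_iff_dvd]
    push_cast
    apply Finset.prod_dvd_of_coprime (hpair _)
    intro S hS
    rw [← ZMod.intCast_zmod_eq_zero_iff_dvd]
    exact hc S hS
  have hgP : g = ∏ S ∈ (univ : Finset (Finset ι)), P m b S := by
    rw [hg, ← h.prod_P univ, powerset_univ]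
  -- the integers
  choose Ei hEi using fun i : ι => exists_lift (m := m) (b := b) (fun x : ι → Bool => x i)
  choose Yi hYi using fun j : κ => exists_lift (m := m) (b := b) (fun x : ι → Bool => y x j)
  obtain ⟨Ui, hUi⟩ := exists_lift (m := m) (b := b) (fun x : ι → Bool => !(A x))
  set zi : ζ → ℤ := fun i => if z i then 1 else 0 with hzi
  set pt : Finset ι → (ι → Bool) := fun S i => decide (i ∉ S) with hpt
  set Tr := univ.filter (fun S : Finset ι => A (pt S) = true) with hTr
  set Fa := univ.filter (fun S : Finset ι => ¬ A (pt S) = true) with hFa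
  set eN : ℕ := ∏ S ∈ Tr, P m b S with heN
  set fN : ℕ := ∏ S ∈ Fa, P m b S with hfN
  have hefN : eN * fN = g := by
    rw [heN, hfN, hTr, hFa, prod_filter_mul_prod_filter_not, hgP]
  have heodd : Odd eN := Odd.of_dvd_nat hgodd ⟨fN, hefN.symm⟩
  have hfodd : Odd fN := Odd.of_dvd_nat hgodd ⟨eN, by rw [mul_comm]; exact hefN.symm⟩
  have hcard : Tr.card = (univ.filter (fun x => A x = true)).card := by
    have h1 := card_zs (fun S : Finset ι => A (pt S) = true)
    rw [← hTr] at h1
    rw [← h1]
    congr 1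
    apply filter_congr
    intro x _
    simp only [hpt]
    rw [not_mem_zs]
  have he16 : ((eN : ℕ) : ZMod 16) = -1 := by
    rw [heN]
    push_cast
    rw [prod_congr rfl (fun S _ => P_mod h h16 h5 S), prod_const, hcard, hodd.neg_one_pow]
  obtain ⟨j, hj⟩ : ∃ j : ℤ, (eN : ℤ) + 1 = 16 * j := by
    have h1 : (((eN : ℤ) + 1 : ℤ) : ZMod 16) = 0 := by
      push_cast
      rw [he16]; ring
    obtain ⟨j, hj⟩ := (ZMod.intCast_zmod_eq_zero_iff_dvd _ 16).1 h1
    exact ⟨j, by exact_mod_cast hj⟩
  have hXg : ((b : ℚ) ^ (∏ i, m i)) + 1 = ((g : ℕ) : ℚ) := by exact_mod_cast hgz.symm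
  -- both certificates
  have hCC : ∀ (n : ℕ) (c : ℤ), Odd n → ((c : ℤ) : ZMod n) = 0 → CC n (2 * (c : ℚ)) := by
    intro n c hn hc
    refine ⟨cert_of_dvd n hn c hc, ?_⟩
    obtain ⟨d, x, y, h1⟩ := TwoSq.cert_complete n hn (2 * c) (even_two_mul _)
    refine ⟨d, x, y, ?_⟩
    push_cast at h1
    exact h1
  -- clauses
  set v : ζ ⊕ ι ⊕ κ → ℤ := Sum.elim zi (Sum.elim Ei Yi) with hv
  have hvQ : (Sum.elim (fun i => (zi i : ℚ)) (Sum.elim (fun i => (Ei i : ℚ))
      (fun j => (Yi j : ℚ)))) = fun a => ((v a : ℤ) : ℚ) := by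
    funext a
    rcases a with a | a | a <;> simp [hv]
  have hprod : ∀ C : List (Bool × (ζ ⊕ ι ⊕ κ)),
      cprod (fun a => ((v a : ℤ) : ℚ)) C =
      (((C.map (fun l => 1 - lr v l)).prod : ℤ) : ℚ) := by
    intro C
    unfold cprod
    induction C with
    | nil => simp
    | cons l C ih =>
      rw [List.map_cons, List.prod_cons, List.map_cons, List.prod_cons, ih]
      unfold lv lr
      rcases l.1 <;> push_cast <;> simp
  have hval : ∀ (S : Finset ι) (a : ζ ⊕ ι ⊕ κ), ((v a : ℤ) : ZMod (P m b S)) =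
      bv (ZMod (P m b S)) (Sum.elim z (Sum.elim (pt S) (y (pt S))) a) := by
    rintro S (a | a | a)
    · simp only [hv, Sum.elim_inl, hzi, bv]
      by_cases hza : z a = true <;> simp [hza]
    · simp only [hv, Sum.elim_inr, Sum.elim_inl]
      exact hEi a S
    · simp only [hv, Sum.elim_inr]
      exact hYi a S
  have hclause : ∀ (S : Finset ι) (C : List (Bool × (ζ ⊕ ι ⊕ κ))),
      (∃ l ∈ C, Sum.elim z (Sum.elim (pt S) (y (pt S))) l.2 = l.1) →
      (((C.map (fun l => 1 - lr v l)).prod : ℤ) : ZMod (P m b S)) = 0 := by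
    rintro S C ⟨l, hl, hlt⟩
    have h1 : (((C.map (fun l => 1 - lr v l)).prod : ℤ) : ZMod (P m b S)) =
        (C.map (fun l => 1 - lr (fun a => bv (ZMod (P m b S))
          (Sum.elim z (Sum.elim (pt S) (y (pt S))) a)) l)).prod := by
      have h2 := map_list_prod (Int.castRingHom (ZMod (P m b S))) (C.map (fun l => 1 - lr v l))
      rw [eq_intCast, List.map_map] at h2
      rw [h2]
      congr 1
      apply List.map_congr_left
      intro l _
      simp only [Function.comp, map_sub, map_one]
      rw [lr_map]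
      congr 2
      funext a
      rw [eq_intCast]
      exact hval S a
    rw [h1, clause_bv]
    have h3 : (C.any (fun l => Sum.elim z (Sum.elim (pt S) (y (pt S))) l.2 == l.1)) = true := by
      rw [List.any_eq_true]
      exact ⟨l, hl, by simpa using hlt⟩
    rw [h3]; simp [bv]
  refine ⟨fun i => zi i, (b : ℚ) ^ (∏ i, m i), fun i => W i, fun i => Bz i, fun i => Ei i,
    fun j => Yi j, eN, fN, Ui, ?_, rfl, ?_, ?_, ?_, ?_, ?_, ?_, ?_, ?_, ?_, ?_, ?_⟩
  · intro i
    simp only [hzi]
    cases z i <;> simp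
  · intro i
    change ((W i : ℤ) : ℚ) ^ m i = _
    exact_mod_cast hWm i
  · intro i
    rw [hXg]
    change ((Bz i : ℤ) : ℚ) * (((W i : ℤ) : ℚ) + 1) = _
    exact_mod_cast hBW i
  · intro i
    rw [hXg]
    have h1 := cert_of_dvd g hgodd (m i * Ei i - Bz i) (by
      rw [hgP]
      apply hdvd
      intro S _
      push_cast
      rw [hEi i S, hBP S i]
      ring)
    push_cast at h1
    exact h1
  · intro j
    rw [hXg]
    have h1 := cert_of_dvd g hgodd (Yi j * (Yi j - 1)) (by
      rw [hgP]
      apply hdvd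
      intro S _
      push_cast
      rw [hYi j S]
      unfold bv
      split_ifs <;> simp)
    push_cast at h1
    exact h1
  · rw [hXg]; exact_mod_cast hefN
  · exact_mod_cast heodd.pos
  · refine hCC eN Ui heodd (hdvd _ _ ?_)
    intro S hS
    rw [hUi S]
    simp only [hTr, mem_filter, mem_univ, true_and, hpt] at hS
    rw [hS]; simp [bv]
  · have h1 := hCC fN (1 - Ui) hfodd (hdvd _ _ (by
      intro S hS
      push_cast
      rw [hUi S]
      simp only [hFa, mem_filter, mem_univ, true_and, hpt, Bool.not_eq_true] at hS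
      rw [hS]; simp [bv]))
    push_cast at h1
    exact h1
  · intro C hC
    rw [hvQ, hprod]
    refine hCC eN _ heodd (hdvd _ _ ?_)
    intro S hS
    simp only [hTr, mem_filter, mem_univ, true_and] at hS
    apply hclause
    have := hy (pt S)
    rw [hS] at this
    simpa using this C hC
  · intro C hC
    rw [hvQ, hprod]
    refine hCC fN _ hfodd (hdvd _ _ ?_)
    intro S hS
    simp only [hFa, mem_filter, mem_univ, true_and, Bool.not_eq_true] at hS
    apply hclause
    have := hy (pt S)
    rw [hS] at this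
    simpa using this C hC
  · have h1 : ((eN : ℚ) + 1) / 8 = ((2 * j : ℤ) : ℚ) := by
      have : ((eN : ℚ) + 1) = 16 * j := by exact_mod_cast hj
      rw [this]; push_cast; ring
    rw [h1]
    obtain ⟨d, x, y, h1⟩ := TwoSq.cert_complete 3 (by decide) (2 * j) (even_two_mul _)
    refine ⟨d, x, y, ?_⟩
    push_cast at h1 ⊢
    exact h1

/-- The equivalence. -/
theorem sysQ_iff (h : Adm m b) (h16 : b % 16 = 14) (h5 : ∀ i, 5 ≤ m i)
    (c1 c0 : List (List (Bool × (ζ ⊕ ι ⊕ κ)))) :
    (∃ (z : ζ → Bool) (A : (ι → Bool) → Bool), Odd (univ.filter (fun x => A x = true)).card ∧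
      ∀ x, ∃ y : κ → Bool, ∀ C ∈ (if A x then c1 else c0), ∃ l ∈ C,
        Sum.elim z (Sum.elim x y) l.2 = l.1) ↔
    ∃ (z : ζ → ℚ) (X : ℚ) (w B E : ι → ℚ) (Y : κ → ℚ) (e f U : ℚ),
      SQ m b c1 c0 z X w B E Y e f U := by
  constructor
  · rintro ⟨z, A, h1, h2⟩
    exact complete h h16 h5 c1 c0 z A h1 h2
  · rintro ⟨z, X, w, B, E, Y, e, f, U, hS⟩
    exact sound h c1 c0 hS

end Pool.Agent.H573R2.SysQ
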